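import Pool.Agent.MP_3ee8cb_gt.DN.Spec2

/-! A pinching constant that does not depend on the dimension: statements of the blocks. -/

namespace Pool.Agent.MP_3ee8cb_gt.DF

open DN Set MeasureTheory ProbabilityTheory
open scoped RealInnerProductSpace

noncomputable section

variable [Dim]

/-- The squared Hilbert-Schmidt norm. -/
def hs (B : V →L[ℝ] V) : ℝ := ∑ i, ‖B (EuclideanSpace.single i 1)‖ ^ 2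

/-- The trace. -/
def trc (B : V →L[ℝ] V) : ℝ := LinearMap.trace ℝ V (B : V →ₗ[ℝ] V)

/-- The standard Gaussian measure. -/
abbrev ga : Measure V := stdGaussian V

/-- The Gaussian mean of `exp f` is at most `exp α`. -/
def EB (f : V → ℝ) (α : ℝ) : Prop := AEMeasurable f ga ∧
  ∫⁻ x, ENNReal.ofReal (Real.exp (f x)) ∂ga ≤ ENNReal.ofReal (Real.exp α)

/-- The heat flow at time `t ^ 2`. -/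
def PP {W : Type} [NormedAddCommGroup W] [NormedSpace ℝ W] (t : ℝ) (f : V → W) (z : V) : W :=
  ∫ x, f (z + t • x) ∂ga

/-- `G` is of class `C¹` with derivative bounded by `L`. -/
structure Lip (G : V → V) (L : ℝ) : Prop where
  c1 : ContDiff ℝ 1 G
  bd : ∀ x, ‖fderiv ℝ G x‖ ≤ L

/-- `F` is of class `C¹` off the origin and homogeneous of degree zero. -/
structure H0 (F : V → V) : Prop where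
  c1 : ContDiffOn ℝ 1 F {a | a ≠ 0}
  hom : ∀ (r : ℝ) a, r ≠ 0 → a ≠ 0 → F (r • a) = F a

/-! ### Kits -/

/-- Facts on the Hilbert-Schmidt norm. -/
structure KH : Prop where
  nonneg : ∀ B, 0 ≤ hs B
  cont : Continuous hs
  basis : ∀ B (f : OrthonormalBasis (Fin dm) ℝ V), hs B = ∑ i, ‖B (f i)‖ ^ 2
  adj : ∀ B : V →L[ℝ] V, hs (ContinuousLinearMap.adjoint B) = hs B
  left : ∀ T B : V →L[ℝ] V, hs (T.comp B) ≤ ‖T‖ ^ 2 * hs B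
  right : ∀ B T : V →L[ℝ] V, hs (B.comp T) ≤ ‖T‖ ^ 2 * hs B
  le : ∀ B, hs B ≤ dm * ‖B‖ ^ 2
  smul : ∀ (c : ℝ) B, hs (c • B) = c ^ 2 * hs B
  add : ∀ B C, hs (B + C) ≤ 2 * hs B + 2 * hs C
  one : ∀ (l : V →L[ℝ] ℝ) (w : V), hs (l.smulRight w) = ‖l‖ ^ 2 * ‖w‖ ^ 2
  mono : ∀ B C : V →L[ℝ] V, (∀ e, ‖B e‖ ≤ ‖C e‖) → hs B ≤ hs C
  self : ∀ B : V →L[ℝ] V, trc ((ContinuousLinearMap.adjoint B).comp B) = hs B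
  cs : ∀ B C : V →L[ℝ] V, trc ((ContinuousLinearMap.adjoint B).comp C) ^ 2 ≤ hs B * hs C
  det : ∀ Z : V →L[ℝ] V, ‖Z‖ ≤ 1 / 2 →
    Real.exp (-trc Z - 5 * hs Z) ≤ |(ContinuousLinearMap.id ℝ V - Z).det|

/-- Facts on exponential moments. -/
structure KE : Prop where
  const : ∀ c, EB (fun _ => c) c
  mono : ∀ {f g α β}, EB f α → AEMeasurable g ga → (∀ x, g x ≤ f x) → α ≤ β → EB g β
  shift : ∀ {f α} c, EB f α → EB (fun x => f x + c) (α + c)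
  comb : ∀ {f g α β} θ η, EB f α → EB g β → 0 ≤ θ → 0 ≤ η → θ + η ≤ 1 →
    EB (fun x => θ * f x + η * g x) (θ * α + η * β)
  int : ∀ {f α}, EB f α →
    Integrable (fun x => Real.exp (f x)) ga ∧ ∫ x, Real.exp (f x) ∂ga ≤ Real.exp α
  of_int : ∀ {f α}, AEMeasurable f ga → Integrable (fun x => Real.exp (f x)) ga →
    ∫ x, Real.exp (f x) ∂ga ≤ Real.exp α → EB f α
  jensen : ∀ {f α}, EB f α → Integrable f ga → ∫ x, f x ∂ga ≤ α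
  grow : ∀ {W : Type} [NormedAddCommGroup W] {G : V → W} (C : ℝ), AEStronglyMeasurable G ga →
    (∀ x, ‖G x‖ ≤ C * (1 + ‖x‖ ^ 2)) → Integrable G ga
  lip : ∀ {G L}, Lip G L → 0 ≤ L ∧ Integrable G ga ∧ Integrable (fderiv ℝ G) ga ∧
    ‖∫ x, fderiv ℝ G x ∂ga‖ ≤ L ∧ ∀ x, ‖G x‖ ≤ ‖G 0‖ + L * ‖x‖
  lin : ∀ l : V →L[ℝ] ℝ, EB l (‖l‖ ^ 2 / 2)

/-! ### The Gaussian inequality -/

/-- Change of variables. -/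
def SCV : Prop := ∀ Z, Lip Z (1 / 2) → EB (fun x => -trc (fderiv ℝ Z x) - 5 * hs (fderiv ℝ Z x) +
  (⟪x, Z x⟫ - ‖Z x‖ ^ 2 / 2)) 0

/-- Quadratic forms. -/
def SQF : Prop := ∀ (T : V →L[ℝ] V) (l : ℝ), 0 ≤ l → 4 * l * ‖T‖ ^ 2 ≤ 1 →
  EB (fun y => l * ‖T y‖ ^ 2) (8 * l * hs T)

/-- Pisier's inequality. -/
def SPIS : Prop := ∀ (W : Type) [NormedAddCommGroup W] [NormedSpace ℝ W] [CompleteSpace W]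
  (φ : W → ℝ) (G : V → W) (ψ : V → ℝ) (α : ℝ), ConvexOn ℝ univ φ → Continuous φ →
  ContDiff ℝ 1 G → Integrable G ga →
  (∀ x, EB (fun y => φ ((Real.pi / 2) • fderiv ℝ G x y)) (ψ x)) → EB ψ α →
  EB (fun x => φ (G x - ∫ y, G y ∂ga)) α

/-- The scalar case. -/
def SP1 : Prop := ∀ (f ψ : V → ℝ) (α : ℝ), ContDiff ℝ 1 f → Integrable f ga →
  (∀ x, 5 / 4 * ‖fderiv ℝ f x‖ ^ 2 ≤ ψ x) → EB ψ α → EB (fun x => f x - ∫ y, f y ∂ga) α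

/-- The quadratic case. -/
def SP2 : Prop := ∀ (G : V → V) (L l α : ℝ), Lip G L → 0 ≤ l → 10 * l * L ^ 2 ≤ 1 →
  EB (fun x => 20 * l * hs (fderiv ℝ G x)) α → EB (fun x => l * ‖G x - ∫ y, G y ∂ga‖ ^ 2) α

/-- One half of Stein's identity. -/
def SST : Prop := ∀ G L, Lip G L →
  hs (∫ x, fderiv ℝ G x ∂ga) ≤ ∫ x, ⟪(∫ x, fderiv ℝ G x ∂ga) x, G x⟫ ∂ga

/-- The energy of a gradient field is not small too often. -/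
def SLM : Prop := ∀ G (L c s : ℝ), Lip G L → 0 ≤ s → 1400 * s * L ^ 2 ≤ 1 → s ≤ 2 * c →
  EB (fun x => -c * hs (fderiv ℝ G x)) (-(s / 4) * hs (∫ x, fderiv ℝ G x ∂ga))

/-- One step of the heat flow. -/
def SSTEP : Prop := ∀ (N : V → V) (f : V → ℝ) (l Λ b β θ γ : ℝ), Lip N l → l ^ 2 ≤ Λ →
  (∀ x, hs (fderiv ℝ N x) ≤ Λ) → 2 * b * Λ ≤ 1 → 0 ≤ β → 160 * β ≤ b → 0 ≤ θ → θ ≤ 1 / 2 →
  EB f γ → EB (fun x => β * ‖N x‖ ^ 2 + θ * f x - b / 2 * hs (fderiv ℝ N x))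
    ((β + 20 * β ^ 2 * l ^ 2) * ‖∫ x, N x ∂ga‖ ^ 2 + θ * γ)

/-- The sum of two independent Gaussian vectors. -/
def SSEM : Prop := ∀ a b c : ℝ, c ^ 2 = a ^ 2 + b ^ 2 →
  (ga.prod ga).map (fun p : V × V => a • p.1 + b • p.2) = ga.map fun x : V => c • x

/-- The heat flow: regularity and the semigroup law. -/
structure SHEAT : Prop where
  der : ∀ H L t, Lip H L → Lip (PP t H) L ∧ ∀ z, fderiv ℝ (PP t H) z = PP t (fderiv ℝ H) z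
  cont : ∀ (g : V → ℝ) (ε t : ℝ), Continuous g → (∀ x, ε ≤ g x ∧ g x ≤ 1) → 0 ≤ ε →
    Continuous (PP t g) ∧ ∀ z, ε ≤ PP t g z ∧ PP t g z ≤ 1
  semi : ∀ (W : Type) [NormedAddCommGroup W] [NormedSpace ℝ W] [CompleteSpace W] (f : V → W)
    (C a b c : ℝ), Continuous f → (∀ x, ‖f x‖ ≤ C * (1 + ‖x‖)) → c ^ 2 = a ^ 2 + b ^ 2 →
    PP a (PP b f) = PP c f
  lsemi : ∀ (f : V → ENNReal) (a b c : ℝ) z, Measurable f → c ^ 2 = a ^ 2 + b ^ 2 →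
    ∫⁻ x, ∫⁻ y, f (z + a • x + b • y) ∂ga ∂ga = ∫⁻ x, f (z + c • x) ∂ga

/-- The dimension free inequality. -/
def SKEY : Prop := ∀ H (L c s b : ℝ), Lip H L → ∫ x, H x ∂ga = 0 → 0 ≤ b → 1280 * b ≤ s →
  1400 * s * L ^ 2 ≤ 1 → s ≤ 2 * c →
  EB (fun x => b * ‖H x‖ ^ 2 - c / 2 * hs (fderiv ℝ H x)) 0

/-! ### The sphere -/

/-- Polar coordinates. -/
def SPOLAR : Prop := 0 < sph (fun _ => 1) ∧ ∀ f : V → ℝ, ContinuousOn f {a | ‖a‖ = 1} →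
  Integrable (fun x : V => f (‖x‖⁻¹ • x)) ga ∧
  Integrable (fun x : V => ‖x‖ ^ 2 * f (‖x‖⁻¹ • x)) ga ∧
  (∫ x, f (‖x‖⁻¹ • x) ∂ga) * sph (fun _ => 1) = sph f ∧
  (∫ x, ‖x‖ ^ 2 * f (‖x‖⁻¹ • x) ∂ga) * sph (fun _ => 1) = dm * sph f

/-- The radial cutoff. -/
def ps (x : V) : ℝ := ‖x‖ ^ 2 / √(1 + ‖x‖ ^ 2)

/-- The extension to the whole space. -/
def SEXT : Prop := ∀ F (L : ℝ) (w : V), H0 F → ‖w‖ ≤ 3 / 2 →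
  (∀ u, ‖u‖ = 1 → ‖F u‖ ≤ 3 / 2 ∧ ‖fderiv ℝ F u‖ ≤ L) →
  Lip (fun x => ps x • (F x - w)) (L + 6) ∧ ∀ x, x ≠ 0 →
    hs (fderiv ℝ (fun x => ps x • (F x - w)) x) ≤
      8 * ‖F (‖x‖⁻¹ • x) - w‖ ^ 2 + 2 * hs (fderiv ℝ F (‖x‖⁻¹ • x))

/-- The inequality on the sphere. -/
def SKS (L c μ : ℝ) : Prop := ∀ F, H0 F →
  (∀ u, ‖u‖ = 1 → ‖F u‖ ≤ 3 / 2 ∧ ‖fderiv ℝ F u‖ ≤ L) → ∃ w : V,
    sph (fun u => Real.exp (μ * dm * ‖F u - w‖ ^ 2 - c * hs (fderiv ℝ F u))) ≤ sph fun _ => 1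

def SKSO : Prop := ∀ L c s b : ℝ, 0 ≤ b → 1280 * b ≤ s → 1400 * s * (L + 6) ^ 2 ≤ 1 →
  s ≤ 2 * c → b + 4 * c ≤ b / 2 * dm → SKS L c (b / 2)

/-! ### The fibre inequality -/

/-- Linear algebra at one point. -/
def SALG : Prop := ∀ (A M B : V →L[ℝ] V) (p : V →L[ℝ] ℝ) (K k r : ℝ), 1 ≤ K → 0 ≤ k →
  k ≤ 1 / 8 → ‖B‖ ≤ 1 → A.det ≠ 0 → (∀ e, ‖M e‖ ≤ K * ‖A e‖ ∧ |p (M e)| ≤ K * r * ‖A e‖ ∧
    ‖A e‖ ^ 2 - k * ‖A e‖ * ‖B (A e)‖ ≤ ‖M e‖ ^ 2 - p (M e) ^ 2) →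
  |A.det| * Real.exp (-(hs B / 4)) ≤
      |M.det| * √(1 - ‖p‖ ^ 2) * Real.exp (32 * dm * k ^ 2 - hs B / 8) ∧
    ‖p‖ ^ 2 ≤ 1 - 1 / (2 * K ^ 2) ∧ ‖p‖ ^ 2 ≤ 2 * K ^ 2 * r ^ 2 ∧
    ∀ D : V →L[ℝ] V, (∀ e, ‖D (M e)‖ ≤ K * ‖B (A e)‖) → ‖D‖ ≤ 2 * K ∧ hs D ≤ 4 * K ^ 2 * hs B

/-- Young's inequality at one point. -/
def SHOL : Prop := ∀ (x g τ R U Q : ℝ), 0 < x → x ≤ 1 / 4 → τ ^ 2 ≤ g ^ 2 → g ^ 2 ≤ 1 - 2 * x →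
  g ^ 2 ≤ x * R → 0 ≤ Q →
  √(1 - g ^ 2) / √(1 - τ ^ 2) ^ dm * Real.exp (U - R - Q) ≤
    1 / (1 + x) * (√(1 - (1 + x) * g ^ 2) / √(1 - (1 + x) * τ ^ 2) ^ dm) +
      x / (1 + x) * Real.exp ((1 + x) / x * U - Q)

/-- Everything is pulled back to the parameter `ξ / ‖ξ‖`. -/
def SPULL : Prop := ∀ (t : V → ℝ) (ξ F : V → V), DS t ξ → H0 F →
  (∀ v, ‖v‖ = 1 → (fderiv ℝ ξ v).det ≠ 0) → ∃ (τ : V → ℝ) (G : V → V), H1 τ ∧ H0 G ∧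
    (∀ f : V → ℝ, sph f = sph fun v => |(fderiv ℝ ξ v).det| / ‖ξ v‖ ^ dm * f (‖ξ v‖⁻¹ • ξ v)) ∧
    (∀ u, ‖u‖ = 1 → |τ u| ≤ ‖fderiv ℝ τ u‖ ∧ ∃ v, ‖v‖ = 1 ∧ u = ‖ξ v‖⁻¹ • ξ v) ∧
    ∀ v, ‖v‖ = 1 → 1 ≤ ‖ξ v‖ ∧ G (‖ξ v‖⁻¹ • ξ v) = F v ∧
      √(1 - τ (‖ξ v‖⁻¹ • ξ v) ^ 2) = ‖ξ v‖⁻¹ ∧ ∀ e,
        fderiv ℝ τ (‖ξ v‖⁻¹ • ξ v) (fderiv ℝ ξ v e) = fderiv ℝ t v e ∧
        fderiv ℝ G (‖ξ v‖⁻¹ • ξ v) (fderiv ℝ ξ v e) = ‖ξ v‖ • fderiv ℝ F v e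

/-- The data of a centred front in de Sitter space. -/
structure Dat (K k : ℝ) (t : V → ℝ) (ξ F : V → V) (A B : V → V →L[ℝ] V) : Prop where
  ds : DS t ξ
  hF : H0 F
  cA : ContinuousOn A {v | ‖v‖ = 1}
  cB : ContinuousOn B {v | ‖v‖ = 1}
  pt : ∀ v, ‖v‖ = 1 → (A v).det ≠ 0 ∧ ‖B v‖ ≤ 1 ∧ ‖F v‖ ≤ 3 / 2 ∧ ‖ξ v‖ ≤ K
  der : ∀ v e, ‖v‖ = 1 → ‖fderiv ℝ F v e‖ ≤ ‖B v (A v e)‖ ∧
    ‖fderiv ℝ ξ v e‖ ≤ K * ‖A v e‖ ∧ |fderiv ℝ t v e| ≤ K * ‖F v‖ * ‖A v e‖ ∧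
    ‖A v e‖ ^ 2 - k * ‖F v‖ * ‖A v e‖ * ‖B v (A v e)‖ ≤ ‖fderiv ℝ ξ v e‖ ^ 2 - fderiv ℝ t v e ^ 2
  cen : ∀ w : V, sph (fun v => |(A v).det| * Real.exp (-(hs (B v) / 4)) * ‖F v‖ ^ 2) ≤
    sph fun v => |(A v).det| * Real.exp (-(hs (B v) / 4)) * ‖F v - w‖ ^ 2

/-- The fibre inequality for abstract data. -/
def SGIB : Prop := ∀ K k μ : ℝ, 1 ≤ K → 0 ≤ k → k ≤ 1 / 12 →
  (1 + 4 * K ^ 2) * (32 * dm * k ^ 2 + 8 * K ^ 4) ≤ μ * dm → SKS (2 * K) (1 / (32 * K ^ 2)) μ →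
  ∀ t ξ F A B, Dat K k t ξ F A B →
    sph (fun v => |(A v).det| * Real.exp (-(hs (B v) / 4))) ≤ sph fun _ => 1

/-- The transplanted front with explicit constants. -/
def STRP (c K : ℝ) : Prop := ∀ δ, 0 ≤ δ → δ ≤ 1 → OnP δ fun m lg σ a =>
  ∀ o, (∀ v, ‖v‖ = 1 → a * ‖lg ((σ v).1, o)‖ ≤ 3 / 2) → ∃ t ξ, DS t ξ ∧ ∀ v, ‖v‖ = 1 →
    ‖ξ v‖ ≤ K ∧ ∀ e (β : ℝ), 0 ≤ β → β ≤ 1 → a * ‖m.A σ v e‖ ≤ β * ‖m.A' σ v e‖ →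
      ‖fderiv ℝ ξ v e‖ ≤ K * ‖m.A' σ v e‖ ∧
      |fderiv ℝ t v e| ≤ K * (a * ‖lg ((σ v).1, o)‖) * ‖m.A' σ v e‖ ∧
      (1 - c * δ * (a * ‖lg ((σ v).1, o)‖) * β) * ‖m.A' σ v e‖ ^ 2 ≤
        ‖fderiv ℝ ξ v e‖ ^ 2 - fderiv ℝ t v e ^ 2

/-- The centre of mass of the feet. -/
def SCEN : Prop := ∀ (m : MF) (lg : V × V → V) (σ : V → V × V) (ν : V → ℝ) (D : ℝ), m.OK → m.Jac →
  m.Had lg → m.Front σ → ContinuousOn ν {v | ‖v‖ = 1} → (∀ v, ‖v‖ = 1 → 0 < ν v) →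
  (∀ v v', ‖v‖ = 1 → ‖v'‖ = 1 → ‖lg ((σ v).1, (σ v').1)‖ ≤ D) →
  ∃ o, (∀ v, ‖v‖ = 1 → ‖lg (o, (σ v).1)‖ ≤ D) ∧ ∀ w : V,
    sph (fun v => ν v * ‖lg (o, (σ v).1)‖ ^ 2) ≤ sph fun v => ν v * ‖lg (o, (σ v).1) - w‖ ^ 2

/-- The logarithm does not increase lengths. -/
def SDER : Prop := ∀ (m : MF) (lg : V × V → V) (σ : V → V × V) (o : V), m.OK → m.Jac →
  m.Had lg → m.Front σ → H0 (fun v => lg (o, (σ v).1)) ∧ ∀ v e, v ≠ 0 →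
    ‖fderiv ℝ (fun v => lg (o, (σ v).1)) v e‖ ≤ ‖m.A σ v e‖

/-- The fibre inequality. -/
def SFI (δ : ℝ) : Prop := OnP δ fun m lg σ a =>
  (∀ v v', ‖v‖ = 1 → ‖v'‖ = 1 → a * ‖lg ((σ v).1, (σ v').1)‖ ≤ 3 / 2) →
  (∀ v, ‖v‖ = 1 → (m.A' σ v).det ≠ 0 ∧ a * ‖m.B σ v‖ ≤ 1) →
  sph (fun v => |(m.A' σ v).det| * Real.exp (-(hs (a • m.B σ v) / 4))) ≤ sph fun _ => 1

/-- From the geometry to the abstract data. -/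
def SGEO : Prop := ∀ c K δ : ℝ, 0 ≤ c → 0 ≤ δ → δ ≤ 1 → STRP c K →
  (∀ t ξ F A B, Dat K (c * δ) t ξ F A B →
    sph (fun v => |(A v).det| * Real.exp (-(hs (B v) / 4))) ≤ sph fun _ => 1) → SFI δ

/-- The Riccati inequality. -/
def SRIC : Prop := OnC fun m m' φ a _ => Sy m m' φ → ∀ z : V × V, ‖z.2‖ = 1 →
  ∃ d, HasDerivAt (fun t => m'.tr (fr φ (m.Z t z).1) (m.Z t z).2) d 0 ∧
    d ≤ 2 * Real.log |(m'.A' (fr φ z.1) z.2).det| - hs (a • m'.B (fr φ z.1) z.2)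

def STOP : Prop := ∀ δ, SFI δ → MainN δ

end

end Pool.Agent.MP_3ee8cb_gt.DF
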