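import Pool.Agent.MP_3ee8cb_gt.DF.Spec

/-! The centre of mass of the feet of a front. -/

namespace Pool.Agent.MP_3ee8cb_gt.DF

open DN Set MeasureTheory Metric
open scoped RealInnerProductSpace

variable [Dim]

namespace CEN

variable {X : Type} [TopologicalSpace X] [CompactSpace X] [MeasurableSpace X]
  [OpensMeasurableSpace X] {μ : Measure X} [IsFiniteMeasure μ] {m : MF} {lg : V × V → V}
  {y : X → V} {ν : X → ℝ}

omit [Dim] in
theorem int {f : X → ℝ} (h : Continuous f) : Integrable f μ :=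
  h.integrable_of_hasCompactSupport (HasCompactSupport.of_compactSpace _)

theorem sy (hj : m.Jac) (hl : m.Had lg) (p q : V) : ‖lg (q, p)‖ = ‖lg (p, q)‖ := by
  rw [hl.rev p q, norm_neg, hj.norm]

theorem exmin (ho : m.OK) (hj : m.Jac) (hl : m.Had lg) (hy : Continuous y) (hν : Continuous ν)
    (hp : ∀ a, 0 < ν a) (a₀ : X) {D : ℝ} (hD : ∀ a b, ‖lg (y a, y b)‖ ≤ D) :
    ∃ o, ∀ o', ∫ a, ν a * (‖lg (o, y a)‖ ^ 2 / 2) ∂μ ≤ ∫ a, ν a * (‖lg (o', y a)‖ ^ 2 / 2) ∂μ := by
  have hc := hl.c1.continuous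
  have hF : Continuous (Function.uncurry fun (o : V) (a : X) =>
      ν a * (‖lg (o, y a)‖ ^ 2 / 2)) := by
    unfold Function.uncurry
    fun_prop
  have hΦ := continuous_parametric_integral_of_continuous (μ := μ) hF isCompact_univ
  simp only [Measure.restrict_univ] at hΦ
  have hZ : Continuous fun b : V => (m.Z 1 (y a₀, b)).1 :=
    (ho.cZ.continuous.comp (by fun_prop : Continuous fun b : V => ((1 : ℝ), y a₀, b))).fst
  have hK := (isCompact_closedBall (0 : V) (2 * D)).image hZ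
  have h0 : 0 ≤ D := (norm_nonneg _).trans (hD a₀ a₀)
  have hin : ∀ p, ‖lg (y a₀, p)‖ ≤ 2 * D →
      p ∈ (fun b : V => (m.Z 1 (y a₀, b)).1) '' closedBall 0 (2 * D) := fun p h =>
    ⟨lg (y a₀, p), by simpa using h, hl.ex _ _⟩
  have h1 := hin (y a₀) (by linarith [hD a₀ a₀])
  obtain ⟨o, -, h⟩ := hK.exists_isMinOn ⟨_, h1⟩ hΦ.continuousOn
  refine ⟨o, fun o' => ?_⟩
  by_cases h2 : ‖lg (y a₀, o')‖ ≤ 2 * D
  · exact h (hin _ h2)
  · refine le_trans (h h1) (integral_mono (int (by fun_prop)) (int (by fun_prop)) fun a => ?_)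
    have h3 := hl.tri (y a₀) (y a) o'
    have h4 := sy hj hl (y a) o'
    have h5 := hD a₀ a
    have h6 : ‖lg (y a₀, y a)‖ ≤ ‖lg (o', y a)‖ := by linarith
    have h7 := (hp a).le
    beta_reduce
    gcongr

theorem crit (ho : m.OK) (hl : m.Had lg) (hy : Continuous y) (hν : Continuous ν) {o : V}
    (h : ∀ o', ∫ a, ν a * (‖lg (o, y a)‖ ^ 2 / 2) ∂μ ≤ ∫ a, ν a * (‖lg (o', y a)‖ ^ 2 / 2) ∂μ)
    (w : V) : ∫ a, ν a * ⟪lg (o, y a), w⟫ ∂μ = 0 := by
  have hc := hl.c1.continuous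
  have hS := ho.cS.continuous
  obtain ⟨u, hu⟩ : ∃ u, m.S o u = w := ⟨_, ho.SR o w⟩
  let G : ℝ → X → ℝ := fun t a => ν a * -⟪lg (o + t • u, y a), m.S (o + t • u) u⟫
  have hG : Continuous fun q : ℝ × X => G q.1 q.2 := by
    simp only [G]
    fun_prop
  obtain ⟨C, hC⟩ := ((isCompact_Icc (a := (-1 : ℝ)) (b := 1)).prod
    (isCompact_univ (X := X))).exists_bound_of_continuousOn hG.continuousOn
  have hd : ∀ a t, HasDerivAt (fun t : ℝ => ν a * (‖lg (o + t • u, y a)‖ ^ 2 / 2)) (G t a) t := by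
    intro a t
    have h1 : HasDerivAt (fun t : ℝ => (o + t • u, y a)) (u, 0) t := by
      refine HasDerivAt.prodMk ?_ (hasDerivAt_const _ _)
      simpa using ((hasDerivAt_id t).smul_const u).const_add o
    have h2 : DifferentiableAt ℝ (fun q => ‖lg q‖ ^ 2 / 2) (o + t • u, y a) :=
      ((hl.c1.norm_sq ℝ).div_const 2).differentiable one_ne_zero _
    have h3 := h2.hasFDerivAt.comp_hasDerivAt t h1
    rw [hl.grad] at h3
    simp only [map_zero, inner_zero_right, sub_zero] at h3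
    exact h3.const_mul (ν a)
  have h4 := (hasDerivAt_integral_of_dominated_loc_of_deriv_le (μ := μ) (x₀ := (0 : ℝ))
    (F := fun t a => ν a * (‖lg (o + t • u, y a)‖ ^ 2 / 2)) (F' := G) (bound := fun _ => C)
    (Icc_mem_nhds (by norm_num : (-1 : ℝ) < 0) one_pos)
    (.of_forall fun t => (int (by fun_prop)).1) (int (by fun_prop))
    (int (hG.comp (by fun_prop : Continuous fun a : X => ((0 : ℝ), a)))).1
    (.of_forall fun a t ht => hC (t, a) ⟨ht, trivial⟩) (integrable_const _)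
    (.of_forall fun a t _ => hd a t)).2
  have h5 : IsLocalMin (fun t : ℝ => ∫ a, ν a * (‖lg (o + t • u, y a)‖ ^ 2 / 2) ∂μ) 0 :=
    .of_forall fun t => by simpa using h (o + t • u)
  have h6 := h5.hasDerivAt_eq_zero h4
  simp only [G, zero_smul, add_zero, hu, mul_neg, integral_neg, neg_eq_zero] at h6
  exact h6

theorem main (ho : m.OK) (hj : m.Jac) (hl : m.Had lg) (hy : Continuous y) (hν : Continuous ν)
    (hp : ∀ a, 0 < ν a) (hμ : μ ≠ 0) (a₀ : X) {D : ℝ} (hD : ∀ a b, ‖lg (y a, y b)‖ ≤ D) :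
    ∃ o, (∀ a, ‖lg (o, y a)‖ ≤ D) ∧ ∀ w : V,
      ∫ a, ν a * ‖lg (o, y a)‖ ^ 2 ∂μ ≤ ∫ a, ν a * ‖lg (o, y a) - w‖ ^ 2 ∂μ := by
  have hc := hl.c1.continuous
  obtain ⟨o, h⟩ := exmin (μ := μ) ho hj hl hy hν hp a₀ hD
  have h1 := crit ho hl hy hν h
  have hI : 0 < ∫ a, ν a ∂μ := by
    rw [integral_pos_iff_support_of_nonneg (fun a => (hp a).le) (int hν)]
    have : Function.support ν = univ := eq_univ_of_forall fun a => (hp a).ne'
    rw [this]
    exact Measure.measure_univ_pos.mpr hμ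
  have h0 : 0 ≤ D := (norm_nonneg _).trans (hD a₀ a₀)
  refine ⟨o, fun b => ?_, fun w => ?_⟩
  · obtain ⟨w, hw⟩ : ∃ w, w = lg (o, y b) := ⟨_, rfl⟩
    have h2 : ∫ a, (‖w‖ ^ 2 * ν a - ν a * ⟪lg (o, y a), w⟫) ∂μ ≤ ∫ a, D * ‖w‖ * ν a ∂μ := by
      refine integral_mono (int (by fun_prop)) (int (by fun_prop)) fun a => ?_
      have h3 := hl.hinge o (lg (o, y b)) (lg (o, y a))
      rw [hl.ex, hl.ex, ← hw] at h3
      have h4 := real_inner_le_norm (w - lg (o, y a)) w
      rw [inner_sub_left, real_inner_self_eq_norm_sq] at h4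
      have h5 := mul_le_mul_of_nonneg_right (h3.trans (hD b a)) (norm_nonneg w)
      have h6 := mul_le_mul_of_nonneg_right (h4.trans h5) (hp a).le
      beta_reduce
      linarith
    rw [integral_sub (int (by fun_prop)) (int (by fun_prop)), h1, integral_const_mul,
      integral_const_mul, sub_zero] at h2
    have h7 := le_of_mul_le_mul_right h2 hI
    rw [← hw]
    by_contra h8
    have h9 := not_le.mp h8
    nlinarith
  · have h2 : ∫ a, (ν a * ‖lg (o, y a)‖ ^ 2 - 2 * (ν a * ⟪lg (o, y a), w⟫)) ∂μ ≤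
        ∫ a, ν a * ‖lg (o, y a) - w‖ ^ 2 ∂μ := by
      refine integral_mono (int (by fun_prop)) (int (by fun_prop)) fun a => ?_
      have h3 := mul_nonneg (hp a).le (sq_nonneg ‖w‖)
      beta_reduce
      rw [norm_sub_sq_real]
      linarith
    rwa [integral_sub (int (by fun_prop)) (int (by fun_prop)), integral_const_mul, h1, mul_zero,
      sub_zero] at h2

end CEN

theorem sCEN : SCEN := by
  intro m lg σ ν D ho hj hl hf hν hp hD
  have hn : ∀ a : sphere (0 : V) 1, ‖a.1‖ = 1 := fun a => by simp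
  have hy : Continuous fun a : sphere (0 : V) 1 => (σ a).1 :=
    (hf.c1.continuousOn.comp_continuous continuous_subtype_val fun a h => by
      have := hn a
      rw [h, norm_zero] at this
      exact zero_ne_one this).fst
  obtain ⟨o, h1, h2⟩ := CEN.main (μ := (volume : Measure V).toSphere) ho hj hl hy
    (hν.comp_continuous continuous_subtype_val hn) (fun a => hp a (hn a))
    (Measure.toSphere_ne_zero _) ⟨EuclideanSpace.single 0 1, by simp⟩
    (fun a b => hD a b (hn a) (hn b))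
  exact ⟨o, fun v hv => h1 ⟨v, by simpa using hv⟩, h2⟩

end Pool.Agent.MP_3ee8cb_gt.DF
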