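import Pool.Agent.MP_3ee8cb_gt.DF.Spec

/-! The extension of a homogeneous map to the whole space. -/

namespace Pool.Agent.MP_3ee8cb_gt.DF

open DN Set Filter Topology
open scoped RealInnerProductSpace

noncomputable section

variable [Dim]

namespace EXT

lemma sq_pos (x : V) : 0 < √(1 + ‖x‖ ^ 2) := Real.sqrt_pos.2 (by positivity)

lemma one_le (x : V) : 1 ≤ √(1 + ‖x‖ ^ 2) :=
  Real.one_le_sqrt.2 (le_add_of_nonneg_right (by positivity))

lemma norm_le (x : V) : ‖x‖ ≤ √(1 + ‖x‖ ^ 2) :=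
  Real.le_sqrt_of_sq_le (le_add_of_nonneg_left zero_le_one)

lemma ps_nonneg (x : V) : 0 ≤ ps x := div_nonneg (by positivity) (sq_pos x).le

lemma ps_le (x : V) : ps x ≤ ‖x‖ := by
  rw [ps, div_le_iff₀ (sq_pos x), sq]
  exact mul_le_mul_of_nonneg_left (by simpa [sq] using norm_le x) (norm_nonneg x)

lemma ps_le_sq (x : V) : ps x ≤ ‖x‖ ^ 2 := div_le_self (by positivity) (one_le x)

lemma ps_c1 : ContDiff ℝ 1 (ps : V → ℝ) :=
  (contDiff_norm_sq ℝ).div ((contDiff_const.add (contDiff_norm_sq ℝ)).sqrt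
    fun x => by positivity) fun x => (sq_pos x).ne'

lemma ps_der (x : V) : ∃ c : ℝ, 0 ≤ c ∧ c * √(1 + ‖x‖ ^ 2) ≤ 1 ∧
    HasFDerivAt ps (c • (2 • innerSL ℝ x : V →L[ℝ] ℝ)) x := by
  have h1 : HasFDerivAt (fun y : V => ‖y‖ ^ 2) (2 • innerSL ℝ x : V →L[ℝ] ℝ) x :=
    (hasStrictFDerivAt_norm_sq x).hasFDerivAt
  set q := ‖x‖ ^ 2 with hq
  have hq0 : 0 ≤ q := by positivity
  have hs := sq_pos x
  rw [← hq] at hs
  have hss : √(1 + q) ^ 2 = 1 + q := Real.sq_sqrt (by positivity)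
  have h2 : HasDerivAt (fun r : ℝ => √(1 + r)) (1 / (2 * √(1 + q))) q := by
    simpa using ((hasDerivAt_id q).const_add 1).sqrt (by simp only [id]; positivity)
  have h3 := (hasDerivAt_id q).div h2 hs.ne'
  have h4 := HasDerivAt.comp_hasFDerivAt (h₂ := id / fun r : ℝ => √(1 + r))
    (f := fun y : V => ‖y‖ ^ 2) x h3 h1
  refine ⟨_, ?_, ?_, h4⟩
  · refine div_nonneg ?_ (by positivity)
    simp only [id, one_mul, sub_nonneg]
    rw [mul_one_div, div_le_iff₀ (by positivity)]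
    nlinarith
  · simp only [id, one_mul]
    rw [div_mul_eq_mul_div, div_le_one (by positivity), sq]
    refine mul_le_mul_of_nonneg_right ?_ hs.le
    have : 0 ≤ q * (1 / (2 * √(1 + q))) := by positivity
    linarith

lemma ps_bd (x : V) : ‖fderiv ℝ ps x‖ ≤ 2 ∧ ‖fderiv ℝ ps x‖ ≤ 2 * ‖x‖ := by
  obtain ⟨c, h0, h1, h2⟩ := ps_der x
  have h3 : ‖fderiv ℝ ps x‖ = c * (2 * ‖x‖) := by
    rw [h2.fderiv, norm_smul, Real.norm_of_nonneg h0, ← Nat.cast_smul_eq_nsmul ℝ, norm_smul,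
      innerSL_apply_norm]
    simp
  have h4 := mul_le_mul_of_nonneg_left (norm_le x) h0
  have h5 := mul_le_mul_of_nonneg_left (one_le x) h0
  have h6 := norm_nonneg x
  rw [h3]
  constructor <;> nlinarith

lemma unit {x : V} (hx : x ≠ 0) : ‖‖x‖⁻¹ • x‖ = 1 := by
  rw [norm_smul, norm_inv, norm_norm, inv_mul_cancel₀ (norm_ne_zero_iff.2 hx)]

lemma diff {F : V → V} (h : H0 F) {x : V} (hx : x ≠ 0) : ContDiffAt ℝ 1 F x :=
  h.c1.contDiffAt (isOpen_ne.mem_nhds hx)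

lemma val {F : V → V} (h : H0 F) {x : V} (hx : x ≠ 0) : F x = F (‖x‖⁻¹ • x) :=
  (h.hom _ x (inv_ne_zero (norm_ne_zero_iff.2 hx)) hx).symm

lemma der {F : V → V} (h : H0 F) {x : V} (hx : x ≠ 0) :
    fderiv ℝ F x = ‖x‖⁻¹ • fderiv ℝ F (‖x‖⁻¹ • x) := by
  have hr : ‖x‖⁻¹ ≠ 0 := inv_ne_zero (norm_ne_zero_iff.2 hx)
  have h1 := ((diff h (smul_ne_zero hr hx)).differentiableAt one_ne_zero).hasFDerivAt
  have h2 : HasFDerivAt (fun y : V => ‖x‖⁻¹ • y) (‖x‖⁻¹ • ContinuousLinearMap.id ℝ V) x :=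
    (hasFDerivAt_id (𝕜 := ℝ) x).const_smul ‖x‖⁻¹
  have h3 : F =ᶠ[𝓝 x] F ∘ fun y : V => ‖x‖⁻¹ • y := by
    filter_upwards [isOpen_ne.mem_nhds hx] with y hy
    exact (h.hom _ y hr hy).symm
  rw [((h1.comp x h2).congr_of_eventuallyEq h3).fderiv]
  ext1 e
  simp

lemma off {F : V → V} (h : H0 F) (w : V) {x : V} (hx : x ≠ 0) :
    fderiv ℝ (fun x => ps x • (F x - w)) x =
      (fderiv ℝ ps x).smulRight (F (‖x‖⁻¹ • x) - w) +
        (ps x * ‖x‖⁻¹) • fderiv ℝ F (‖x‖⁻¹ • x) := by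
  have h1 := (ps_c1.differentiable one_ne_zero x).hasFDerivAt
  have h2 := (((diff h hx).differentiableAt one_ne_zero).hasFDerivAt).sub_const w
  have h3 : HasFDerivAt (fun x => ps x • (F x - w)) _ x := h1.smul h2
  rw [h3.fderiv, ← val h hx, mul_smul, ← der h hx, add_comm]

end EXT

open EXT in
theorem ext_of (kh : KH) : SEXT := by
  intro F L w h hw hF
  have hb : ∀ x : V, x ≠ 0 → ‖F (‖x‖⁻¹ • x) - w‖ ≤ 3 := fun x hx =>
    (norm_sub_le _ _).trans (by linarith [(hF _ (unit hx)).1])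
  have hc : ∀ x : V, x ≠ 0 → 0 ≤ ps x * ‖x‖⁻¹ ∧ ps x * ‖x‖⁻¹ ≤ 1 ∧ ps x * ‖x‖⁻¹ ≤ ‖x‖ := by
    intro x hx
    have hp := norm_pos_iff.2 hx
    refine ⟨mul_nonneg (ps_nonneg x) (by positivity), ?_, ?_⟩
    · rw [← div_eq_mul_inv, div_le_one hp]; exact ps_le x
    · rw [← div_eq_mul_inv, div_le_iff₀ hp, ← sq]; exact ps_le_sq x
  have hn : ∀ x : V, x ≠ 0 → ‖fderiv ℝ (fun x => ps x • (F x - w)) x‖ ≤ L + 6 ∧
      ‖fderiv ℝ (fun x => ps x • (F x - w)) x‖ ≤ (L + 6) * ‖x‖ := by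
    intro x hx
    have h1 := hb x hx
    obtain ⟨h2, h3, h4⟩ := hc x hx
    obtain ⟨h5, h6⟩ := ps_bd x
    have h7 := (hF _ (unit hx)).2
    have h8 : ‖fderiv ℝ (fun x => ps x • (F x - w)) x‖ ≤
        ‖fderiv ℝ ps x‖ * 3 + ps x * ‖x‖⁻¹ * L := by
      rw [off h w hx]
      refine (norm_add_le _ _).trans (add_le_add ?_ ?_)
      · rw [ContinuousLinearMap.norm_smulRight_apply]
        exact mul_le_mul_of_nonneg_left h1 (norm_nonneg _)
      · rw [norm_smul, Real.norm_of_nonneg h2]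
        exact mul_le_mul_of_nonneg_left h7 h2
    have hL : 0 ≤ L := (norm_nonneg _).trans h7
    constructor <;> nlinarith
  have h0 : HasFDerivAt (fun x => ps x • (F x - w)) (0 : V →L[ℝ] V) 0 := by
    rw [hasFDerivAt_iff_isLittleO_nhds_zero]
    refine Asymptotics.IsBigO.trans_isLittleO (g := fun x : V => ‖x‖ ^ 2) ?_
      (Asymptotics.isLittleO_norm_pow_id one_lt_two)
    refine Asymptotics.IsBigO.of_bound 3 (Eventually.of_forall fun x => ?_)
    have hz : ps (0 : V) = 0 := by simp [ps]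
    by_cases hx : x = 0
    · simp [hx]
    · simp only [zero_add, hz, zero_smul, sub_zero, zero_apply]
      rw [norm_smul, Real.norm_of_nonneg (ps_nonneg x), val h hx, Real.norm_of_nonneg (sq_nonneg _),
        mul_comm]
      exact mul_le_mul (hb x hx) (ps_le_sq x) (ps_nonneg x) (by norm_num)
  have hat : ∀ x : V, x ≠ 0 → ContDiffAt ℝ 1 (fun x => ps x • (F x - w)) x := fun x hx =>
    ps_c1.contDiffAt.smul ((diff h hx).sub contDiffAt_const)
  refine ⟨⟨?_, fun x => ?_⟩, fun x hx => ?_⟩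
  · rw [contDiff_one_iff_fderiv]
    refine ⟨fun x => ?_, continuous_iff_continuousAt.2 fun x => ?_⟩
    · by_cases hx : x = 0
      · rw [hx]; exact h0.differentiableAt
      · exact (hat x hx).differentiableAt one_ne_zero
    · by_cases hx : x = 0
      · rw [hx, ContinuousAt, h0.fderiv]
        refine squeeze_zero_norm (a := fun x : V => (L + 6) * ‖x‖) (fun y => ?_) ?_
        · by_cases hy : y = 0
          · rw [hy, h0.fderiv]; simp
          · exact (hn y hy).2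
        · have : Continuous fun x : V => (L + 6) * ‖x‖ := by fun_prop
          simpa using this.tendsto 0
      · exact ((hat x hx).fderiv_right (m := 0) (by norm_num)).continuousAt
  · by_cases hx : x = 0
    · have hd : 0 < dm := Nat.succ_pos _
      have hu : ‖(EuclideanSpace.single ⟨0, hd⟩ 1 : V)‖ = 1 := by simp
      have hL : 0 ≤ L := (norm_nonneg _).trans (hF _ hu).2
      rw [hx, h0.fderiv, norm_zero]
      linarith
    · exact (hn x hx).1
  · rw [off h w hx]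
    refine (kh.add _ _).trans ?_
    rw [kh.one, kh.smul]
    obtain ⟨h2, h3, -⟩ := hc x hx
    have h5 := (ps_bd x).1
    have h6 : ‖fderiv ℝ ps x‖ ^ 2 ≤ 4 := by nlinarith [norm_nonneg (fderiv ℝ ps x)]
    have h7 : (ps x * ‖x‖⁻¹) ^ 2 ≤ 1 := by nlinarith
    have h8 := mul_le_mul_of_nonneg_right h6 (sq_nonneg ‖F (‖x‖⁻¹ • x) - w‖)
    have h9 := mul_le_mul_of_nonneg_right h7 (kh.nonneg (fderiv ℝ F (‖x‖⁻¹ • x)))
    linarith

end

end Pool.Agent.MP_3ee8cb_gt.DF
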