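import Pool.Agent.MP_3ee8cb_gt.DF.Spec

/-! The heat flow: regularity and the semigroup law. -/

namespace Pool.Agent.MP_3ee8cb_gt.DF

open DN Set MeasureTheory ProbabilityTheory

variable [Dim]

namespace HEAT

theorem caff (z : V) (c : ℝ) : Continuous fun x : V => z + c • x := by fun_prop

theorem integ (ke : KE) {W : Type} [NormedAddCommGroup W] {f : V → W} {C : ℝ} (hf : Continuous f)
    (hb : ∀ x, ‖f x‖ ≤ C * (1 + ‖x‖)) (z : V) (c : ℝ) :
    Integrable (fun x => f (z + c • x)) ga := by
  refine ke.grow (|C| * (1 + ‖z‖ + |c|)) (hf.comp (caff z c)).aestronglyMeasurable fun x => ?_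
  have h1 : ‖z + c • x‖ ≤ ‖z‖ + |c| * ‖x‖ := by
    simpa [norm_smul] using norm_add_le z (c • x)
  have h2 : ‖x‖ ≤ 1 + ‖x‖ ^ 2 := by nlinarith [sq_nonneg (‖x‖ - 1)]
  have h3 : 1 + ‖z + c • x‖ ≤ (1 + ‖z‖ + |c|) * (1 + ‖x‖ ^ 2) := by
    have := mul_le_mul_of_nonneg_left h2 (abs_nonneg c)
    have := mul_nonneg (add_nonneg zero_le_one (norm_nonneg z)) (sq_nonneg ‖x‖)
    nlinarith
  calc ‖f (z + c • x)‖ ≤ C * (1 + ‖z + c • x‖) := hb _
    _ ≤ |C| * (1 + ‖z + c • x‖) := mul_le_mul_of_nonneg_right (le_abs_self C) (by positivity)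
    _ ≤ |C| * ((1 + ‖z‖ + |c|) * (1 + ‖x‖ ^ 2)) := mul_le_mul_of_nonneg_left h3 (abs_nonneg C)
    _ = _ := by ring

theorem der (ke : KE) (H : V → V) (L t : ℝ) (hH : Lip H L) :
    Lip (PP t H) L ∧ ∀ z, fderiv ℝ (PP t H) z = PP t (fderiv ℝ H) z := by
  obtain ⟨hL, -, -, -, hg⟩ := ke.lip hH
  obtain ⟨hd, hc⟩ := contDiff_one_iff_fderiv.1 hH.c1
  have hb : ∀ x, ‖H x‖ ≤ (‖H 0‖ + L) * (1 + ‖x‖) := fun x => by
    have := mul_nonneg (norm_nonneg (H 0)) (norm_nonneg x)
    nlinarith [hg x]
  have hm : ∀ z, AEStronglyMeasurable (fun x => fderiv ℝ H (z + t • x)) ga := fun z =>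
    (hc.comp (caff z t)).aestronglyMeasurable
  have key : ∀ z, HasFDerivAt (PP t H) (PP t (fderiv ℝ H) z) z := fun z => by
    refine hasFDerivAt_integral_of_dominated_of_fderiv_le (μ := ga)
      (F := fun y x => H (y + t • x)) (F' := fun y x => fderiv ℝ H (y + t • x))
      (bound := fun _ => L) Filter.univ_mem
      (Filter.Eventually.of_forall fun y =>
        (hH.c1.continuous.comp (caff y t)).aestronglyMeasurable)
      (integ ke hH.c1.continuous hb z t) (hm z)
      (Filter.Eventually.of_forall fun x y _ => hH.bd _) (integrable_const L)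
      (Filter.Eventually.of_forall fun x y _ => ?_)
    exact (hasFDerivAt_comp_add_right (t • x)).2 (hd (y + t • x)).hasFDerivAt
  have e : fderiv ℝ (PP t H) = PP t (fderiv ℝ H) := funext fun z => (key z).fderiv
  refine ⟨⟨contDiff_one_iff_fderiv.2 ⟨fun z => (key z).differentiableAt, ?_⟩, fun z => ?_⟩,
    fun z => (key z).fderiv⟩
  · rw [e]
    exact continuous_of_dominated (μ := ga) (F := fun y x => fderiv ℝ H (y + t • x))
      (bound := fun _ => L) hm (fun y => Filter.Eventually.of_forall fun x => hH.bd _)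
      (integrable_const L)
      (Filter.Eventually.of_forall fun x => hc.comp (continuous_id.add continuous_const))
  · rw [e]
    have := norm_integral_le_of_norm_le_const (μ := ga)
      (f := fun x => fderiv ℝ H (z + t • x)) (C := L)
      (Filter.Eventually.of_forall fun x => hH.bd _)
    simpa [PP] using this

theorem cont (g : V → ℝ) (ε t : ℝ) (hg : Continuous g) (hb : ∀ x, ε ≤ g x ∧ g x ≤ 1)
    (hε : 0 ≤ ε) : Continuous (PP t g) ∧ ∀ z, ε ≤ PP t g z ∧ PP t g z ≤ 1 := by
  have hn : ∀ x, ‖g x‖ ≤ 1 := fun x => by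
    rw [Real.norm_eq_abs, abs_of_nonneg (hε.trans (hb x).1)]
    exact (hb x).2
  have hm : ∀ z, AEStronglyMeasurable (fun x => g (z + t • x)) ga := fun z =>
    (hg.comp (caff z t)).aestronglyMeasurable
  refine ⟨continuous_of_dominated (μ := ga) (F := fun y x => g (y + t • x))
      (bound := fun _ => 1) hm (fun y => Filter.Eventually.of_forall fun x => hn _)
      (integrable_const 1)
      (Filter.Eventually.of_forall fun x => hg.comp (continuous_id.add continuous_const)),
    fun z => ?_⟩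
  have hi : Integrable (fun x => g (z + t • x)) ga :=
    (integrable_const (1 : ℝ)).mono' (hm z) (Filter.Eventually.of_forall fun x => hn _)
  constructor
  · have := integral_mono (integrable_const ε) hi fun x => (hb (z + t • x)).1
    simpa [PP] using this
  · have := integral_mono hi (integrable_const (1 : ℝ)) fun x => (hb (z + t • x)).2
    simpa [PP] using this

theorem m2 (a b : ℝ) : Measurable fun p : V × V => a • p.1 + b • p.2 :=
  (by fun_prop : Continuous fun p : V × V => a • p.1 + b • p.2).measurable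

theorem m1 (c : ℝ) : Measurable fun x : V => c • x :=
  (by fun_prop : Continuous fun x : V => c • x).measurable

theorem semi (ke : KE) (sem : SSEM) (W : Type) [NormedAddCommGroup W] [NormedSpace ℝ W]
    (f : V → W) (C a b c : ℝ) (hf : Continuous f) (hb : ∀ x, ‖f x‖ ≤ C * (1 + ‖x‖))
    (h : c ^ 2 = a ^ 2 + b ^ 2) : PP a (PP b f) = PP c f := by
  funext z
  have hc : Continuous fun y : V => f (z + y) := hf.comp (continuous_const.add continuous_id)
  have h1 : Integrable (fun y : V => f (z + y)) (ga.map fun x : V => c • x) :=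
    (integrable_map_measure hc.aestronglyMeasurable (m1 c).aemeasurable).2 (integ ke hf hb z c)
  have h2 : Integrable (fun p : V × V => f (z + (a • p.1 + b • p.2))) (ga.prod ga) := by
    rw [← sem a b c h] at h1
    exact (integrable_map_measure hc.aestronglyMeasurable (m2 a b).aemeasurable).1 h1
  have e1 : PP c f z = ∫ y, f (z + y) ∂(ga.map fun x : V => c • x) :=
    (integral_map (m1 c).aemeasurable hc.aestronglyMeasurable).symm
  rw [e1, ← sem a b c h, integral_map (m2 a b).aemeasurable hc.aestronglyMeasurable,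
    integral_prod _ h2]
  simp only [PP, add_assoc]

theorem lsemi (sem : SSEM) (f : V → ENNReal) (a b c : ℝ) (z : V) (hf : Measurable f)
    (h : c ^ 2 = a ^ 2 + b ^ 2) :
    ∫⁻ x, ∫⁻ y, f (z + a • x + b • y) ∂ga ∂ga = ∫⁻ x, f (z + c • x) ∂ga := by
  have hc : Measurable fun y : V => f (z + y) := hf.comp (measurable_const_add z)
  have e1 : ∫⁻ x, f (z + c • x) ∂ga = ∫⁻ y, f (z + y) ∂(ga.map fun x : V => c • x) :=
    (lintegral_map hc (m1 c)).symm
  have h2 : Measurable fun p : V × V => f (z + (a • p.1 + b • p.2)) := hc.comp (m2 a b)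
  rw [e1, ← sem a b c h, lintegral_map hc (m2 a b), lintegral_prod _ h2.aemeasurable]
  simp only [add_assoc]

end HEAT

theorem heat_of (ke : KE) (sem : SSEM) : SHEAT :=
  ⟨HEAT.der ke, HEAT.cont, fun W _ _ _ => HEAT.semi ke sem W,
    fun f a b c z => HEAT.lsemi sem f a b c z⟩

end Pool.Agent.MP_3ee8cb_gt.DF
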