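import Pool.Agent.MP_3ee8cb_gt.DF.Spec

/-! Facts on exponential moments. -/

namespace Pool.Agent.MP_3ee8cb_gt.DF

open DN Set MeasureTheory ProbabilityTheory
open scoped RealInnerProductSpace

variable [Dim]

namespace KEx

theorem int {f : V → ℝ} {α : ℝ} (h : EB f α) :
    Integrable (fun x => Real.exp (f x)) ga ∧ ∫ x, Real.exp (f x) ∂ga ≤ Real.exp α := by
  have hm : AEStronglyMeasurable (fun x => Real.exp (f x)) ga := h.1.exp.aestronglyMeasurable
  have h0 : 0 ≤ᵐ[ga] fun x => Real.exp (f x) := .of_forall fun x => (Real.exp_pos _).le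
  refine ⟨⟨hm, (hasFiniteIntegral_iff_ofReal h0).2 (h.2.trans_lt ENNReal.ofReal_lt_top)⟩, ?_⟩
  rw [integral_eq_lintegral_of_nonneg_ae h0 hm]
  exact ENNReal.toReal_le_of_le_ofReal (Real.exp_pos _).le h.2

theorem of_int {f : V → ℝ} {α : ℝ} (hm : AEMeasurable f ga)
    (hi : Integrable (fun x => Real.exp (f x)) ga) (h : ∫ x, Real.exp (f x) ∂ga ≤ Real.exp α) :
    EB f α := by
  refine ⟨hm, ?_⟩
  rw [← ofReal_integral_eq_lintegral_ofReal hi (.of_forall fun x => (Real.exp_pos _).le)]
  exact ENNReal.ofReal_le_ofReal h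

theorem shift {f : V → ℝ} {α : ℝ} (c : ℝ) (h : EB f α) : EB (fun x => f x + c) (α + c) := by
  obtain ⟨h1, h2⟩ := int h
  refine of_int (h.1.add_const c) ?_ ?_
  · simp only [Real.exp_add]
    exact h1.mul_const _
  · simp only [Real.exp_add]
    rw [integral_mul_const]
    exact mul_le_mul_of_nonneg_right h2 (Real.exp_pos _).le

omit [Dim] in
theorem cvx (θ η a b : ℝ) (h1 : 0 ≤ θ) (h2 : 0 ≤ η) (h3 : θ + η ≤ 1) :
    Real.exp (θ * a + η * b) ≤ θ * Real.exp a + η * Real.exp b + (1 - θ - η) := by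
  obtain ⟨m, hm⟩ : ∃ m, m = θ * a + η * b := ⟨_, rfl⟩
  have key : ∀ y, Real.exp m * (y - m + 1) ≤ Real.exp y := fun y => by
    have := mul_le_mul_of_nonneg_left (Real.add_one_le_exp (y - m)) (Real.exp_pos m).le
    rwa [← Real.exp_add, add_sub_cancel] at this
  have k1 := mul_le_mul_of_nonneg_left (key a) h1
  have k2 := mul_le_mul_of_nonneg_left (key b) h2
  have k3 := mul_le_mul_of_nonneg_left (key 0) (show 0 ≤ 1 - θ - η by linarith)
  rw [Real.exp_zero] at k3
  rw [← hm]
  have e : θ * (Real.exp m * (a - m + 1)) + η * (Real.exp m * (b - m + 1)) +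
      (1 - θ - η) * (Real.exp m * (0 - m + 1)) = Real.exp m := by
    linear_combination (-Real.exp m) * hm
  linarith

theorem comb {f g : V → ℝ} {α β : ℝ} (θ η : ℝ) (hf : EB f α) (hg : EB g β) (h1 : 0 ≤ θ)
    (h2 : 0 ≤ η) (h3 : θ + η ≤ 1) : EB (fun x => θ * f x + η * g x) (θ * α + η * β) := by
  have f0 := shift (-α) hf
  have g0 := shift (-β) hg
  rw [add_neg_cancel] at f0 g0
  obtain ⟨f1, f2⟩ := int f0
  obtain ⟨g1, g2⟩ := int g0
  rw [Real.exp_zero] at f2 g2
  have hm : AEMeasurable (fun x => θ * (f x + -α) + η * (g x + -β)) ga :=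
    (f0.1.const_mul θ).add (g0.1.const_mul η)
  have i1 : Integrable (fun x => θ * Real.exp (f x + -α) + η * Real.exp (g x + -β)) ga :=
    (f1.const_mul θ).add (g1.const_mul η)
  have i2 : Integrable (fun x => θ * Real.exp (f x + -α) + η * Real.exp (g x + -β) +
      (1 - θ - η)) ga := i1.add (integrable_const _)
  have i3 : Integrable (fun x => Real.exp (θ * (f x + -α) + η * (g x + -β))) ga :=
    i2.mono' hm.exp.aestronglyMeasurable (.of_forall fun x => by
      rw [Real.norm_of_nonneg (Real.exp_pos _).le]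
      exact cvx θ η _ _ h1 h2 h3)
  have k : EB (fun x => θ * (f x + -α) + η * (g x + -β)) 0 := by
    refine of_int hm i3 ((integral_mono i3 i2 fun x => cvx θ η _ _ h1 h2 h3).trans ?_)
    rw [integral_add i1 (integrable_const _), integral_add (f1.const_mul θ) (g1.const_mul η),
      integral_const_mul, integral_const_mul, integral_const, Real.exp_zero]
    have a1 := mul_le_mul_of_nonneg_left f2 h1
    have a2 := mul_le_mul_of_nonneg_left g2 h2
    simp only [probReal_univ, one_smul]
    linarith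
  have k2 := shift (θ * α + η * β) k
  rw [zero_add] at k2
  have e : (fun x => θ * (f x + -α) + η * (g x + -β) + (θ * α + η * β)) =
      fun x => θ * f x + η * g x := funext fun x => by ring
  rwa [e] at k2

theorem jensen {f : V → ℝ} {α : ℝ} (h : EB f α) (hi : Integrable f ga) : ∫ x, f x ∂ga ≤ α := by
  have f0 := shift (-α) h
  rw [add_neg_cancel] at f0
  obtain ⟨f1, f2⟩ := int f0
  have i1 : Integrable (fun x => f x + (-α + 1)) ga := hi.add (integrable_const _)
  have k := integral_mono i1 f1 fun x => by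
    have := Real.add_one_le_exp (f x + -α)
    rwa [add_assoc] at this
  rw [integral_add hi (integrable_const _), integral_const] at k
  simp only [probReal_univ, one_smul, Real.exp_zero] at k f2
  linarith

theorem grow {W : Type} [NormedAddCommGroup W] {G : V → W} (C : ℝ)
    (hm : AEStronglyMeasurable G ga) (h : ∀ x, ‖G x‖ ≤ C * (1 + ‖x‖ ^ 2)) : Integrable G ga := by
  have h2 : Integrable (fun x : V => ‖x‖ ^ 2) ga :=
    (IsGaussian.memLp_id ga 2 (by simp)).integrable_norm_pow (by simp)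
  exact (((integrable_const (1 : ℝ)).add h2).const_mul C).mono' hm (.of_forall h)

theorem lip {G : V → V} {L : ℝ} (h : Lip G L) : 0 ≤ L ∧ Integrable G ga ∧
    Integrable (fderiv ℝ G) ga ∧ ‖∫ x, fderiv ℝ G x ∂ga‖ ≤ L ∧
    ∀ x, ‖G x‖ ≤ ‖G 0‖ + L * ‖x‖ := by
  have L0 : 0 ≤ L := (norm_nonneg _).trans (h.bd 0)
  have hb : ∀ x, ‖G x‖ ≤ ‖G 0‖ + L * ‖x‖ := fun x => by
    have k := (convex_univ (𝕜 := ℝ) (E := V)).norm_image_sub_le_of_norm_fderiv_le
      (fun y _ => h.c1.differentiable one_ne_zero y) (fun y _ => h.bd y) (mem_univ 0) (mem_univ x)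
    rw [sub_zero] at k
    linarith [norm_sub_norm_le (G x) (G 0)]
  refine ⟨L0, grow (‖G 0‖ + L) h.c1.continuous.aestronglyMeasurable fun x => (hb x).trans ?_,
    (integrable_const L).mono' (h.c1.continuous_fderiv one_ne_zero).aestronglyMeasurable
      (.of_forall h.bd), ?_, hb⟩
  · have a1 : ‖x‖ ≤ 1 + ‖x‖ ^ 2 := by nlinarith [sq_nonneg (‖x‖ - 1)]
    have a2 := mul_le_mul_of_nonneg_left a1 L0
    have a3 := mul_nonneg (norm_nonneg (G 0)) (sq_nonneg ‖x‖)
    linarith
  · simpa using norm_integral_le_of_norm_le_const (μ := ga) (.of_forall h.bd)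

theorem lin (l : V →L[ℝ] ℝ) : EB l (‖l‖ ^ 2 / 2) := by
  have e : ga.map l = gaussianReal 0 (‖l‖ ^ 2).toNNReal := by
    rw [IsGaussian.map_eq_gaussianReal, variance_dual_stdGaussian,
      integral_strongDual_stdGaussian]
  have hc : AEStronglyMeasurable (fun y : ℝ => Real.exp (1 * y)) (ga.map l) :=
    Continuous.aestronglyMeasurable (by fun_prop)
  have i1 : Integrable (fun y : ℝ => Real.exp (1 * y)) (ga.map l) := by
    rw [e]
    exact integrable_exp_mul_gaussianReal 1
  have i2 := (integrable_map_measure hc l.continuous.aemeasurable).1 i1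
  have k := integral_map l.continuous.aemeasurable hc
  have m := congrFun (mgf_fun_id_gaussianReal (μ := 0) (v := (‖l‖ ^ 2).toNNReal)) 1
  rw [mgf, ← e, k, Real.coe_toNNReal _ (sq_nonneg _)] at m
  simp only [one_mul, zero_add, one_pow, mul_one] at m
  refine of_int l.continuous.aemeasurable ?_ m.le
  simpa only [Function.comp_def, one_mul] using i2

end KEx

theorem kE : KE where
  const c := KEx.of_int aemeasurable_const (integrable_const _) (by simp)
  mono h hm hl ha := ⟨hm, ((lintegral_mono fun x =>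
    ENNReal.ofReal_le_ofReal (Real.exp_le_exp.2 (hl x))).trans h.2).trans
      (ENNReal.ofReal_le_ofReal (Real.exp_le_exp.2 ha))⟩
  shift := KEx.shift
  comb := KEx.comb
  int := KEx.int
  of_int := KEx.of_int
  jensen := KEx.jensen
  grow := KEx.grow
  lip := KEx.lip
  lin := KEx.lin

end Pool.Agent.MP_3ee8cb_gt.DF
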