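import Pool.Agent.MP_3ee8cb_gt.DF.Spec

/-! Block KEY: the dimension free inequality by induction along the heat flow. -/

namespace Pool.Agent.MP_3ee8cb_gt.DF

open DN Set MeasureTheory ProbabilityTheory Real

variable [Dim]

namespace KEY

variable {H : V → V} {L c s : ℝ}

theorem der (h : Lip H L) (w : V) (t : ℝ) (x : V) :
    HasFDerivAt (fun x => H (w + t • x)) (t • fderiv ℝ H (w + t • x)) x := by
  have h1 : HasFDerivAt (fun x : V => w + t • x) (t • ContinuousLinearMap.id ℝ V) x :=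
    ((hasFDerivAt_id x).const_smul t).const_add w
  refine ((h.c1.differentiable one_ne_zero _).hasFDerivAt.comp x h1).congr_fderiv ?_
  ext e
  simp

theorem c1 (h : Lip H L) (w : V) (t : ℝ) : ContDiff ℝ 1 fun x => H (w + t • x) :=
  h.c1.comp (contDiff_const.add (contDiff_id.const_smul t))

theorem prim (h : Lip H L) (w : V) (t : ℝ) :
    ∃ G, Lip G L ∧ ∀ x, fderiv ℝ G x = fderiv ℝ H (w + t • x) := by
  rcases eq_or_ne t 0 with rfl | h0
  · have e : ∀ x, fderiv ℝ (fderiv ℝ H w) x = fderiv ℝ H (w + (0 : ℝ) • x) := fun x => by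
      rw [ContinuousLinearMap.fderiv, zero_smul, add_zero]
    exact ⟨fderiv ℝ H w, ⟨(fderiv ℝ H w).contDiff, fun x => (e x).symm ▸ h.bd _⟩, e⟩
  have e : ∀ x, fderiv ℝ (fun x => t⁻¹ • H (w + t • x)) x = fderiv ℝ H (w + t • x) := fun x => by
    have := ((der h w t x).const_smul t⁻¹).fderiv
    rwa [smul_smul, inv_mul_cancel₀ h0, one_smul] at this
  exact ⟨_, ⟨(c1 h w t).const_smul t⁻¹, fun x => (e x).symm ▸ h.bd _⟩, e⟩

theorem glog (ke : KE) (lm : SLM) (ht : SHEAT) (h : Lip H L) (s0 : 0 ≤ s)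
    (s1 : 1400 * s * L ^ 2 ≤ 1) (s2 : s ≤ 2 * c) (t : ℝ) (w : V) :
    PP t (fun x => exp (-c * hs (fderiv ℝ H x))) w ≤
      exp (-(s / 4) * hs (fderiv ℝ (PP t H) w)) := by
  obtain ⟨G, hG, e⟩ := prim h w t
  have := (ke.int (lm G L c s hG s0 s1 s2)).2
  simp only [e] at this
  rw [(ht.der H L t h).2 w]
  exact this

theorem step (kh : KH) (ke : KE) (lm : SLM) (st : SSTEP) (ht : SHEAT) (h : Lip H L) (s0 : 0 ≤ s)
    (s1 : 1400 * s * L ^ 2 ≤ 1) (s2 : s ≤ 2 * c) {a t u β β' θ : ℝ} (ha : dm * a ^ 2 = 1)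
    (a0 : 0 ≤ a) (hu : u ^ 2 = a ^ 2 + t ^ 2) (β0 : 0 ≤ β) (β1 : 640 * β ≤ s)
    (β2 : β + 20 * β ^ 2 * (a * L) ^ 2 ≤ β') (θ0 : 0 ≤ θ) (θ1 : θ ≤ 1 / 2) (z : V) :
    ∫⁻ x, ENNReal.ofReal (exp (β * ‖PP t H (z + a • x)‖ ^ 2 + (θ + a ^ 2 / 2) *
      log (PP t (fun x => exp (-c * hs (fderiv ℝ H x))) (z + a • x)))) ∂ga ≤
      ENNReal.ofReal (exp (β' * ‖PP u H z‖ ^ 2 +
        θ * log (PP u (fun x => exp (-c * hs (fderiv ℝ H x))) z))) := by
  have gl := glog ke lm ht h s0 s1 s2 t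
  obtain ⟨g, hg⟩ : ∃ g : V → ℝ, g = fun x => exp (-c * hs (fderiv ℝ H x)) := ⟨_, rfl⟩
  rw [← hg] at gl ⊢
  obtain ⟨L0, -, -, -, hb⟩ := ke.lip h
  have hq : ∀ {B : V →L[ℝ] V}, ‖B‖ ≤ L → hs B ≤ dm * L ^ 2 := fun hB => (kh.le _).trans
    (mul_le_mul_of_nonneg_left (pow_le_pow_left₀ (norm_nonneg _) hB 2) (Nat.cast_nonneg _))
  have gc : Continuous g := hg ▸ continuous_exp.comp
    (continuous_const.mul (kh.cont.comp (h.c1.continuous_fderiv one_ne_zero)))
  have gb : ∀ x, exp (-c * (dm * L ^ 2)) ≤ g x ∧ g x ≤ 1 := fun x => by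
    rw [hg]
    exact ⟨exp_le_exp.2 (by nlinarith [hq (h.bd x)]),
      exp_le_one_iff.2 (by nlinarith [kh.nonneg (fderiv ℝ H x)])⟩
  obtain ⟨pc, pb⟩ := ht.cont g _ t gc gb (exp_pos _).le
  have pp : ∀ w, 0 < PP t g w := fun w => (exp_pos _).trans_le (pb w).1
  have pu : 0 < PP u g z := (exp_pos _).trans_le ((ht.cont g _ u gc gb (exp_pos _).le).2 z).1
  have sg : PP a (PP t g) = PP u g := ht.semi ℝ g 1 a t u gc (fun x => by
    rw [Real.norm_of_nonneg ((exp_pos _).le.trans (gb x).1)]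
    linarith [(gb x).2, norm_nonneg x]) hu
  have sH : PP a (PP t H) = PP u H := ht.semi V H (‖H 0‖ + L) a t u h.c1.continuous (fun x => by
    nlinarith [hb x, mul_nonneg (norm_nonneg (H 0)) (norm_nonneg x)]) hu
  have hN := (ht.der H L t h).1
  have dN := fun x => (der hN z a x).fderiv
  have ca : Continuous fun x : V => PP t g (z + a • x) := pc.comp (by fun_prop)
  have n1 : (1 : ℝ) ≤ dm := Nat.one_le_cast.2 (Nat.le_add_left 1 (Dim.k + 2))
  have e1 : (fun x : V => exp (log (PP t g (z + a • x)))) = fun x => PP t g (z + a • x) :=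
    funext fun x => exp_log (pp _)
  have E : EB (fun x => log (PP t g (z + a • x))) (log (PP u g z)) := by
    refine ke.of_int (ca.log fun x => (pp _).ne').aemeasurable ?_ ?_
    · rw [e1]
      refine ke.grow 1 ca.aestronglyMeasurable fun x => ?_
      rw [Real.norm_of_nonneg (pp _).le]
      linarith [(pb (z + a • x)).2, sq_nonneg ‖x‖]
    · rw [e1, exp_log pu, ← sg]
      exact le_rfl
  have S := (st (fun x => PP t H (z + a • x)) _ (a * L) (L ^ 2) (s / 4) β θ _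
    ⟨c1 hN z a, fun x => by
      rw [dN, norm_smul, Real.norm_of_nonneg a0]
      exact mul_le_mul_of_nonneg_left (hN.bd _) a0⟩
    (by nlinarith [mul_nonneg (sub_nonneg.2 n1) (sq_nonneg (a * L)), sq_nonneg L])
    (fun x => by
      rw [dN, kh.smul]
      refine (mul_le_mul_of_nonneg_left (hq (hN.bd _)) (sq_nonneg a)).trans_eq ?_
      linear_combination L ^ 2 * ha)
    (by nlinarith [mul_nonneg s0 (sq_nonneg L)]) β0 (by linarith) θ0 θ1 E).2
  have e2 : ∫ x, PP t H (z + a • x) ∂ga = PP u H z := congrFun sH z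
  rw [e2] at S
  refine (lintegral_mono fun x => ENNReal.ofReal_le_ofReal (exp_le_exp.2 ?_)).trans
    (S.trans (ENNReal.ofReal_le_ofReal (exp_le_exp.2 ?_)))
  · have := (log_le_iff_le_exp (pp _)).2 (gl (z + a • x))
    rw [dN, kh.smul]
    nlinarith [mul_le_mul_of_nonneg_left this (sq_nonneg a)]
  · linarith [mul_le_mul_of_nonneg_right β2 (sq_nonneg ‖PP u H z‖)]

end KEY

theorem key_of (kh : KH) (ke : KE) (lm : SLM) (st : SSTEP) (ht : SHEAT) : SKEY := by
  intro H L c s b h h0 b0 bs s1 s2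
  have s0 : 0 ≤ s := by linarith
  have n0 : (0 : ℝ) < dm := Nat.cast_pos.2 (Nat.succ_pos _)
  have cΨ : Continuous fun x => b * ‖H x‖ ^ 2 - c / 2 * hs (fderiv ℝ H x) :=
    (continuous_const.mul (h.c1.continuous.norm.pow 2)).sub
      (continuous_const.mul (kh.cont.comp (h.c1.continuous_fderiv one_ne_zero)))
  have a2 : √(1 / (dm : ℝ)) ^ 2 = 1 / dm := sq_sqrt (by positivity)
  have ind : ∀ j : ℕ, j ≤ dm → ∀ z, ∫⁻ x, ENNReal.ofReal (exp (b * ‖H (z + √(j / dm) • x)‖ ^ 2 -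
      c / 2 * hs (fderiv ℝ H (z + √(j / dm) • x)))) ∂ga ≤
      ENNReal.ofReal (exp (b * (1 + j / dm) * ‖PP √(j / dm) H z‖ ^ 2 + (1 / 2 - j / dm / 2) *
        log (PP √(j / dm) (fun x => exp (-c * hs (fderiv ℝ H x))) z))) := by
    intro j
    induction j with
    | zero =>
      intro _ z
      simp only [PP, Nat.cast_zero, zero_div, sqrt_zero, zero_smul, add_zero, lintegral_const,
        measure_univ, mul_one, integral_const, probReal_univ, one_smul, log_exp, sub_zero]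
      exact ENNReal.ofReal_le_ofReal (exp_le_exp.2 (le_of_eq (by ring)))
    | succ j ih =>
      intro hj z
      have j0 : (0 : ℝ) ≤ j / dm := by positivity
      have j1 : ((j + 1 : ℕ) : ℝ) / dm ≤ 1 := (div_le_one n0).2 (Nat.cast_le.2 hj)
      have j2 : ((j + 1 : ℕ) : ℝ) / dm = 1 / dm + j / dm := by
        push_cast
        ring
      have j3 : (0 : ℝ) < 1 / dm := by positivity
      have hu : √(((j + 1 : ℕ) : ℝ) / dm) ^ 2 = √(1 / (dm : ℝ)) ^ 2 + √((j : ℝ) / dm) ^ 2 := by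
        rw [a2, sq_sqrt j0, sq_sqrt (by positivity), j2]
      have ls := ht.lsemi (fun y => ENNReal.ofReal (exp (b * ‖H y‖ ^ 2 -
        c / 2 * hs (fderiv ℝ H y)))) _ _ _ z
        (ENNReal.continuous_ofReal.comp (continuous_exp.comp cΨ)).measurable hu
      have bj : b * (1 + j / dm) ≤ 2 * b := by nlinarith
      have S := KEY.step kh ke lm st ht h s0 s1 s2 (θ := 1 / 2 - ((j + 1 : ℕ) : ℝ) / dm / 2)
        (β := b * (1 + j / dm)) (β' := b * (1 + ((j + 1 : ℕ) : ℝ) / dm))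
        (by rw [a2, mul_one_div_cancel n0.ne']) (sqrt_nonneg _) hu (by positivity) (by linarith)
        (by
          have e1 := pow_le_pow_left₀ (by positivity) bj 2
          have e2 : 80 * b * L ^ 2 ≤ 1 := by nlinarith [sq_nonneg L]
          have e3 := mul_le_mul_of_nonneg_right e1 (sq_nonneg L)
          have e4 : 20 * (b * (1 + j / dm)) ^ 2 * L ^ 2 ≤ b := by nlinarith
          rw [mul_pow _ L, a2, j2]
          nlinarith [mul_le_mul_of_nonneg_left e4 j3.le]) (by linarith) (by linarith) z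
      rw [← ls]
      refine (lintegral_mono fun x => (ih (Nat.le_of_succ_le hj) _).trans_eq ?_).trans S
      rw [a2, j2]
      ring_nf
  refine ⟨cΨ.aemeasurable, ?_⟩
  have := ind dm le_rfl 0
  rw [div_self n0.ne'] at this
  simpa [PP, h0] using this

end Pool.Agent.MP_3ee8cb_gt.DF
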