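import Pool.Agent.MP_3ee8cb_gt.DF.Spec

/-! From the Gaussian inequality to the inequality on the sphere. -/

namespace Pool.Agent.MP_3ee8cb_gt.DF

open DN Set MeasureTheory ProbabilityTheory
open scoped RealInnerProductSpace

noncomputable section

variable [Dim]

namespace KSO

theorem norm_unit {x : V} (hx : x ≠ 0) : ‖‖x‖⁻¹ • x‖ = 1 := by
  rw [norm_smul, norm_inv, norm_norm, inv_mul_cancel₀ (norm_ne_zero_iff.mpr hx)]

theorem ae_ne (po : SPOLAR) : ∀ᵐ x ∂(ga : Measure V), x ≠ 0 := by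
  obtain ⟨h1, h⟩ := po
  obtain ⟨hi, -, he, -⟩ := h (fun a => 1 - ‖a‖) (by fun_prop)
  have h0 : sph (fun a : V => 1 - ‖a‖) = 0 := by
    unfold sph
    have : ∀ a : Metric.sphere (0 : V) 1, (1 : ℝ) - ‖(a : V)‖ = 0 := fun a => by
      rw [mem_sphere_zero_iff_norm.mp a.2, sub_self]
    simp only [this, integral_zero]
  rw [h0] at he
  have hz := (mul_eq_zero.mp he).resolve_right h1.ne'
  have hn : (0 : V → ℝ) ≤ fun x : V => 1 - ‖‖x‖⁻¹ • x‖ := by
    intro x
    by_cases hx : x = 0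
    · simp [hx]
    · simp only [Pi.zero_apply, norm_unit hx, sub_self, le_refl]
  have := (integral_eq_zero_iff_of_nonneg hn hi).mp hz
  filter_upwards [this] with x hx h0
  simp [h0] at hx

theorem ps_nonneg (x : V) : 0 ≤ ps x := by unfold ps; positivity

theorem ps_cont : Continuous (ps : V → ℝ) := by
  unfold ps
  refine Continuous.div (by fun_prop) (by fun_prop) fun x => ?_
  positivity

theorem ps_le (x : V) : ps x ≤ 1 + ‖x‖ ^ 2 := by
  unfold ps
  have h1 : (1 : ℝ) ≤ √(1 + ‖x‖ ^ 2) := Real.one_le_sqrt.mpr (by nlinarith [sq_nonneg ‖x‖])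
  have := div_le_self (sq_nonneg ‖x‖) h1
  linarith

theorem ps_sq (x : V) : ‖x‖ ^ 2 - 1 ≤ ps x ^ 2 := by
  unfold ps
  have hp : (0 : ℝ) < 1 + ‖x‖ ^ 2 := by positivity
  rw [div_pow, Real.sq_sqrt hp.le, le_div_iff₀ hp]
  nlinarith

theorem hom_unit {F : V → V} (hF : H0 F) {x : V} (hx : x ≠ 0) : F (‖x‖⁻¹ • x) = F x :=
  hF.hom _ _ (inv_ne_zero (norm_ne_zero_iff.mpr hx)) hx

theorem centre (ke : KE) (ex : SEXT) {F : V → V} {L : ℝ} (hF : H0 F)
    (hb : ∀ u, ‖u‖ = 1 → ‖F u‖ ≤ 3 / 2 ∧ ‖fderiv ℝ F u‖ ≤ L) :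
    ∃ w : V, ‖w‖ ≤ 3 / 2 ∧ ∫ x, ps x • (F x - w) ∂ga = 0 := by
  have i1 : Integrable (ps : V → ℝ) ga :=
    ke.grow 1 ps_cont.aestronglyMeasurable fun x => by
      rw [Real.norm_of_nonneg (ps_nonneg x), one_mul]; exact ps_le x
  have i2 : Integrable (fun x => ps x • F x) ga := by
    have := (ke.lip (ex F L 0 hF (by simp; norm_num) hb).1).2.1
    simpa only [sub_zero] using this
  set P : ℝ := ∫ x, ps x ∂ga with hP
  set m : V := ∫ x, ps x • F x ∂ga with hm
  have hP0 : 0 ≤ P := integral_nonneg ps_nonneg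
  have hmP : ‖m‖ ≤ P * (3 / 2) := by
    rw [hm, hP, ← integral_mul_const]
    refine norm_integral_le_of_norm_le (i1.mul_const _) (Filter.Eventually.of_forall fun x => ?_)
    rw [norm_smul, Real.norm_of_nonneg (ps_nonneg x)]
    by_cases hx : x = 0
    · simp [hx, ps]
    · refine mul_le_mul_of_nonneg_left ?_ (ps_nonneg x)
      rw [← hom_unit hF hx]
      exact (hb _ (norm_unit hx)).1
  refine ⟨P⁻¹ • m, ?_, ?_⟩
  · rw [norm_smul, norm_inv, Real.norm_of_nonneg hP0]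
    rcases hP0.eq_or_lt with h | h
    · rw [← h]; norm_num
    · rw [inv_mul_le_iff₀ h]; exact hmP
  · simp only [smul_sub]
    rw [integral_sub i2 (i1.smul_const _), integral_smul_const, ← hP, ← hm, smul_smul]
    rcases hP0.eq_or_lt with h | h
    · rw [← h] at hmP ⊢
      have : m = 0 := norm_le_zero_iff.mp (by simpa using hmP)
      simp [this]
    · rw [mul_inv_cancel₀ h.ne', one_smul, sub_self]

omit [Dim] in
theorem point {b c n r A Q N D : ℝ} (hb : 0 ≤ b) (hc : 0 ≤ c) (hA : 0 ≤ A)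
    (hn : b + 4 * c ≤ b / 2 * n) (hN : (r - 1) * A ≤ N) (hD : D ≤ 8 * A + 2 * Q) :
    Real.exp (b / 2 * n * A - c * Q) + r * (b * A * Real.exp (b / 2 * n * A - c * Q)) -
      n * (b * A * Real.exp (b / 2 * n * A - c * Q)) ≤ Real.exp (b * N - c / 2 * D) := by
  have h1 := Real.add_one_le_exp (b * A * (r - n))
  have h2 := Real.exp_pos (b / 2 * n * A - c * Q)
  have h3 : Real.exp (b / 2 * n * A - c * Q) * Real.exp (b * A * (r - n)) ≤
      Real.exp (b * N - c / 2 * D) := by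
    rw [← Real.exp_add]
    refine Real.exp_le_exp.mpr ?_
    have a1 := mul_le_mul_of_nonneg_left hN hb
    have a2 := mul_le_mul_of_nonneg_left hD hc
    have a3 := mul_le_mul_of_nonneg_right hn hA
    nlinarith
  have h4 := mul_le_mul_of_nonneg_left h1 h2.le
  nlinarith

end KSO

open KSO in
theorem kso_of (kh : KH) (ke : KE) (key : SKEY) (po : SPOLAR) (ex : SEXT) : SKSO := by
  intro L c s b hb hbs hsL hsc hn F hF hFb
  obtain ⟨w, hw, hw0⟩ := centre ke ex hF hFb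
  obtain ⟨hL, hD⟩ := ex F L w hF hw hFb
  obtain ⟨hi, hle⟩ := ke.int (key _ _ c s b hL hw0 hb hbs hsL hsc)
  have hc : 0 ≤ c := by linarith
  refine ⟨w, ?_⟩
  have hsub : {a : V | ‖a‖ = 1} ⊆ {a : V | a ≠ 0} := fun a ha h0 => by
    simp only [mem_ofPred_eq] at ha
    rw [h0, norm_zero] at ha
    exact zero_ne_one ha
  have cF : ContinuousOn F {a : V | ‖a‖ = 1} := hF.c1.continuousOn.mono hsub
  have cD : ContinuousOn (fun u => hs (fderiv ℝ F u)) {a : V | ‖a‖ = 1} :=
    kh.cont.comp_continuousOn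
      ((hF.c1.continuousOn_fderiv_of_isOpen isOpen_ne le_rfl).mono hsub)
  have cA : ContinuousOn (fun u => ‖F u - w‖ ^ 2) {a : V | ‖a‖ = 1} :=
    ((cF.sub continuousOn_const).norm).pow 2
  have cW : ContinuousOn
      (fun u => Real.exp (b / 2 * dm * ‖F u - w‖ ^ 2 - c * hs (fderiv ℝ F u)))
      {a : V | ‖a‖ = 1} :=
    Real.continuous_exp.comp_continuousOn
      ((continuousOn_const.mul cA).sub (continuousOn_const.mul cD))
  have cG : ContinuousOn (fun u => b * ‖F u - w‖ ^ 2 *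
      Real.exp (b / 2 * dm * ‖F u - w‖ ^ 2 - c * hs (fderiv ℝ F u))) {a : V | ‖a‖ = 1} :=
    (continuousOn_const.mul cA).mul cW
  obtain ⟨w1, -, w3, -⟩ := po.2 _ cW
  obtain ⟨g1, g2, g3, g4⟩ := po.2 _ cG
  have hmono := integral_mono_ae ((w1.add g2).sub (g1.const_mul (dm : ℝ))) hi (by
    filter_upwards [ae_ne po] with x hx
    refine point hb hc (sq_nonneg _) hn ?_ (hD x hx)
    rw [hom_unit hF hx, norm_smul, mul_pow, Real.norm_of_nonneg (ps_nonneg x)]
    exact mul_le_mul_of_nonneg_right (ps_sq x) (sq_nonneg _))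
  have hsum := hmono.trans hle
  rw [Real.exp_zero] at hsum
  have e1 := integral_sub (w1.add g2) (g1.const_mul (dm : ℝ))
  have e2 := integral_add w1 g2
  simp only [Pi.add_apply, Pi.sub_apply] at hsum e1
  rw [e1, e2, integral_const_mul] at hsum
  have := mul_le_mul_of_nonneg_right hsum po.1.le
  rw [sub_mul, add_mul, w3, g4, mul_assoc (dm : ℝ), g3, one_mul] at this
  linarith

end

end Pool.Agent.MP_3ee8cb_gt.DF
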