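import Pool.Agent.MP_3ee8cb_gt.DF.Spec

/-! The energy of a gradient field is not small too often. -/

namespace Pool.Agent.MP_3ee8cb_gt.DF

open DN Set MeasureTheory ProbabilityTheory
open scoped RealInnerProductSpace

variable [Dim]

namespace LM

theorem core (kh : KH) (ke : KE) (cv : SCV) (qf : SQF) (p1 : SP1) (p2 : SP2) (st : SST)
    {G : V → V} {L c s : ℝ} (hG : Lip G L) (h0 : ∫ x, G x ∂ga = 0) (s0 : 0 ≤ s)
    (hL : 1400 * s * L ^ 2 ≤ 1) (hc : s ≤ 2 * c) :
    EB (fun x => -c * hs (fderiv ℝ G x)) (-(s / 4) * hs (∫ x, fderiv ℝ G x ∂ga)) := by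
  obtain ⟨L0, iG, -, hM, gr⟩ := ke.lip hG
  have st' := st G L hG
  generalize ∫ x, fderiv ℝ G x ∂ga = M at hM st' ⊢
  obtain ⟨A, hAd⟩ : ∃ A, A = ContinuousLinearMap.adjoint M := ⟨_, rfl⟩
  have hA : ‖A‖ ≤ L := by rw [hAd, LinearIsometryEquiv.norm_map]; exact hM
  have ad : ∀ x y, ⟪x, A y⟫ = ⟪M x, y⟫ := fun x y => by
    rw [hAd, ContinuousLinearMap.adjoint_inner_right]
  have h2 := kh.nonneg M
  have t0 : 0 ≤ s * L ^ 2 := by positivity
  have t1 : s * L ^ 2 ≤ 1 / 1400 := by linarith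
  have t2 : (s * L ^ 2) ^ 2 ≤ (1 / 1400) ^ 2 := pow_le_pow_left₀ t0 t1 2
  have dG : ∀ x, HasFDerivAt G (fderiv ℝ G x) x := fun x =>
    (hG.c1.differentiable one_ne_zero x).hasFDerivAt
  have cG : Continuous (fderiv ℝ G) := hG.c1.continuous_fderiv one_ne_zero
  have dW : ∀ x, fderiv ℝ (fun x => A (G x)) x = A.comp (fderiv ℝ G x) := fun x =>
    (A.hasFDerivAt.comp x (dG x)).fderiv
  have bW : ∀ x, ‖A.comp (fderiv ℝ G x)‖ ≤ L ^ 2 := fun x => (A.opNorm_comp_le _).trans (by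
    rw [sq]
    exact mul_le_mul hA (hG.bd x) (norm_nonneg _) L0)
  have lW : Lip (fun x => A (G x)) (L ^ 2) :=
    ⟨A.contDiff.comp hG.c1, fun x => by rw [dW]; exact bW x⟩
  have hW : ∀ x, hs (A.comp (fderiv ℝ G x)) ≤ L ^ 2 * hs M := fun x =>
    (kh.right _ _).trans (by
      rw [hAd, kh.adj]
      exact mul_le_mul_of_nonneg_right (pow_le_pow_left₀ (norm_nonneg _) (hG.bd x) 2) h2)
  have dZ : ∀ x, fderiv ℝ (fun x => s • A (G x)) x = s • A.comp (fderiv ℝ G x) := fun x =>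
    ((A.hasFDerivAt.comp x (dG x)).const_smul s).fderiv
  have lZ : Lip (fun x => s • A (G x)) (1 / 2) := ⟨lW.c1.const_smul s, fun x => by
    rw [dZ, norm_smul, Real.norm_of_nonneg s0]
    linarith [mul_le_mul_of_nonneg_left (bW x) s0]⟩
  have e1 := cv _ lZ
  have e2 := p2 _ (L ^ 2) (20 * s ^ 2) (400 * s ^ 2 * (L ^ 2 * hs M)) lW (by positivity)
    (by nlinarith) (ke.mono (ke.const _) (continuous_const.mul
      (kh.cont.comp (lW.c1.continuous_fderiv one_ne_zero))).measurable.aemeasurable (fun x => by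
        rw [dW]
        linarith [mul_le_mul_of_nonneg_left (hW x) (sq_nonneg s)]) le_rfl)
  simp only [A.integral_comp_comm iG, h0, map_zero, sub_zero] at e2
  have e3 := qf M (20 * s ^ 2 * L ^ 2) (by positivity) (by
    have := mul_le_mul_of_nonneg_left (pow_le_pow_left₀ (norm_nonneg _) hM 2)
      (by positivity : 0 ≤ s ^ 2 * L ^ 2)
    nlinarith)
  have cP : ContDiff ℝ 1 fun x => ⟪M x, G x⟫ := M.contDiff.inner ℝ hG.c1
  have iP : Integrable (fun x => ⟪M x, G x⟫) ga :=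
    ke.grow (L * (‖G 0‖ + L)) cP.continuous.aestronglyMeasurable fun x => by
      have a1 := mul_le_mul (M.le_of_opNorm_le hM x) (gr x) (norm_nonneg _) (by positivity)
      have a2 : ‖x‖ ≤ 1 + ‖x‖ ^ 2 := by nlinarith [norm_nonneg x]
      have a3 := mul_le_mul_of_nonneg_left a2 (by positivity : 0 ≤ L * ‖G 0‖)
      nlinarith [norm_inner_le_norm (𝕜 := ℝ) (M x) (G x), sq_nonneg L]
  have e4 := p1 (fun x => -2 * s * ⟪M x, G x⟫) _ _ (contDiff_const.mul cP) (iP.const_mul _)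
    (fun x => by
      have d := ((M.hasFDerivAt.inner ℝ (dG x)).const_mul (-2 * s)).fderiv
      have b : ‖fderiv ℝ (fun x => -2 * s * ⟪M x, G x⟫) x‖ ≤
          2 * s * (L * ‖M x‖ + ‖A (G x)‖) := by
        refine ContinuousLinearMap.opNorm_le_bound _ (by positivity) fun e => ?_
        have a0 : fderiv ℝ (fun x => -2 * s * ⟪M x, G x⟫) x e =
            -2 * s * (⟪M x, fderiv ℝ G x e⟫ + ⟪e, A (G x)⟫) := by
          rw [ad]
          exact congrArg (· e) d
        have a1 := (abs_real_inner_le_norm (M x) (fderiv ℝ G x e)).trans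
          (mul_le_mul_of_nonneg_left ((fderiv ℝ G x).le_of_opNorm_le (hG.bd x) e) (norm_nonneg _))
        have a2 := abs_real_inner_le_norm e (A (G x))
        have a3 := (abs_add_le _ _).trans (add_le_add a1 a2)
        rw [a0, Real.norm_eq_abs, abs_mul, abs_of_nonpos (by linarith : -2 * s ≤ 0)]
        linarith [mul_le_mul_of_nonneg_left a3 s0]
      have b2 := pow_le_pow_left₀ (norm_nonneg _) b 2
      nlinarith [mul_nonneg (sq_nonneg s) (sq_nonneg (L * ‖M x‖ - ‖A (G x)‖))])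
    (ke.comb (1 / 2) (1 / 2) e2 e3 (by norm_num) (by norm_num) (by norm_num))
  rw [integral_const_mul] at e4
  have e5 := ke.comb (1 / 2) (1 / 40) e4 e2 (by norm_num) (by norm_num) (by norm_num)
  have e6 := ke.comb (1 / 2) (1 / 2) e1 e5 (by norm_num) (by norm_num) (by norm_num)
  refine ke.mono (ke.shift (s / 8 * hs M + 5 / 2 * s ^ 2 * (L ^ 2 * hs M) - s / 2 * hs M) e6)
    (continuous_const.mul (kh.cont.comp cG)).measurable.aemeasurable (fun x => ?_) ?_
  · have a1 : trc (s • A.comp (fderiv ℝ G x)) = s * trc (A.comp (fderiv ℝ G x)) := by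
      simp [trc]
    have a2 := kh.cs M (fderiv ℝ G x)
    have a3 := kh.nonneg (fderiv ℝ G x)
    rw [← hAd] at a2
    have a4 : trc (A.comp (fderiv ℝ G x)) ≤ hs (fderiv ℝ G x) + hs M / 4 :=
      (abs_le_of_sq_le_sq' (by nlinarith [sq_nonneg (hs (fderiv ℝ G x) - hs M / 4)])
        (by positivity)).2
    simp only [dZ, a1, kh.smul, real_inner_smul_right, ad, norm_smul, mul_pow, Real.norm_eq_abs,
      sq_abs]
    linarith [mul_le_mul_of_nonneg_left a4 s0, mul_le_mul_of_nonneg_left (hW x) (sq_nonneg s),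
      mul_le_mul_of_nonneg_left st' s0, mul_le_mul_of_nonneg_right hc a3]
  · linarith [mul_le_mul_of_nonneg_right t1 (mul_nonneg s0 h2), mul_nonneg s0 h2]

end LM

theorem lm_of (kh : KH) (ke : KE) (cv : SCV) (qf : SQF) (p1 : SP1) (p2 : SP2) (st : SST) :
    SLM := by
  intro G L c s hG s0 hL hc
  have hG' : Lip (fun x => G x - ∫ y, G y ∂ga) L :=
    ⟨hG.c1.sub contDiff_const, fun x => by rw [fderiv_sub_const]; exact hG.bd x⟩
  have k := LM.core kh ke cv qf p1 p2 st hG' (by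
    rw [integral_sub (ke.lip hG).2.1 (integrable_const _)]
    simp) s0 hL hc
  simpa only [fderiv_sub_const] using k

end Pool.Agent.MP_3ee8cb_gt.DF
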