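import Pool.Agent.MP_3ee8cb_gt.DF.Spec

/-! The scalar and the quadratic case of Pisier's inequality. -/

namespace Pool.Agent.MP_3ee8cb_gt.DF

open DN Set MeasureTheory ProbabilityTheory
open scoped RealInnerProductSpace

noncomputable section

namespace P12

theorem pi_sq : (Real.pi / 2) ^ 2 ≤ 5 / 2 := by
  have h1 := Real.pi_lt_d2
  have h2 := Real.pi_pos
  nlinarith

theorem cvx {W : Type} [NormedAddCommGroup W] [NormedSpace ℝ W] (l : ℝ) (hl : 0 ≤ l) :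
    ConvexOn ℝ univ fun w : W => l * ‖w‖ ^ 2 :=
  ((convexOn_univ_norm (E := W)).pow (fun _ _ => norm_nonneg _) 2).smul hl

end P12

variable [Dim]

theorem p1_of (ke : KE) (pis : SPIS) : SP1 := by
  intro f ψ α hf hi hψ hE
  refine pis ℝ id f ψ α (convexOn_id convex_univ) continuous_id hf hi (fun x => ?_) hE
  have h := ke.lin ((Real.pi / 2) • fderiv ℝ f x)
  refine ke.mono h h.1 (fun y => le_rfl) (le_trans ?_ (hψ x))
  rw [norm_smul, mul_pow, Real.norm_eq_abs, sq_abs]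
  nlinarith [mul_le_mul_of_nonneg_right P12.pi_sq (sq_nonneg ‖fderiv ℝ f x‖)]

theorem p2_of (kh : KH) (ke : KE) (qf : SQF) (pis : SPIS) : SP2 := by
  intro G L l α hG hl hL hE
  obtain ⟨hL0, hi, -⟩ := ke.lip hG
  refine pis V (fun w => l * ‖w‖ ^ 2) G _ α (P12.cvx l hl) (by fun_prop) hG.c1 hi
    (fun x => ?_) hE
  have h1 : ‖fderiv ℝ G x‖ ^ 2 ≤ L ^ 2 := pow_le_pow_left₀ (norm_nonneg _) (hG.bd x) 2
  have h2 : ‖(Real.pi / 2) • fderiv ℝ G x‖ ^ 2 ≤ 5 / 2 * L ^ 2 := by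
    rw [norm_smul, mul_pow, Real.norm_eq_abs, sq_abs]
    exact mul_le_mul P12.pi_sq h1 (sq_nonneg _) (by norm_num)
  have h := qf ((Real.pi / 2) • fderiv ℝ G x) l hl
    (by nlinarith [mul_le_mul_of_nonneg_left h2 hl])
  refine ke.mono h h.1 (fun y => le_rfl) ?_
  rw [kh.smul]
  nlinarith [mul_le_mul_of_nonneg_right P12.pi_sq (mul_nonneg hl (kh.nonneg (fderiv ℝ G x)))]

end

end Pool.Agent.MP_3ee8cb_gt.DF
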