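import Pool.Agent.MP_3ee8cb_gt.DF.Spec
import Pool.Agent.MP_3ee8cb_gt.DF44.Pis

/-! The rotation inequality for exponential moments. -/

namespace Pool.Agent.MP_3ee8cb_gt.DF

open DN Set MeasureTheory

variable [Dim]

theorem sPIS : SPIS := by
  intro W _ _ _ φ G ψ α hv hc hG hi h1 h2
  have cG := hG.continuous
  refine ⟨(hc.comp (cG.sub continuous_const)).measurable.aemeasurable, ?_⟩
  have v2 : ConvexOn ℝ univ fun w => Real.exp (φ w) := ⟨convex_univ, fun x _ y _ a b ha hb hab =>
    (Real.exp_le_exp.2 (hv.2 (mem_univ x) (mem_univ y) ha hb hab)).trans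
      (convexOn_exp.2 (mem_univ _) (mem_univ _) ha hb hab)⟩
  exact (DF44.pis v2 (Real.continuous_exp.comp hc) (fun _ => (Real.exp_pos _).le) hG hi).trans
    ((lintegral_mono fun x => (h1 x).2).trans h2.2)

theorem pis_of (_ke : KE) : SPIS := sPIS

end Pool.Agent.MP_3ee8cb_gt.DF
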