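import Pool.Agent.MP_3ee8cb_gt.DF.Spec
import Pool.Agent.MP_3ee8cb_gt.DNG.Pol

/-! Polar coordinates for the standard Gaussian measure. -/

namespace Pool.Agent.MP_3ee8cb_gt.DF

open DN Set MeasureTheory ProbabilityTheory
open scoped RealInnerProductSpace

noncomputable section

variable [Dim]

namespace POLAR

theorem pol (ke : KE) (j : ℕ) (hj : ∀ r : ℝ, 0 ≤ r → r ^ j ≤ 1 + r ^ 2) : ∃ C : ℝ, ∀ f : V → ℝ,
    ContinuousOn f {a | ‖a‖ = 1} → Integrable (fun x : V => ‖x‖ ^ j * f (‖x‖⁻¹ • x)) ga ∧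
      ∫ x, ‖x‖ ^ j * f (‖x‖⁻¹ • x) ∂ga = C * sph f := by
  have fr : Module.finrank ℝ V = Dim.k + 3 := by simp
  have : Nontrivial V := Module.nontrivial_of_finrank_pos (R := ℝ) (by omega)
  obtain ⟨c, c0, hc⟩ := DNG.rG0 V
  refine ⟨∫ r : Ioi (0 : ℝ), (ENNReal.ofReal (c * Real.exp (-(r.1 ^ 2 / 2)))).toReal * r.1 ^ j
    ∂Measure.volumeIoiPow (Module.finrank ℝ V - 1), fun f hf => ?_⟩
  have hs : {a : V | ‖a‖ = 1} = Metric.sphere 0 1 := by
    ext a
    simp
  obtain ⟨M, hM⟩ := (isCompact_sphere (0 : V) 1).exists_bound_of_continuousOn (hs ▸ hf)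
  have h0 : ga {(0 : V)} = 0 := by
    rw [ga, hc]
    exact withDensity_absolutelyContinuous _ _ (measure_singleton _)
  have hr : ga.restrict {(0 : V)}ᶜ = ga :=
    Measure.restrict_eq_self_of_ae_mem (compl_mem_ae_iff.2 h0)
  have hi : Integrable (fun x : V => ‖x‖ ^ j * f (‖x‖⁻¹ • x)) ga := by
    refine ke.grow (|M| + |f 0|) ?_ fun x => ?_
    · rw [← hr]
      refine ContinuousOn.aestronglyMeasurable ?_ (measurableSet_singleton _).compl
      refine (continuous_norm.pow j).continuousOn.mul (hf.comp ?_ fun x hx => ?_)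
      · exact (continuous_norm.continuousOn.inv₀ fun x hx => norm_ne_zero_iff.2 hx).smul
          continuousOn_id
      · exact norm_smul_inv_norm hx
    · rw [norm_mul, norm_pow, norm_norm, mul_comm]
      refine mul_le_mul ?_ (hj _ (norm_nonneg _)) (by positivity) (by positivity)
      by_cases hx : x = 0
      · rw [hx, smul_zero, Real.norm_eq_abs]
        exact le_add_of_nonneg_left (abs_nonneg _)
      · exact ((hM _ (mem_sphere_zero_iff_norm.2 (norm_smul_inv_norm hx))).trans
          (le_abs_self _)).trans (le_add_of_nonneg_right (abs_nonneg _))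
  refine ⟨hi, ?_⟩
  have hm : Measurable fun x : V => ENNReal.ofReal (c * Real.exp (-(‖x‖ ^ 2 / 2))) := by fun_prop
  rw [ga, hc] at hi ⊢
  rw [integral_withDensity_eq_integral_toReal_smul hm (.of_forall fun _ => ENNReal.ofReal_lt_top),
    DNG.polar2 ((integrable_withDensity_iff_integrable_smul' hm
      (.of_forall fun _ => ENNReal.ofReal_lt_top)).1 hi).integrableOn, sph, ← integral_const_mul]
  refine integral_congr_ae (.of_forall fun u => ?_)
  have hu := mem_sphere_zero_iff_norm.1 u.2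
  simp only
  rw [← integral_mul_const]
  refine integral_congr_ae (.of_forall fun r => ?_)
  have r0 : (0 : ℝ) < r.1 := r.2
  simp only
  rw [norm_smul, hu, mul_one, Real.norm_of_nonneg r0.le, inv_smul_smul₀ r0.ne', smul_eq_mul,
    mul_assoc]

theorem sq (ke : KE) : ∫ x, ‖x‖ ^ 2 ∂ga = dm := by
  have b := EuclideanSpace.basisFun (Fin dm) ℝ
  have h1 : ∀ i, ∫ x, ⟪b i, x⟫ ^ 2 ∂ga = 1 := fun i => by
    have h := variance_dual_stdGaussian (innerSL ℝ (b i))
    rw [variance_of_integral_eq_zero (innerSL ℝ (b i)).continuous.measurable.aemeasurable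
      (integral_strongDual_stdGaussian _), innerSL_apply_norm, b.orthonormal.1 i, one_pow] at h
    exact h
  have h2 : ∀ i, Integrable (fun x => ⟪b i, x⟫ ^ 2) ga := fun i => by
    refine ke.grow 1 (Continuous.aestronglyMeasurable (by fun_prop)) fun x => ?_
    have h := abs_real_inner_le_norm (b i) x
    rw [b.orthonormal.1 i, one_mul] at h
    rw [norm_pow, Real.norm_eq_abs]
    nlinarith [abs_nonneg ⟪b i, x⟫]
  simp only [← b.sum_sq_inner_right]
  rw [integral_finsetSum _ fun i _ => h2 i]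
  simp [h1]

end POLAR

theorem sPOLAR_of (ke : KE) : SPOLAR := by
  obtain ⟨C, hC⟩ := POLAR.pol ke 0 fun r _ => by nlinarith [sq_nonneg r]
  obtain ⟨D, hD⟩ := POLAR.pol ke 2 fun r _ => by linarith
  simp only [pow_zero, one_mul] at hC
  have c1 : 1 = C * sph fun _ => 1 := by
    simpa using (hC (fun _ => 1) continuousOn_const).2
  have d1 : (dm : ℝ) = D * sph fun _ => 1 := by
    have h := (hD (fun _ => 1) continuousOn_const).2
    simp only [mul_one] at h
    rw [← h, POLAR.sq ke]
  have s0 : 0 ≤ sph fun _ => 1 := integral_nonneg fun _ => zero_le_one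
  refine ⟨s0.lt_of_ne fun e => ?_, fun f hf => ⟨(hC f hf).1, (hD f hf).1, ?_, ?_⟩⟩
  · rw [← e, mul_zero] at c1
    exact one_ne_zero c1
  · rw [(hC f hf).2, mul_right_comm, ← c1, one_mul]
  · rw [(hD f hf).2, mul_right_comm, ← d1]

end

end Pool.Agent.MP_3ee8cb_gt.DF
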