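import Pool.Agent.MP_3ee8cb_gt.DF.Spec

/-! The sum of two independent Gaussian vectors. -/

namespace Pool.Agent.MP_3ee8cb_gt.DF

open DN Set MeasureTheory ProbabilityTheory
open scoped RealInnerProductSpace

noncomputable section

variable [Dim]

theorem sSEM2 : SSEM := by
  intro a b c hc
  have e : (ga.prod ga).map (fun p : V × V => a • p.1 + b • p.2) =
      (ga.map fun x : V => a • x) ∗ (ga.map fun x : V => b • x) := by
    rw [Measure.conv, Measure.map_prod_map _ _ (by fun_prop) (by fun_prop),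
      Measure.map_map (by fun_prop) (by fun_prop)]
    rfl
  rw [e]
  refine Measure.ext_of_charFun (funext fun t => ?_)
  rw [charFun_conv, charFun_map_smul, charFun_map_smul, charFun_map_smul, charFun_stdGaussian,
    charFun_stdGaussian, charFun_stdGaussian, ← Complex.exp_add]
  have h : ‖c • t‖ ^ 2 = ‖a • t‖ ^ 2 + ‖b • t‖ ^ 2 := by
    simp only [norm_smul, mul_pow, Real.norm_eq_abs, sq_abs, hc]
    ring
  have h' : ((‖c • t‖ : ℝ) : ℂ) ^ 2 = ((‖a • t‖ : ℝ) : ℂ) ^ 2 + ((‖b • t‖ : ℝ) : ℂ) ^ 2 := by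
    exact_mod_cast h
  rw [h']
  ring_nf

end

end Pool.Agent.MP_3ee8cb_gt.DF
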