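import Pool.Agent.MP_3ee8cb_gt.DF.Spec

/-! One half of Stein's identity, from the change of variables. -/

namespace Pool.Agent.MP_3ee8cb_gt.DF

open DN Set MeasureTheory ProbabilityTheory
open scoped RealInnerProductSpace

namespace ST

theorem small {a C e : ℝ} (he : 0 < e) (h : ∀ ε, 0 < ε → ε ≤ e → a ≤ ε * C) : a ≤ 0 := by
  by_contra hn
  have ha : 0 < a := lt_of_not_ge hn
  have hC : 0 < |C| + 1 := by positivity
  have k := h (min e (a / (|C| + 1))) (lt_min he (div_pos ha hC)) (min_le_left _ _)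
  have k1 : min e (a / (|C| + 1)) * C ≤ a / (|C| + 1) * |C| :=
    (mul_le_mul_of_nonneg_left (le_abs_self C) (lt_min he (div_pos ha hC)).le).trans
      (mul_le_mul_of_nonneg_right (min_le_right _ _) (abs_nonneg C))
  have k2 : a / (|C| + 1) * (|C| + 1) = a := div_mul_cancel₀ _ hC.ne'
  have k3 := div_pos ha hC
  nlinarith

variable [Dim]

/-- The trace of `N ∘ B` as a continuous linear function of `B`. -/
noncomputable def tau (N : V →L[ℝ] V) : (V →L[ℝ] V) →L[ℝ] ℝ :=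
  LinearMap.toContinuousLinearMap
    { toFun := fun B => trc (N.comp B)
      map_add' := fun B C => by
        unfold trc
        rw [ContinuousLinearMap.comp_add, ContinuousLinearMap.toLinearMap_add, map_add]
      map_smul' := fun c B => by
        unfold trc
        rw [ContinuousLinearMap.comp_smul, ContinuousLinearMap.toLinearMap_smul, map_smul]
        rfl }

theorem tau_apply (N B : V →L[ℝ] V) : tau N B = trc (N.comp B) := rfl

theorem trc_smul (c : ℝ) (B : V →L[ℝ] V) : trc (c • B) = c * trc B := by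
  unfold trc
  rw [ContinuousLinearMap.toLinearMap_smul, map_smul, smul_eq_mul]

end ST

variable [Dim]

theorem st_of (kh : KH) (ke : KE) (cv : SCV) : SST := by
  intro G L hG
  obtain ⟨hL, -, iD, hM, gr⟩ := ke.lip hG
  set M : V →L[ℝ] V := ∫ x, fderiv ℝ G x ∂ga with hMd
  set N : V →L[ℝ] V := ContinuousLinearMap.adjoint M with hN
  have nN : ‖N‖ ≤ L := by
    rw [hN, LinearIsometryEquiv.norm_map]
    exact hM
  have cG : Continuous G := hG.c1.continuous
  have cD : Continuous (fderiv ℝ G) := hG.c1.continuous_fderiv one_ne_zero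
  have dG : Differentiable ℝ G := hG.c1.differentiable one_ne_zero
  have cN : Continuous fun x => N.comp (fderiv ℝ G x) := continuous_const.clm_comp cD
  have bN : ∀ x, ‖N.comp (fderiv ℝ G x)‖ ≤ L * L := fun x =>
    (N.opNorm_comp_le _).trans (mul_le_mul nN (hG.bd x) (norm_nonneg _) hL)
  have i1 : Integrable (fun x => trc (N.comp (fderiv ℝ G x))) ga :=
    (ST.tau N).integrable_comp iD
  have e1 : ∫ x, trc (N.comp (fderiv ℝ G x)) ∂ga = hs M :=
    ((ST.tau N).integral_comp_comm iD).trans (kh.self M)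
  have i2 : Integrable (fun x => hs (N.comp (fderiv ℝ G x))) ga := by
    refine ke.grow (dm * (L * L) ^ 2) (kh.cont.comp cN).aestronglyMeasurable fun x => ?_
    rw [Real.norm_of_nonneg (kh.nonneg _)]
    have a := kh.le (N.comp (fderiv ℝ G x))
    have b : ‖N.comp (fderiv ℝ G x)‖ ^ 2 ≤ (L * L) ^ 2 :=
      pow_le_pow_left₀ (norm_nonneg _) (bN x) 2
    have c : (dm : ℝ) * ‖N.comp (fderiv ℝ G x)‖ ^ 2 ≤ dm * (L * L) ^ 2 :=
      mul_le_mul_of_nonneg_left b (Nat.cast_nonneg _)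
    have d : 0 ≤ (dm : ℝ) * (L * L) ^ 2 * ‖x‖ ^ 2 := by positivity
    linarith
  have i3 : Integrable (fun x => ⟪M x, G x⟫) ga := by
    refine ke.grow (L * (‖G 0‖ + L)) (M.continuous.inner cG).aestronglyMeasurable fun x => ?_
    have a : ‖⟪M x, G x⟫‖ ≤ L * ‖x‖ * (‖G 0‖ + L * ‖x‖) :=
      (norm_inner_le_norm _ _).trans (mul_le_mul (M.le_of_opNorm_le hM x) (gr x)
        (norm_nonneg _) (by positivity))
    have b : 0 ≤ L * ‖G 0‖ * (1 + ‖x‖ ^ 2 - ‖x‖) :=
      mul_nonneg (by positivity) (by nlinarith [sq_nonneg (‖x‖ - 1), norm_nonneg x])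
    have c : 0 ≤ L * L := by positivity
    nlinarith
  have i4 : Integrable (fun x => ‖N (G x)‖ ^ 2) ga := by
    refine ke.grow (2 * L ^ 2 * (‖G 0‖ ^ 2 + L ^ 2))
      ((N.continuous.comp cG).norm.pow 2).aestronglyMeasurable fun x => ?_
    rw [Real.norm_of_nonneg (sq_nonneg _)]
    have a : ‖N (G x)‖ ≤ L * (‖G 0‖ + L * ‖x‖) :=
      (N.le_of_opNorm_le nN _).trans (mul_le_mul_of_nonneg_left (gr x) hL)
    have b : ‖N (G x)‖ ^ 2 ≤ (L * (‖G 0‖ + L * ‖x‖)) ^ 2 :=
      pow_le_pow_left₀ (norm_nonneg _) a 2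
    have c : 0 ≤ L ^ 2 * (‖G 0‖ - L * ‖x‖) ^ 2 := by positivity
    have d : 0 ≤ L ^ 2 * (‖G 0‖ ^ 2 * ‖x‖ ^ 2 + L ^ 2) := by positivity
    nlinarith
  have hp : 0 < 2 * (L * L + 1) := by positivity
  refine sub_nonpos.1 (ST.small (C := 5 * ∫ x, hs (N.comp (fderiv ℝ G x)) ∂ga +
    (∫ x, ‖N (G x)‖ ^ 2 ∂ga) / 2) (one_div_pos.2 hp) fun ε h0 h1 => ?_)
  have dZ : ∀ x, fderiv ℝ (fun x => (-ε) • N (G x)) x = (-ε) • N.comp (fderiv ℝ G x) := fun x =>
    ((N.hasFDerivAt.comp x (dG x).hasFDerivAt).const_smul (-ε)).fderiv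
  have lz : Lip (fun x => (-ε) • N (G x)) (1 / 2) := by
    refine ⟨(N.contDiff.comp hG.c1).const_smul (-ε), fun x => ?_⟩
    rw [dZ, norm_smul, norm_neg, Real.norm_of_nonneg h0.le]
    have a := mul_le_mul_of_nonneg_left (bN x) h0.le
    have b := (le_div_iff₀ hp).1 h1
    nlinarith
  have k := cv _ lz
  have ef : (fun x => -trc (fderiv ℝ (fun x => (-ε) • N (G x)) x) -
      5 * hs (fderiv ℝ (fun x => (-ε) • N (G x)) x) +
      (⟪x, (-ε) • N (G x)⟫ - ‖(-ε) • N (G x)‖ ^ 2 / 2)) = fun x =>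
      ε * trc (N.comp (fderiv ℝ G x)) - 5 * ε ^ 2 * hs (N.comp (fderiv ℝ G x)) -
        ε * ⟪M x, G x⟫ - ε ^ 2 / 2 * ‖N (G x)‖ ^ 2 := by
    funext x
    rw [dZ, ST.trc_smul, kh.smul, inner_smul_right, norm_smul, norm_neg,
      Real.norm_of_nonneg h0.le, ← M.adjoint_inner_right x (G x)]
    ring
  rw [ef] at k
  have j1 := i1.const_mul ε
  have j2 := i2.const_mul (5 * ε ^ 2)
  have j3 := i3.const_mul ε
  have j4 := i4.const_mul (ε ^ 2 / 2)
  have j12 : Integrable (fun x => ε * trc (N.comp (fderiv ℝ G x)) -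
      5 * ε ^ 2 * hs (N.comp (fderiv ℝ G x))) ga := j1.sub j2
  have j123 : Integrable (fun x => ε * trc (N.comp (fderiv ℝ G x)) -
      5 * ε ^ 2 * hs (N.comp (fderiv ℝ G x)) - ε * ⟪M x, G x⟫) ga := j12.sub j3
  have q := ke.jensen k (j123.sub j4)
  rw [integral_sub j123 j4, integral_sub j12 j3, integral_sub j1 j2, integral_const_mul,
    integral_const_mul, integral_const_mul, integral_const_mul, e1] at q
  refine le_of_mul_le_mul_left ?_ h0
  linarith

end Pool.Agent.MP_3ee8cb_gt.DF
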