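import Pool.Agent.MP_3ee8cb_gt.DF.Spec

/-! One step of the heat flow. -/

namespace Pool.Agent.MP_3ee8cb_gt.DF

open DN Set MeasureTheory ProbabilityTheory
open scoped RealInnerProductSpace

noncomputable section

variable [Dim]

namespace STEP

omit [Dim] in
theorem exp_sub_le {a u : ℝ} (ha : 0 ≤ a) (h0 : 0 ≤ u) (h1 : u ≤ 1) :
    Real.exp (a - u) ≤ Real.exp a - u / 2 := by
  have e1 : 1 + u ≤ Real.exp u := by linarith [Real.add_one_le_exp u]
  have e2 : 1 ≤ Real.exp a := Real.one_le_exp ha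
  have e3 : Real.exp (a - u) * Real.exp u = Real.exp a := by
    rw [← Real.exp_add]; congr 1; ring
  have e4 : 0 < Real.exp (a - u) := Real.exp_pos _
  have e5 : Real.exp (a - u) * (1 + u) ≤ Real.exp a := by
    rw [← e3]; exact mul_le_mul_of_nonneg_left e1 e4.le
  have e6 : Real.exp a ≤ (Real.exp a - u / 2) * (1 + u) := by
    have h2 : 0 ≤ u * (Real.exp a - 1) := mul_nonneg h0 (by linarith)
    have h3 : 0 ≤ u * (1 - u) := mul_nonneg h0 (by linarith)
    nlinarith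
  have e7 : 0 < 1 + u := by linarith
  exact le_of_mul_le_mul_right (e5.trans e6) e7

omit [Dim] in
theorem exp_le {v : ℝ} (h0 : 0 ≤ v) (h1 : v ≤ 1 / 2) : Real.exp v ≤ 1 + 2 * v := by
  have e1 : 1 - v ≤ Real.exp (-v) := by linarith [Real.add_one_le_exp (-v)]
  have e3 : Real.exp v * Real.exp (-v) = 1 := by
    rw [← Real.exp_add]; simp
  have e4 : 0 < Real.exp v := Real.exp_pos _
  have e5 : Real.exp v * (1 - v) ≤ 1 := by
    calc Real.exp v * (1 - v) ≤ Real.exp v * Real.exp (-v) :=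
          mul_le_mul_of_nonneg_left e1 e4.le
      _ = 1 := e3
  have e6 : 1 ≤ (1 + 2 * v) * (1 - v) := by nlinarith
  have e7 : 0 < 1 - v := by linarith
  exact le_of_mul_le_mul_right (e5.trans e6) e7

theorem lin (ke : KE) (p1 : SP1) (N : V → V) (l β : ℝ) (hN : Lip N l) (hβ : 0 ≤ β) (m : V) :
    EB (fun x => 8 * β * ⟪m, N x - ∫ y, N y ∂ga⟫) (80 * β ^ 2 * l ^ 2 * ‖m‖ ^ 2) := by
  obtain ⟨hl, hi, -, -, -⟩ := ke.lip hN
  set T : V →L[ℝ] ℝ := (8 * β) • innerSL ℝ m with hT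
  have hTa : ∀ v, T v = 8 * β * ⟪m, v⟫ := by
    intro v; simp [hT]
  have hTn : ‖T‖ ≤ 8 * β * ‖m‖ := by
    rw [hT, norm_smul, innerSL_apply_norm, Real.norm_eq_abs, abs_of_nonneg (by positivity)]
  have hc : ContDiff ℝ 1 (fun x => T (N x)) := T.contDiff.comp hN.c1
  have hint : Integrable (fun x => T (N x)) ga := T.integrable_comp hi
  have hd : ∀ x, 5 / 4 * ‖fderiv ℝ (fun x => T (N x)) x‖ ^ 2 ≤
      80 * β ^ 2 * l ^ 2 * ‖m‖ ^ 2 := by
    intro x
    have h1 : HasFDerivAt (fun x => T (N x)) (T.comp (fderiv ℝ N x)) x :=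
      T.hasFDerivAt.comp x ((hN.c1.differentiable (by norm_num)) x).hasFDerivAt
    rw [h1.fderiv]
    have h2 : ‖T.comp (fderiv ℝ N x)‖ ≤ 8 * β * ‖m‖ * l :=
      (T.opNorm_comp_le _).trans (mul_le_mul hTn (hN.bd x) (norm_nonneg _) (by positivity))
    have h3 := pow_le_pow_left₀ (norm_nonneg _) h2 2
    nlinarith
  have h := p1 (fun x => T (N x)) (fun _ => 80 * β ^ 2 * l ^ 2 * ‖m‖ ^ 2) _ hc hint hd
    (ke.const _)
  have he : (fun x => 8 * β * ⟪m, N x - ∫ y, N y ∂ga⟫) =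
      fun x => T (N x) - ∫ y, T (N y) ∂ga := by
    funext x
    rw [T.integral_comp_comm hi, ← map_sub, hTa]
  rw [he]
  exact h

theorem quad (kh : KH) (ke : KE) (p2 : SP2) (N : V → V) (l Λ b β : ℝ) (hN : Lip N l)
    (hl : l ^ 2 ≤ Λ) (hΛ : ∀ x, hs (fderiv ℝ N x) ≤ Λ) (hb : 2 * b * Λ ≤ 1) (hβ : 0 ≤ β)
    (hβb : 160 * β ≤ b) :
    EB (fun x => 4 * β * ‖N x - ∫ y, N y ∂ga‖ ^ 2 - 2 * b * hs (fderiv ℝ N x)) 0 := by
  have hb0 : 0 ≤ b := by linarith
  have hΛ0 : 0 ≤ Λ := (sq_nonneg l).trans hl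
  have hQc : Continuous fun x => hs (fderiv ℝ N x) :=
    kh.cont.comp (hN.c1.continuous_fderiv (by norm_num))
  have hQ0 : ∀ x, 0 ≤ hs (fderiv ℝ N x) := fun x => kh.nonneg _
  have hQi : Integrable (fun x => hs (fderiv ℝ N x)) ga := by
    refine (integrable_const Λ).mono' hQc.aestronglyMeasurable (Filter.Eventually.of_forall ?_)
    intro x
    rw [Real.norm_eq_abs, abs_of_nonneg (hQ0 x)]
    exact hΛ x
  set q : ℝ := ∫ x, hs (fderiv ℝ N x) ∂ga with hq
  have hq0 : 0 ≤ q := integral_nonneg hQ0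
  have hβΛ : 320 * (β * Λ) ≤ 1 := by nlinarith
  have hv : ∀ x, Real.exp (20 * (4 * β) * hs (fderiv ℝ N x)) ≤
      1 + 160 * β * hs (fderiv ℝ N x) := by
    intro x
    have h1 : β * hs (fderiv ℝ N x) ≤ β * Λ := mul_le_mul_of_nonneg_left (hΛ x) hβ
    have h2 : 0 ≤ β * hs (fderiv ℝ N x) := mul_nonneg hβ (hQ0 x)
    have h3 := exp_le (v := 20 * (4 * β) * hs (fderiv ℝ N x)) (by nlinarith) (by nlinarith)
    nlinarith
  have hri : Integrable (fun x => 1 + 160 * β * hs (fderiv ℝ N x)) ga :=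
    (integrable_const 1).add (hQi.const_mul _)
  have hvc : Continuous fun x => 20 * (4 * β) * hs (fderiv ℝ N x) := continuous_const.mul hQc
  have hvi : Integrable (fun x => Real.exp (20 * (4 * β) * hs (fderiv ℝ N x))) ga := by
    refine hri.mono' (Real.continuous_exp.comp hvc).aestronglyMeasurable
      (Filter.Eventually.of_forall ?_)
    intro x
    rw [Real.norm_eq_abs, abs_of_pos (Real.exp_pos _)]
    exact hv x
  have hpos : 0 < 1 + 160 * β * q := by positivity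
  have hE : EB (fun x => 20 * (4 * β) * hs (fderiv ℝ N x)) (Real.log (1 + 160 * β * q)) := by
    refine ke.of_int hvc.aemeasurable hvi ?_
    rw [Real.exp_log hpos]
    refine (integral_mono hvi hri hv).trans (le_of_eq ?_)
    rw [integral_add (integrable_const 1) (hQi.const_mul _), integral_const_mul]
    simp [hq]
  have hl2 : 10 * (4 * β) * l ^ 2 ≤ 1 := by
    have h1 : β * l ^ 2 ≤ β * Λ := mul_le_mul_of_nonneg_left hl hβ
    have h2 : 0 ≤ β * Λ := mul_nonneg hβ hΛ0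
    nlinarith
  have hA := p2 N l (4 * β) _ hN (by positivity) hl2 hE
  obtain ⟨hAi, hAle⟩ := ke.int hA
  rw [Real.exp_log hpos] at hAle
  have hw : ∀ x, Real.exp (4 * β * ‖N x - ∫ y, N y ∂ga‖ ^ 2 - 2 * b * hs (fderiv ℝ N x)) ≤
      Real.exp (4 * β * ‖N x - ∫ y, N y ∂ga‖ ^ 2) - b * hs (fderiv ℝ N x) := by
    intro x
    have h1 : b * hs (fderiv ℝ N x) ≤ b * Λ := mul_le_mul_of_nonneg_left (hΛ x) hb0
    have h2 : 0 ≤ b * hs (fderiv ℝ N x) := mul_nonneg hb0 (hQ0 x)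
    have h3 := exp_sub_le (a := 4 * β * ‖N x - ∫ y, N y ∂ga‖ ^ 2)
      (u := 2 * b * hs (fderiv ℝ N x)) (by positivity) (by nlinarith) (by nlinarith)
    nlinarith
  have hsi : Integrable (fun x => Real.exp (4 * β * ‖N x - ∫ y, N y ∂ga‖ ^ 2) -
      b * hs (fderiv ℝ N x)) ga := hAi.sub (hQi.const_mul _)
  have hwc : Continuous fun x => 4 * β * ‖N x - ∫ y, N y ∂ga‖ ^ 2 - 2 * b * hs (fderiv ℝ N x) :=
    (continuous_const.mul ((hN.c1.continuous.sub continuous_const).norm.pow 2)).sub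
      (continuous_const.mul hQc)
  have hwi : Integrable (fun x => Real.exp (4 * β * ‖N x - ∫ y, N y ∂ga‖ ^ 2 -
      2 * b * hs (fderiv ℝ N x))) ga := by
    refine hsi.mono' (Real.continuous_exp.comp hwc).aestronglyMeasurable
      (Filter.Eventually.of_forall ?_)
    intro x
    rw [Real.norm_eq_abs, abs_of_pos (Real.exp_pos _)]
    exact hw x
  refine ke.of_int hwc.aemeasurable hwi ?_
  refine (integral_mono hwi hsi hw).trans ?_
  rw [integral_sub hAi (hQi.const_mul _), integral_const_mul, Real.exp_zero, ← hq]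
  have h4 : 160 * β * q ≤ b * q := mul_le_mul_of_nonneg_right hβb hq0
  linarith

end STEP

theorem step_of (kh : KH) (ke : KE) (p1 : SP1) (p2 : SP2) : SSTEP := by
  intro N f l Λ b β θ γ hN hl hΛ hb hβ hβb hθ hθ2 hf
  have hA := STEP.lin ke p1 N l β hN hβ (∫ y, N y ∂ga)
  have hB := STEP.quad kh ke p2 N l Λ b β hN hl hΛ hb hβ hβb
  have h1 := ke.comb (1 / 2) (1 / 2) hA hB (by norm_num) (by norm_num) (by norm_num)
  have h2 := ke.comb θ (1 / 2) hf h1 hθ (by norm_num) (by linarith)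
  have h3 := ke.shift (β * ‖∫ y, N y ∂ga‖ ^ 2) h2
  have hQc : Continuous fun x => hs (fderiv ℝ N x) :=
    kh.cont.comp (hN.c1.continuous_fderiv (by norm_num))
  refine ke.mono h3 ?_ ?_ ?_
  · exact (((continuous_const.mul (hN.c1.continuous.norm.pow 2)).aemeasurable).add
      (hf.1.const_mul θ)).sub (continuous_const.mul hQc).aemeasurable
  · intro x
    have h4 : ‖N x‖ ^ 2 = ‖∫ y, N y ∂ga‖ ^ 2 + 2 * ⟪∫ y, N y ∂ga, N x - ∫ y, N y ∂ga⟫ +
        ‖N x - ∫ y, N y ∂ga‖ ^ 2 := by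
      rw [← norm_add_sq_real, add_sub_cancel]
    rw [h4]
    exact le_of_eq (by ring)
  · exact le_of_eq (by ring)

end

end Pool.Agent.MP_3ee8cb_gt.DF
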