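import Pool.Agent.MP_3ee8cb_gt.DF.Spec
import Pool.Agent.MP_3ee8cb_gt.DNA.Alg

/-! Linear algebra at one point. -/

namespace Pool.Agent.MP_3ee8cb_gt.DF

open DN Set
open scoped RealInnerProductSpace

variable [Dim]

namespace B73

theorem n0 (kh : KH) (B : V →L[ℝ] V) (hB : ‖B‖ ≤ 1) : ∃ N : V →L[ℝ] V,
    Real.exp (-(hs B / 8)) ≤ |N.det| ∧ ∀ u, ‖N u‖ ^ 2 ≤ ‖u‖ ^ 2 - 63 / 1024 * ‖B u‖ ^ 2 := by
  obtain ⟨C, hC⟩ : ∃ C, C = (ContinuousLinearMap.adjoint B).comp B := ⟨_, rfl⟩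
  have hA : ‖ContinuousLinearMap.adjoint B‖ ≤ 1 := by simpa using hB
  have c1 : ‖C‖ ≤ 1 := hC ▸ (ContinuousLinearMap.opNorm_comp_le _ _).trans
    (mul_le_one₀ hA (norm_nonneg _) hB)
  refine ⟨ContinuousLinearMap.id ℝ V - (1 / 32 : ℝ) • C, ?_, fun u => ?_⟩
  · refine le_trans (Real.exp_le_exp.2 ?_) (kh.det _ ?_)
    · have e : trc ((1 / 32 : ℝ) • C) = 1 / 32 * hs B := by
        rw [← kh.self, ← hC]
        simp [trc]
      have h1 : hs C ≤ hs B := by
        have := kh.left (ContinuousLinearMap.adjoint B) B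
        rw [← hC] at this
        nlinarith [kh.nonneg B, pow_le_one₀ (n := 2) (norm_nonneg _) hA]
      rw [e, kh.smul]
      linarith [kh.nonneg B]
    · rw [norm_smul, Real.norm_of_nonneg (by norm_num)]
      linarith
  · have e1 : ⟪u, C u⟫ = ‖B u‖ ^ 2 := by
      rw [hC, ContinuousLinearMap.comp_apply, ContinuousLinearMap.adjoint_inner_right,
        real_inner_self_eq_norm_sq]
    have e2 : ‖C u‖ ≤ ‖B u‖ := by
      rw [hC, ContinuousLinearMap.comp_apply]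
      exact (ContinuousLinearMap.le_opNorm _ _).trans (mul_le_of_le_one_left (norm_nonneg _) hA)
    have e3 := pow_le_pow_left₀ (norm_nonneg _) e2 2
    have e4 : (ContinuousLinearMap.id ℝ V - (1 / 32 : ℝ) • C) u = u - (1 / 32 : ℝ) • C u := rfl
    rw [e4, norm_sub_sq_real, real_inner_smul_right, e1, norm_smul,
      Real.norm_of_nonneg (by norm_num), mul_pow]
    linarith

theorem nb (p : V →L[ℝ] ℝ) (c : ℝ) (c0 : 0 ≤ c) (h : ∀ v, p v ^ 2 ≤ c * ‖v‖ ^ 2) :
    ‖p‖ ^ 2 ≤ c := by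
  have k : ‖p‖ ≤ √c := p.opNorm_le_bound (Real.sqrt_nonneg _) fun v => by
    rw [Real.norm_eq_abs, ← Real.sqrt_sq (norm_nonneg v), ← Real.sqrt_mul c0]
    exact Real.abs_le_sqrt (h v)
  exact (Real.le_sqrt (norm_nonneg _) c0).1 k

end B73

theorem alg_of' (kh : KH) : SALG := by
  intro A M B p K k r K1 k0 k8 hB hA h
  have bu : ∀ u, ‖B u‖ ≤ ‖u‖ := fun u =>
    (B.le_opNorm u).trans (mul_le_of_le_one_left (norm_nonneg _) hB)
  have h7 : ∀ e, 7 / 8 * ‖A e‖ ^ 2 ≤ ‖M e‖ ^ 2 - p (M e) ^ 2 := fun e => by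
    have a1 := mul_le_mul_of_nonneg_left (bu (A e)) (mul_nonneg k0 (norm_nonneg (A e)))
    have a2 := mul_le_mul_of_nonneg_right k8 (sq_nonneg ‖A e‖)
    linarith [(h e).2.2]
  have hM : M.det ≠ 0 := DNA.det_ne_zero M fun e he => DNA.inj_of_det A hA e (by
    have := h7 e
    rw [he] at this
    simp only [norm_zero, map_zero] at this
    exact norm_eq_zero.1 (by nlinarith [norm_nonneg (A e)]))
  obtain ⟨W, hW, hW'⟩ := DNA.exists_inv M hM
  have mw : ∀ v, M (W v) = v := by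
    first
      | exact hW
      | exact hW'
  have K0 : 0 < K := by linarith
  have t2 : ∀ v, ‖A (W v)‖ ^ 2 ≤ 2 * ‖v‖ ^ 2 := fun v => by
    have := h7 (W v)
    rw [mw] at this
    nlinarith [sq_nonneg (p v), sq_nonneg ‖v‖]
  have t3 : ∀ v, ‖A (W v)‖ ≤ 2 * ‖v‖ := fun v =>
    abs_le_of_sq_le_sq' (by nlinarith [t2 v, sq_nonneg ‖v‖]) (by positivity) |>.2
  refine ⟨?_, B73.nb p _ ?_ fun v => ?_, B73.nb p _ (by positivity) fun v => ?_, fun D hD => ?_⟩
  · obtain ⟨N, hN, hN'⟩ := B73.n0 kh B hB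
    obtain ⟨s, hs0⟩ : ∃ s, s = Real.exp (-(32 * k ^ 2)) := ⟨_, rfl⟩
    have s0 : 0 < s := hs0 ▸ Real.exp_pos _
    have s2 : s ^ 2 ≤ 1 - 32 * k ^ 2 := by
      have a1 := Real.add_one_le_exp (64 * k ^ 2)
      have a2 : s ^ 2 * Real.exp (64 * k ^ 2) = 1 := by
        rw [hs0, ← Real.exp_nat_mul, ← Real.exp_add]
        simp only [Real.exp_eq_one_iff]
        push_cast
        ring
      have a3 := mul_le_mul_of_nonneg_left a1 (sq_nonneg s)
      have a4 : k ^ 2 ≤ 1 / 64 := by nlinarith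
      by_contra hc
      have a5 := mul_lt_mul_of_pos_right (not_le.1 hc) (show 0 < 64 * k ^ 2 + 1 by positivity)
      nlinarith [mul_nonneg (sq_nonneg k) (show 0 ≤ 1 / 64 - k ^ 2 by linarith)]
    obtain ⟨q, hq⟩ : ∃ q, q = (InnerProductSpace.toDual ℝ V).symm p := ⟨_, rfl⟩
    have q1 : ∀ v, ⟪q, v⟫ = p v := fun v => by rw [hq, InnerProductSpace.toDual_symm_apply]
    have q2 : ‖q‖ = ‖p‖ := by rw [hq, LinearIsometryEquiv.norm_map]
    have k1 := DNA.det_le_sqrt ((s • N).comp A) M q fun e => by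
      rw [q1]
      refine le_trans ?_ (h e).2.2
      have e1 : ((s • N).comp A) e = s • N (A e) := rfl
      rw [e1, norm_smul, mul_pow, Real.norm_of_nonneg s0.le]
      have a1 := mul_le_mul s2 (hN' (A e)) (sq_nonneg _) ((sq_nonneg _).trans s2)
      have a2 := pow_le_pow_left₀ (norm_nonneg _) (bu (A e)) 2
      have a4 : k ^ 2 ≤ 1 / 64 := by nlinarith
      have a5 := mul_le_mul_of_nonneg_right a4 (sq_nonneg ‖B (A e)‖)
      nlinarith [sq_nonneg (32 * (k * ‖A e‖) - ‖B (A e)‖ / 2), sq_nonneg ‖B (A e)‖]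
    have e2 : ((s • N).comp A).det = s ^ dm * N.det * A.det := by
      have : (((s • N).comp A : V →L[ℝ] V) : V →ₗ[ℝ] V) =
          (s • (N : V →ₗ[ℝ] V)) ∘ₗ (A : V →ₗ[ℝ] V) := rfl
      rw [ContinuousLinearMap.det, this, LinearMap.det_comp, LinearMap.det_smul]
      simp [ContinuousLinearMap.det]
    rw [q2, e2, abs_mul, abs_mul, abs_of_pos (pow_pos s0 _)] at k1
    have e3 : Real.exp (-(hs B / 4)) = s ^ dm * Real.exp (-(hs B / 8)) *
        Real.exp (32 * dm * k ^ 2 - hs B / 8) := by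
      rw [hs0, ← Real.exp_nat_mul, ← Real.exp_add, ← Real.exp_add]
      congr 1
      ring
    have k2 : s ^ dm * Real.exp (-(hs B / 8)) * |A.det| ≤ s ^ dm * |N.det| * |A.det| := by
      gcongr
    rw [e3]
    have k3 := mul_le_mul_of_nonneg_right (k2.trans k1)
      (Real.exp_pos (32 * dm * k ^ 2 - hs B / 8)).le
    linarith
  · have : 1 / (2 * K ^ 2) ≤ 1 := by
      rw [div_le_one (by positivity)]
      nlinarith
    linarith
  · have a1 := h7 (W v)
    have a2 := pow_le_pow_left₀ (norm_nonneg _) (h (W v)).1 2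
    rw [mw] at a1 a2
    have a3 : 1 / (2 * K ^ 2) * ‖v‖ ^ 2 ≤ 1 / 2 * ‖A (W v)‖ ^ 2 := by
      rw [one_div_mul_eq_div, div_le_iff₀ (by positivity)]
      linarith
    nlinarith [sq_nonneg ‖A (W v)‖]
  · have a2 := pow_le_pow_left₀ (abs_nonneg _) (h (W v)).2.1 2
    rw [mw, sq_abs, mul_pow] at a2
    have a3 := mul_le_mul_of_nonneg_left (t2 v) (sq_nonneg (K * r))
    linarith
  · have d1 : ∀ v, ‖D v‖ ≤ K * ‖B (A (W v))‖ := fun v => by
      have := hD (W v)
      rwa [mw] at this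
    refine ⟨D.opNorm_le_bound (by positivity) fun v => (d1 v).trans ?_, ?_⟩
    · have := mul_le_mul_of_nonneg_left ((bu _).trans (t3 v)) K0.le
      linarith
    · have a1 := kh.mono D (K • B.comp (A.comp W)) fun v => by
        have e1 : (K • B.comp (A.comp W)) v = K • B (A (W v)) := rfl
        rw [e1, norm_smul, Real.norm_of_nonneg K0.le]
        exact d1 v
      have a2 := kh.right B (A.comp W)
      have a3 : ‖A.comp W‖ ≤ 2 := (A.comp W).opNorm_le_bound (by norm_num) t3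
      have a4 := mul_le_mul_of_nonneg_right (pow_le_pow_left₀ (norm_nonneg _) a3 2) (kh.nonneg B)
      have a5 := mul_le_mul_of_nonneg_left (a2.trans a4) (sq_nonneg K)
      rw [kh.smul] at a1
      linarith

end Pool.Agent.MP_3ee8cb_gt.DF
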