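import Pool.Agent.MP_3ee8cb_gt.DF.Spec

/-! Young's inequality at one point. -/

namespace Pool.Agent.MP_3ee8cb_gt.DF

open DN Real

namespace HOL

theorem bern {P t : ℝ} (hP : 1 ≤ P) (h1 : t < 1) (h2 : P * t < 1) :
    log (1 - P * t) ≤ P * log (1 - t) := by
  have h := one_add_mul_self_le_rpow_one_add (s := -t) (p := P) (by linarith) hP
  rw [← log_rpow (by linarith)]
  refine log_le_log (by linarith) ?_
  rw [sub_eq_add_neg 1 t]
  linarith

theorem quot {u w : ℝ} (n : ℕ) (hu : 0 < u) (hw : 0 < w) :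
    √u / √w ^ n = exp (log u / 2 - n * (log w / 2)) := by
  rw [exp_sub, exp_nat_mul, ← log_sqrt hu.le, ← log_sqrt hw.le, exp_log (sqrt_pos.2 hu),
    exp_log (sqrt_pos.2 hw)]

theorem low {y x : ℝ} (hx : 0 < x) (hy : x ≤ 1 - y) (h0 : 0 ≤ y) : -(y / x) ≤ log (1 - y) := by
  have p : 0 < 1 - y := by linarith
  have h := one_sub_inv_le_log_of_pos p
  have e : 1 - (1 - y)⁻¹ = -(y / (1 - y)) := by
    field_simp
    ring
  rw [e] at h
  exact (neg_le_neg (div_le_div_of_nonneg_left h0 hx hy)).trans h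

end HOL

variable [Dim]

theorem sHOL : SHOL := by
  intro x g τ R U Q hx hx' hτ hg hR hQ
  have g0 : 0 ≤ g ^ 2 := sq_nonneg g
  have t0 : 0 ≤ τ ^ 2 := sq_nonneg τ
  have P0 : 0 < 1 + x := by linarith
  have a1 : x ≤ 1 - (1 + x) * g ^ 2 := by nlinarith
  have a2 : (1 + x) * τ ^ 2 ≤ (1 + x) * g ^ 2 := mul_le_mul_of_nonneg_left hτ P0.le
  rw [HOL.quot dm (by linarith) (by linarith), HOL.quot dm (by linarith) (by linarith), ← exp_add]
  have cv := convexOn_exp.2 (Set.mem_univ (log (1 - (1 + x) * g ^ 2) / 2 -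
    dm * (log (1 - (1 + x) * τ ^ 2) / 2))) (Set.mem_univ ((1 + x) / x * U - Q))
    (one_div_pos.2 P0).le (div_pos hx P0).le (by field_simp)
  simp only [smul_eq_mul] at cv
  refine (exp_le_exp.2 ?_).trans cv
  have b1 := HOL.bern (P := 1 + x) (t := τ ^ 2) (by linarith) (by linarith) (by linarith)
  have b2 := HOL.low hx a1 (by positivity)
  have b3 : log (1 - g ^ 2) ≤ 0 := log_nonpos (by linarith) (by linarith)
  have b4 : (1 + x) * g ^ 2 / x ≤ (1 + x) * R := by
    rw [div_le_iff₀ hx]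
    nlinarith
  have R0 : 0 ≤ R := by
    by_contra h
    nlinarith
  have n0 : (0 : ℝ) ≤ dm := Nat.cast_nonneg _
  have b5 := mul_le_mul_of_nonneg_left b1 n0
  refine le_of_mul_le_mul_left ?_ P0
  have e : (1 + x) * (1 / (1 + x) * (log (1 - (1 + x) * g ^ 2) / 2 -
      dm * (log (1 - (1 + x) * τ ^ 2) / 2)) + x / (1 + x) * ((1 + x) / x * U - Q)) =
      log (1 - (1 + x) * g ^ 2) / 2 - dm * (log (1 - (1 + x) * τ ^ 2) / 2) + (1 + x) * U -
        x * Q := by
    field_simp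
    ring
  rw [e]
  nlinarith [mul_nonneg P0.le (neg_nonneg.2 b3), mul_nonneg P0.le R0]

end Pool.Agent.MP_3ee8cb_gt.DF
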