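import Pool.Agent.MP_3ee8cb_gt.DF.Spec
import Pool.Agent.MP_3ee8cb_gt.DNWI.Base

/-! The logarithm does not increase lengths. -/

namespace Pool.Agent.MP_3ee8cb_gt.DF

open DN Filter Topology

variable [Dim]

namespace DER

variable {m : MF} {lg : V × V → V}

theorem dif (hl : m.Had lg) (o y : V) :
    HasFDerivAt (fun z => lg (o, z)) (fderiv ℝ (fun z => lg (o, z)) y) y :=
  ((hl.c1.comp (contDiff_const.prodMk contDiff_id)).differentiable one_ne_zero y).hasFDerivAt

/-- The logarithm along a geodesic from `y`. -/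
theorem le (ho : m.OK) (hj : m.Jac) (hl : m.Had lg) (o y u : V) :
    ‖fderiv ℝ (fun z => lg (o, z)) y u‖ ≤ ‖m.S y u‖ := by
  have h1 : HasDerivAt (fun t => (m.Z t (y, m.S y u)).1) u 0 := by
    have h := (ho.ode (y, m.S y u) 0).fst
    rwa [ho.zero, MF.vf, ho.RS] at h
  have h2 : HasDerivAt (fun t => lg (o, (m.Z t (y, m.S y u)).1))
      (fderiv ℝ (fun z => lg (o, z)) y u) 0 :=
    HasFDerivAt.comp_hasDerivAt_of_eq 0 (dif hl o y) h1 (by rw [ho.zero])
  refine le_of_tendsto h2.tendsto_slope_zero.norm ?_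
  filter_upwards [self_mem_nhdsWithin] with t ht
  have h3 := DNWI.hinge' hl o y (m.Z t (y, m.S y u)).1
  rw [DNWI.lg_ray hj hl t (y, m.S y u), norm_sub_rev, norm_smul] at h3
  rw [zero_add, ho.zero, norm_smul, norm_inv]
  exact (inv_mul_le_iff₀ (norm_pos_iff.2 ht)).2 h3

end DER

theorem sDER : SDER := by
  intro m lg σ o ho hj hl hf
  refine ⟨⟨(hl.c1.comp_contDiffOn (contDiffOn_const.prodMk hf.c1.fst)), fun r a hr ha => ?_⟩,
    fun v e hv => ?_⟩
  · rw [hf.hom r a hr ha]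
  · have h := ((DER.dif hl o (σ v).1).comp v (DNWI.front_diff hf hv).hasFDerivAt.fst).fderiv
    have h' : fderiv ℝ (fun v => lg (o, (σ v).1)) v e =
        fderiv ℝ (fun z => lg (o, z)) (σ v).1 (fderiv ℝ σ v e).1 :=
      congrArg (fun L : V →L[ℝ] V => L e) h
    rw [h']
    exact DER.le ho hj hl o _ _

end Pool.Agent.MP_3ee8cb_gt.DF
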