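import Pool.Agent.MP_3ee8cb_gt.DF.Spec

/-! The choice of the constants. -/

namespace Pool.Agent.MP_3ee8cb_gt.DF

open DN

/-- Constants that do not depend on the dimension. -/
theorem consts {c K : ℝ} (hc : 0 < c) (hK : 1 ≤ K) : ∃ (δ s b : ℝ) (n₀ : ℕ), 0 < δ ∧ δ ≤ 1 ∧
    c * δ ≤ 1 / 12 ∧ 0 ≤ b ∧ 1280 * b ≤ s ∧ 1400 * s * (2 * K + 6) ^ 2 ≤ 1 ∧
    s ≤ 2 * (1 / (32 * K ^ 2)) ∧ ∀ n : ℕ, n₀ ≤ n → b + 4 * (1 / (32 * K ^ 2)) ≤ b / 2 * n ∧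
      (1 + 4 * K ^ 2) * (32 * n * (c * δ) ^ 2 + 8 * K ^ 4) ≤ b / 2 * n := by
  have K0 : 0 < K := by linarith
  obtain ⟨s, s0, s1, s2⟩ : ∃ s : ℝ, 0 < s ∧ 1400 * s * (2 * K + 6) ^ 2 ≤ 1 ∧
      s ≤ 2 * (1 / (32 * K ^ 2)) := by
    have p : 0 < 1400 * (2 * K + 6) ^ 2 := by positivity
    refine ⟨min (1 / (1400 * (2 * K + 6) ^ 2)) _, ?_, ?_, min_le_right _ _⟩
    · positivity
    · have := (le_div_iff₀ p).1 (min_le_left (1 / (1400 * (2 * K + 6) ^ 2))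
        (2 * (1 / (32 * K ^ 2))))
      linarith
  obtain ⟨b, b0, b1⟩ : ∃ b : ℝ, 0 < b ∧ 1280 * b ≤ s := ⟨s / 1280, by positivity, by linarith⟩
  obtain ⟨k, k0, k1, k2⟩ : ∃ k : ℝ, 0 < k ∧ k ≤ 1 / 12 ∧ (1 + 4 * K ^ 2) * 32 * k ≤ b / 4 := by
    have p : 0 < (1 + 4 * K ^ 2) * 32 := by positivity
    refine ⟨min (1 / 12) (b / 4 / ((1 + 4 * K ^ 2) * 32)), by positivity, min_le_left _ _, ?_⟩
    have := (le_div_iff₀ p).1 (min_le_right (1 / 12) (b / 4 / ((1 + 4 * K ^ 2) * 32)))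
    linarith
  obtain ⟨δ, d0, d1, d2⟩ : ∃ δ : ℝ, 0 < δ ∧ δ ≤ 1 ∧ c * δ ≤ k := by
    refine ⟨min 1 (k / c), by positivity, min_le_left _ _, ?_⟩
    have := (le_div_iff₀ hc).1 (min_le_right 1 (k / c))
    linarith
  obtain ⟨n₀, hn⟩ := exists_nat_ge (max ((b + 4 * (1 / (32 * K ^ 2))) / (b / 2))
    ((1 + 4 * K ^ 2) * (8 * K ^ 4) / (b / 4)))
  refine ⟨δ, s, b, n₀, d0, d1, d2.trans k1, b0.le, b1, s1, s2, fun n h => ?_⟩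
  have h1 : (n₀ : ℝ) ≤ n := by exact_mod_cast h
  have e1 := (div_le_iff₀ (by positivity)).1 (((le_max_left _ _).trans hn).trans h1)
  have e2 := (div_le_iff₀ (by positivity)).1 (((le_max_right _ _).trans hn).trans h1)
  have c0 : 0 < c * δ := by positivity
  have e3 : (c * δ) ^ 2 ≤ k := by nlinarith
  have e4 := mul_le_mul_of_nonneg_left e3 (by positivity : 0 ≤ (1 + 4 * K ^ 2) * 32)
  have e5 := mul_le_mul_of_nonneg_left (e4.trans k2) (Nat.cast_nonneg (α := ℝ) n)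
  exact ⟨by linarith, by linarith⟩

/-- The fibre inequality in high dimensions. -/
theorem fi_high (str : ∃ c K : ℝ, 0 < c ∧ 1 ≤ K ∧ ∀ [Dim], STRP c K) (kso : ∀ [Dim], SKSO)
    (gib : ∀ [Dim], SGIB) (geo : ∀ [Dim], SGEO) :
    ∃ (δ : ℝ) (n₀ : ℕ), 0 < δ ∧ ∀ [Dim], n₀ ≤ dm → SFI δ := by
  obtain ⟨c, K, hc, hK, str⟩ := str
  obtain ⟨δ, s, b, n₀, d0, d1, d2, b0, b1, s1, s2, h⟩ := consts hc hK
  refine ⟨δ, n₀, d0, fun hn => geo c K δ hc.le d0.le d1 str ?_⟩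
  exact gib K (c * δ) (b / 2) hK (by positivity) d2 (h _ hn).2
    (kso _ _ s b b0 b1 s1 s2 (h _ hn).1)

theorem main_anti [Dim] {δ δ' : ℝ} (h : δ' ≤ δ) (A : MainN δ) : MainN δ' := by
  intro g h _ C' Γ Λ _ _ _ _ Φ Ψ ρ F qg qh c c' dΓ dΛ cj a hi ha hhi
  exact A g h _ C' Γ Λ Φ Ψ ρ F qg qh c c' dΓ dΛ cj a hi ha
    (hhi.trans (mul_le_mul_of_nonneg_right (by linarith) (sq_nonneg a)))

/-- One constant for all dimensions. -/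
theorem unif {P : Dim → ℝ → Prop} (anti : ∀ d δ δ', δ' ≤ δ → P d δ → P d δ')
    (low : ∀ d, ∃ δ, 0 < δ ∧ P d δ) (n₀ : ℕ) {δ : ℝ} (hδ : 0 < δ)
    (high : ∀ d, n₀ ≤ @dm d → P d δ) : ∃ δ, 0 < δ ∧ ∀ d, P d δ := by
  induction n₀ generalizing δ with
  | zero => exact ⟨δ, hδ, fun d => high d (Nat.zero_le _)⟩
  | succ n ih =>
    obtain ⟨ε, hε, h⟩ := low ⟨n - 3⟩
    refine ih (lt_min hδ hε) fun d hd => ?_
    rcases hd.lt_or_eq with k | k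
    · exact anti _ _ _ (min_le_left _ _) (high d k)
    · obtain ⟨j⟩ := d
      obtain rfl : n = j + 3 := k
      exact anti _ _ _ (min_le_right _ _) h

theorem main_of (low : ∀ [Dim], ∃ δ, 0 < δ ∧ MainN δ) (top : ∀ [Dim], STOP)
    (fi : ∃ (δ : ℝ) (n₀ : ℕ), 0 < δ ∧ ∀ [Dim], n₀ ≤ dm → SFI δ) :
    ∃ δ, 0 < δ ∧ ∀ [Dim], MainN δ := by
  obtain ⟨δ, n₀, hδ, fi⟩ := fi
  exact unif (P := fun d δ => @MainN d δ) (fun _ _ _ h A => main_anti h A) (fun d => @low d) n₀ hδ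
    fun d hd => @top d δ (@fi d hd)

end Pool.Agent.MP_3ee8cb_gt.DF
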