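import Pool.Agent.MP_3ee8cb_gt.DF.Spec
import Pool.Agent.MP_3ee8cb_gt.DN.One

/-! From the geometry of a front to the abstract data. -/

namespace Pool.Agent.MP_3ee8cb_gt.DF

open DN Set MeasureTheory
open scoped RealInnerProductSpace

theorem GEO.ratio {x y : ℝ} (hy : 0 ≤ y) (h : y ≤ x) : ∃ β, 0 ≤ β ∧ β ≤ 1 ∧ β * x = y := by
  rcases (hy.trans h).eq_or_lt with h0 | h0
  · exact ⟨0, le_rfl, zero_le_one, by linarith⟩
  · exact ⟨y / x, by positivity, (div_le_one h0).2 h, by field_simp⟩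

variable [Dim]

theorem geo_of (kh : KH) (ce : SCEN) (de : SDER) : SGEO := by
  intro c K δ _ hδ δ1 tr gib m lg σ a ho hj hl hf ha u0 u1 d1 hd hb
  have sub : {v : V | ‖v‖ = 1} ⊆ {v | v ≠ 0} := fun v hv => DNWI.ne_of_norm hv
  have cσ := hf.c1.continuousOn.mono sub
  have cd := (hf.c1.continuousOn_fderiv_of_isOpen isOpen_ne le_rfl).mono sub
  have cA : ContinuousOn (m.A σ) {v | ‖v‖ = 1} := ((SC.c_hor ho).comp_continuousOn cσ).clm_comp cd
  have cA' : ContinuousOn (m.A' σ) {v | ‖v‖ = 1} :=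
    ((SC.c_ver ho).comp_continuousOn cσ).clm_comp cd
  have cB : ContinuousOn (fun v => a • m.B σ v) {v | ‖v‖ = 1} :=
    (cA.clm_comp (DN.c_inv cA' fun v hv => (hb v hv).1)).const_smul a
  have cy : ContinuousOn (fun v => |(m.A' σ v).det|) {v | ‖v‖ = 1} :=
    (ContinuousLinearMap.continuous_det.comp_continuousOn cA').abs
  have cν : ContinuousOn (fun v => |(m.A' σ v).det| * Real.exp (-(hs (a • m.B σ v) / 4)))
      {v | ‖v‖ = 1} :=
    cy.mul (Real.continuous_exp.comp_continuousOn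
      ((kh.cont.comp_continuousOn cB).div_const 4).neg)
  obtain ⟨o, o1, o2⟩ := ce m lg σ _ (3 / 2 / a) ho hj hl hf cν
    (fun v hv => mul_pos (abs_pos.2 (hb v hv).1) (Real.exp_pos _))
    fun v v' hv hv' => by
      rw [le_div_iff₀ ha, mul_comm]
      exact hd v v' hv hv'
  have nF : ∀ v, ‖a • lg (o, (σ v).1)‖ = a * ‖lg ((σ v).1, o)‖ := fun v => by
    rw [norm_smul, Real.norm_eq_abs, abs_of_pos ha, DNWI.lg_symm hj hl]
  have bF : ∀ v, ‖v‖ = 1 → a * ‖lg ((σ v).1, o)‖ ≤ 3 / 2 := fun v hv => by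
    have k := o1 v hv
    rwa [le_div_iff₀ ha, mul_comm, DNWI.lg_symm hj hl] at k
  obtain ⟨t, ξ, ds, e₁⟩ := tr δ hδ δ1 m lg σ a ho hj hl hf ha u0 u1 d1 o bF
  obtain ⟨h0, dF⟩ := de m lg σ o ho hj hl hf
  have nB : ∀ v, ‖v‖ = 1 → ‖a • m.B σ v‖ ≤ 1 := fun v hv => by
    rw [norm_smul, Real.norm_eq_abs, abs_of_pos ha]
    exact (hb v hv).2
  refine gib t ξ (fun v => a • lg (o, (σ v).1)) (m.A' σ) (fun v => a • m.B σ v)
    ⟨ds, ⟨h0.c1.const_smul a, fun r v hr hv => congrArg (a • ·) (h0.hom r v hr hv)⟩, cA', cB,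
      fun v hv => ⟨(hb v hv).1, nB v hv, (nF v).trans_le (bF v hv), (e₁ v hv).1⟩,
      fun v e hv => ?_, fun w => ?_⟩
  · have eB : ‖(a • m.B σ v) (m.A' σ v e)‖ = a * ‖m.A σ v e‖ := by
      rw [smul_apply, B_app (hb v hv).1, norm_smul, Real.norm_eq_abs, abs_of_pos ha]
    have le : a * ‖m.A σ v e‖ ≤ ‖m.A' σ v e‖ := by
      rw [← eB]
      refine ((a • m.B σ v).le_opNorm _).trans ?_
      nlinarith [nB v hv, norm_nonneg (m.A' σ v e)]
    obtain ⟨β, b0, b1, hβ⟩ := GEO.ratio (by positivity) le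
    obtain ⟨k1, k2, k3⟩ := (e₁ v hv).2 e β b0 b1 hβ.ge
    have df : DifferentiableAt ℝ (fun v => lg (o, (σ v).1)) v :=
      (h0.c1.contDiffAt (isOpen_ne.mem_nhds (sub hv))).differentiableAt one_ne_zero
    refine ⟨?_, k1, by rwa [nF], ?_⟩
    · rw [eB, (df.hasFDerivAt.fun_const_smul a).fderiv, smul_apply, norm_smul, Real.norm_eq_abs,
        abs_of_pos ha]
      exact mul_le_mul_of_nonneg_left (dF v e (sub hv)) ha.le
    · refine le_of_eq_of_le ?_ k3
      rw [eB, nF, ← hβ]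
      ring
  · have k := mul_le_mul_of_nonneg_left (o2 (a⁻¹ • w)) (sq_nonneg a)
    rw [← sph_mul, ← sph_mul] at k
    refine (sph_congr fun v _ => ?_).trans_le (k.trans_eq (sph_congr fun v _ => ?_))
    · rw [norm_smul, Real.norm_eq_abs, mul_pow, sq_abs]
      ring
    · have e : a • lg (o, (σ v).1) - w = a • (lg (o, (σ v).1) - a⁻¹ • w) := by
        rw [smul_sub, smul_inv_smul₀ ha.ne']
      rw [e, norm_smul, Real.norm_eq_abs, mul_pow, sq_abs]
      ring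

end Pool.Agent.MP_3ee8cb_gt.DF
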