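import Pool.Agent.MP_3ee8cb_gt.DF.Spec
import Pool.Agent.MP_3ee8cb_gt.DN.One

/-! The fibre inequality for abstract data. -/

namespace Pool.Agent.MP_3ee8cb_gt.DF

open DN Set MeasureTheory
open scoped RealInnerProductSpace

variable [Dim]

namespace GIB

theorem sph_add {f g : V → ℝ} (hf : ContinuousOn f {a | ‖a‖ = 1})
    (hg : ContinuousOn g {a | ‖a‖ = 1}) : sph (fun a => f a + g a) = sph f + sph g :=
  integral_add (sph_int hf) (sph_int hg)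

theorem sub1 : {v : V | ‖v‖ = 1} ⊆ {v | v ≠ 0} := fun _ hv => DNWI.ne_of_norm hv

theorem det_ne {A M B : V →L[ℝ] V} {c : ℝ} {q : V → ℝ} (hc : c ≤ 1 / 8) (hB : ‖B‖ ≤ 1)
    (hA : A.det ≠ 0) (h : ∀ e, ‖A e‖ ^ 2 - c * ‖A e‖ * ‖B (A e)‖ ≤ ‖M e‖ ^ 2 - q e ^ 2) :
    M.det ≠ 0 := by
  intro h0
  have h1 : LinearMap.ker (M : V →ₗ[ℝ] V) ≠ ⊥ := LinearMap.det_eq_zero_iff_ker_ne_bot.1 h0
  obtain ⟨e, he, hne⟩ := Submodule.exists_mem_ne_zero_of_ne_bot h1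
  have hM : M e = 0 := he
  have h2 := h e
  rw [hM, norm_zero] at h2
  have h3 : ‖B (A e)‖ ≤ ‖A e‖ := (B.le_opNorm _).trans (by nlinarith [norm_nonneg (A e)])
  have h4 : c * ‖A e‖ * ‖B (A e)‖ ≤ 1 / 8 * (‖A e‖ * ‖A e‖) := by
    have := mul_le_mul_of_nonneg_left h3 (norm_nonneg (A e))
    have h5 : 0 ≤ ‖A e‖ * ‖B (A e)‖ := by positivity
    nlinarith
  have h5 : ‖A e‖ = 0 := by nlinarith [sq_nonneg (q e), norm_nonneg (A e)]
  apply hA
  refine LinearMap.det_eq_zero_iff_ker_ne_bot.2 fun hb => hne ?_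
  have : e ∈ LinearMap.ker (A : V →ₗ[ℝ] V) := norm_eq_zero.1 h5
  rw [hb] at this
  exact this

theorem num (ho : SHOL) {K k μ y d g τ N r s q h : ℝ} (hK : 1 ≤ K)
    (hμ : (1 + 4 * K ^ 2) * (32 * dm * k ^ 2 + 8 * K ^ 4) ≤ μ * dm) (hy : 0 ≤ y) (hd : 0 ≤ d)
    (hN : 1 ≤ N) (hτ : √(1 - τ ^ 2) = N⁻¹) (hq : 0 ≤ q) (hs : 0 ≤ s) (h1 : τ ^ 2 ≤ g ^ 2)
    (h2 : g ^ 2 ≤ 1 - 1 / (2 * K ^ 2)) (h3 : g ^ 2 ≤ 2 * K ^ 2 * r ^ 2) (h4 : h ≤ 4 * K ^ 2 * q)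
    (h5 : y ≤ d * √(1 - g ^ 2) * Real.exp (32 * dm * (k * r) ^ 2 - q / 8)) :
    y + (32 * dm * k ^ 2 + 8 * K ^ 4) * (y * s - y * r ^ 2) ≤ d / N ^ dm *
      (1 / (1 + 1 / (4 * K ^ 2)) * (√(1 - (1 + 1 / (4 * K ^ 2)) * g ^ 2) /
        √(1 - (1 + 1 / (4 * K ^ 2)) * τ ^ 2) ^ dm) +
      1 / (4 * K ^ 2) / (1 + 1 / (4 * K ^ 2)) *
        Real.exp (μ * dm * s - 1 / (32 * K ^ 2) * h)) := by
  have K0 : 0 < K := by linarith
  have K2 : 1 ≤ K ^ 2 := by nlinarith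
  set l : ℝ := 32 * dm * k ^ 2 + 8 * K ^ 4 with hl
  set x : ℝ := 1 / (4 * K ^ 2) with hx
  have x0 : 0 < x := by positivity
  have x1 : x ≤ 1 / 4 := one_div_le_one_div_of_le (by norm_num) (by linarith)
  have e := ho x g τ (8 * K ^ 4 * r ^ 2) (l * s) (q / 8) x0 x1 h1
    (h2.trans_eq (by rw [hx]; field_simp; ring)) (h3.trans_eq (by rw [hx]; field_simp; ring))
    (by positivity)
  have N0 : 0 < N ^ dm := by positivity
  have e1 : y + l * (y * s - y * r ^ 2) ≤ y * Real.exp (l * (s - r ^ 2)) := by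
    nlinarith [mul_le_mul_of_nonneg_left (Real.add_one_le_exp (l * (s - r ^ 2))) hy]
  have e2 : y * Real.exp (l * (s - r ^ 2)) ≤ d / N ^ dm * (√(1 - g ^ 2) / √(1 - τ ^ 2) ^ dm *
      Real.exp (l * s - 8 * K ^ 4 * r ^ 2 - q / 8)) := by
    refine (mul_le_mul_of_nonneg_right h5 (Real.exp_pos _).le).trans_eq ?_
    have : l * s - 8 * K ^ 4 * r ^ 2 - q / 8 =
        32 * dm * (k * r) ^ 2 - q / 8 + l * (s - r ^ 2) := by rw [hl]; ring
    rw [this, Real.exp_add, hτ, inv_pow]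
    field_simp
  have e3 : Real.exp ((1 + x) / x * (l * s) - q / 8) ≤
      Real.exp (μ * dm * s - 1 / (32 * K ^ 2) * h) := by
    refine Real.exp_le_exp.2 (sub_le_sub ?_ ?_)
    · have : (1 + x) / x = 1 + 4 * K ^ 2 := by rw [hx]; field_simp; ring
      rw [this, ← mul_assoc]
      exact mul_le_mul_of_nonneg_right hμ hs
    · refine (mul_le_mul_of_nonneg_left h4 (by positivity)).trans_eq ?_
      field_simp
      ring
  refine e1.trans (e2.trans (mul_le_mul_of_nonneg_left (e.trans ?_) (by positivity)))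
  have := mul_le_mul_of_nonneg_left e3 (by positivity : 0 ≤ x / (1 + x))
  linarith

end GIB

open GIB in
theorem gib_of (kh : KH) (al : SALG) (ho : SHOL) (pu : SPULL) (sg : DN.SG) : SGIB := by
  intro K k μ hK k0 k1 hμ ks t ξ F A B d
  have K0 : 0 < K := by linarith
  have K2 : 1 ≤ K ^ 2 := by nlinarith
  have kr : ∀ v, ‖v‖ = 1 → k * ‖F v‖ ≤ 1 / 8 := fun v hv =>
    (mul_le_mul k1 (d.pt v hv).2.2.1 (norm_nonneg _) (by norm_num)).trans (by norm_num)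
  have hdet : ∀ v, ‖v‖ = 1 → (fderiv ℝ ξ v).det ≠ 0 := fun v hv =>
    det_ne (kr v hv) (d.pt v hv).2.1 (d.pt v hv).1 fun e => (d.der v e hv).2.2.2
  obtain ⟨τ, G, hτ, hG, cov, su, pt⟩ := pu t ξ F d.ds d.hF hdet
  have a := fun v (hv : ‖v‖ = 1) => al (A v) (fderiv ℝ ξ v) (B v)
    (fderiv ℝ τ (‖ξ v‖⁻¹ • ξ v)) K (k * ‖F v‖) ‖F v‖ hK (by positivity) (kr v hv)
    (d.pt v hv).2.1 (d.pt v hv).1 fun e => by
      rw [((pt v hv).2.2.2 e).1]
      exact (d.der v e hv).2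
  have aD : ∀ v, ‖v‖ = 1 → ‖fderiv ℝ G (‖ξ v‖⁻¹ • ξ v)‖ ≤ 2 * K ∧
      hs (fderiv ℝ G (‖ξ v‖⁻¹ • ξ v)) ≤ 4 * K ^ 2 * hs (B v) := fun v hv =>
    (a v hv).2.2.2 _ fun e => by
      rw [((pt v hv).2.2.2 e).2, norm_smul, norm_norm]
      exact mul_le_mul (d.pt v hv).2.2.2 (d.der v e hv).1 (norm_nonneg _) K0.le
  obtain ⟨w, hw⟩ := ks G hG fun u hu => by
    obtain ⟨v, hv, rfl⟩ := (su u hu).2
    exact ⟨by rw [(pt v hv).2.1]; exact (d.pt v hv).2.2.1, (aD v hv).1⟩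
  have un : ∀ v, ‖v‖ = 1 → ‖‖ξ v‖⁻¹ • ξ v‖ = 1 := fun v hv =>
    norm_smul_inv_norm (𝕜 := ℝ) (norm_pos_iff.1 (by linarith [(pt v hv).1]))
  have t2 : ∀ u, ‖u‖ = 1 → τ u ^ 2 ≤ ‖fderiv ℝ τ u‖ ^ 2 := fun u hu => by
    rw [← sq_abs (τ u)]
    exact pow_le_pow_left₀ (abs_nonneg _) (su u hu).1 2
  set x : ℝ := 1 / (4 * K ^ 2) with hx
  have x0 : 0 < x := by positivity
  have g1 : ∀ u, ‖u‖ = 1 → (1 + x) * ‖fderiv ℝ τ u‖ ^ 2 < 1 := fun u hu => by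
    obtain ⟨v, hv, rfl⟩ := (su u hu).2
    have h := (a v hv).2.1
    have : 1 / (2 * K ^ 2) = 2 * x := by rw [hx]; field_simp; ring
    rw [this] at h
    nlinarith [mul_le_mul_of_nonneg_left h (by linarith : 0 ≤ 1 + x)]
  have sq : √(1 + x) ^ 2 = 1 + x := Real.sq_sqrt (by linarith)
  have dτ : ∀ u, ‖u‖ = 1 → ‖fderiv ℝ (fun a => √(1 + x) * τ a) u‖ ^ 2 =
      (1 + x) * ‖fderiv ℝ τ u‖ ^ 2 := fun u hu => by
    rw [fderiv_const_mul ((hτ.c1.contDiffAt (isOpen_ne.mem_nhds (sub1 hu))).differentiableAt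
      one_ne_zero), norm_smul, mul_pow, Real.norm_eq_abs, sq_abs, sq]
  have s1 := sg (fun a => √(1 + x) * τ a)
    ⟨contDiffOn_const.mul hτ.c1, fun r a hr ha => by
      rw [hτ.hom r a hr ha, smul_eq_mul, smul_eq_mul]; ring⟩
    fun u hu => by
      have := g1 u hu
      rw [← dτ u hu] at this
      exact (sq_lt_one_iff₀ (norm_nonneg _)).1 this
  have s1' : sph (fun a => √(1 - (1 + x) * ‖fderiv ℝ τ a‖ ^ 2) /
      √(1 - (1 + x) * τ a ^ 2) ^ dm) ≤ sph fun _ => 1 := by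
    refine (sph_congr fun u hu => ?_).trans_le s1
    rw [dτ u hu, mul_pow, sq]
  have cτ := hτ.c1.continuousOn.mono sub1
  have cdτ := (hτ.c1.continuousOn_fderiv_of_isOpen isOpen_ne le_rfl).mono sub1
  have cG := hG.c1.continuousOn.mono sub1
  have cdG := (hG.c1.continuousOn_fderiv_of_isOpen isOpen_ne le_rfl).mono sub1
  have cξ := d.ds.hx.c1.continuousOn.mono sub1
  have cdξ := (d.ds.hx.c1.continuousOn_fderiv_of_isOpen isOpen_ne le_rfl).mono sub1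
  have cF := d.hF.c1.continuousOn.mono sub1
  have c1 : ContinuousOn (fun a => √(1 - (1 + x) * ‖fderiv ℝ τ a‖ ^ 2) /
      √(1 - (1 + x) * τ a ^ 2) ^ dm) {a | ‖a‖ = 1} :=
    (continuousOn_const.sub (continuousOn_const.mul (cdτ.norm.pow 2))).sqrt.div
      ((continuousOn_const.sub (continuousOn_const.mul (cτ.pow 2))).sqrt.pow _) fun u hu =>
      pow_ne_zero _ (Real.sqrt_pos.2 (by
        nlinarith [g1 u hu, mul_le_mul_of_nonneg_left (t2 u hu) (by linarith : 0 ≤ 1 + x)])).ne'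
  have c2 : ContinuousOn (fun u => Real.exp (μ * dm * ‖G u - w‖ ^ 2 -
      1 / (32 * K ^ 2) * hs (fderiv ℝ G u))) {a | ‖a‖ = 1} :=
    ((continuousOn_const.mul ((cG.sub continuousOn_const).norm.pow 2)).sub
      (continuousOn_const.mul (kh.cont.comp_continuousOn cdG))).rexp
  have c3 := (continuousOn_const (c := 1 / (1 + x))).mul c1
  have c4 := (continuousOn_const (c := x / (1 + x))).mul c2
  have cn : ContinuousOn (fun v => |(A v).det| * Real.exp (-(hs (B v) / 4))) {a | ‖a‖ = 1} :=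
    (ContinuousLinearMap.continuous_det.comp_continuousOn d.cA).abs.mul
      ((kh.cont.comp_continuousOn d.cB).div_const 4).neg.rexp
  have c5 := cn.mul ((cF.sub (continuousOn_const (c := w))).norm.pow 2)
  have c6 := cn.mul (cF.norm.pow 2)
  have ne : ∀ v, ‖v‖ = 1 → ‖ξ v‖ ≠ 0 := fun v hv => by linarith [(pt v hv).1]
  have c7 : ContinuousOn (fun v => ‖ξ v‖⁻¹ • ξ v) {a | ‖a‖ = 1} := (cξ.norm.inv₀ ne).smul cξ
  have c8 : ContinuousOn (fun v => |(fderiv ℝ ξ v).det| / ‖ξ v‖ ^ dm) {a | ‖a‖ = 1} :=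
    (ContinuousLinearMap.continuous_det.comp_continuousOn cdξ).abs.div (cξ.norm.pow _)
      fun v hv => pow_ne_zero _ (ne v hv)
  have m := sph_mono
    (cn.add ((continuousOn_const (c := 32 * dm * k ^ 2 + 8 * K ^ 4)).mul (c5.sub c6)))
    (c8.mul ((c3.add c4).comp c7 un)) fun v hv => by
      have h := num ho (s := ‖F v - w‖ ^ 2) hK hμ (by positivity) (abs_nonneg _) (pt v hv).1
        (pt v hv).2.2.1 (kh.nonneg _) (by positivity) (t2 _ (un v hv)) (a v hv).2.1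
        (a v hv).2.2.1 (aD v hv).2 (a v hv).1
      rw [← (pt v hv).2.1] at h
      simp only [Pi.add_apply, Pi.mul_apply, Pi.sub_apply, Pi.pow_apply, Function.comp_apply]
      rw [← (pt v hv).2.1]
      exact h
  have e1 := sph_add cn ((continuousOn_const (c := 32 * dm * k ^ 2 + 8 * K ^ 4)).mul (c5.sub c6))
  have e2 := sph_mul (32 * dm * k ^ 2 + 8 * K ^ 4) fun v =>
    |(A v).det| * Real.exp (-(hs (B v) / 4)) * ‖F v - w‖ ^ 2 -
      |(A v).det| * Real.exp (-(hs (B v) / 4)) * ‖F v‖ ^ 2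
  have e3 := sph_sub c5 c6
  have e4 := cov fun a => 1 / (1 + x) * (√(1 - (1 + x) * ‖fderiv ℝ τ a‖ ^ 2) /
      √(1 - (1 + x) * τ a ^ 2) ^ dm) + x / (1 + x) * Real.exp (μ * dm * ‖G a - w‖ ^ 2 -
      1 / (32 * K ^ 2) * hs (fderiv ℝ G a))
  have e5 := sph_add c3 c4
  have e6 := sph_mul (1 / (1 + x)) fun a => √(1 - (1 + x) * ‖fderiv ℝ τ a‖ ^ 2) /
      √(1 - (1 + x) * τ a ^ 2) ^ dm
  have e7 := sph_mul (x / (1 + x)) fun u => Real.exp (μ * dm * ‖G u - w‖ ^ 2 -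
      1 / (32 * K ^ 2) * hs (fderiv ℝ G u))
  have m' := (e1.symm.trans_le m).trans_eq (e4.symm.trans e5)
  have e8 : (1 / (1 + x) + x / (1 + x)) * sph (fun _ => 1) = sph fun _ => 1 := by
    rw [← add_div, div_self (by linarith), one_mul]
  have p1 := mul_le_mul_of_nonneg_left s1' (by positivity : 0 ≤ 1 / (1 + x))
  have p2 := mul_le_mul_of_nonneg_left hw (by positivity : 0 ≤ x / (1 + x))
  have p3 := mul_nonneg (by positivity : (0 : ℝ) ≤ 32 * dm * k ^ 2 + 8 * K ^ 4)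
    ((sub_nonneg.2 (d.cen w)).trans_eq e3.symm)
  have q1 := p3.trans_eq e2.symm
  have q2 := e6.trans_le p1
  have q3 := e7.trans_le p2
  have q4 := (le_add_of_nonneg_right q1).trans (m'.trans (add_le_add q2 q3))
  linarith

end Pool.Agent.MP_3ee8cb_gt.DF
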