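import Pool.Agent.MP_3ee8cb_gt.DF.Spec
import Pool.Agent.MP_3ee8cb_gt.DNA.Hom

/-! The pull-back of the data to the radial parameter. -/

namespace Pool.Agent.MP_3ee8cb_gt.DF

open DN Set MeasureTheory Metric Module
open DNA (Hm dat fd_hom ne0)

variable [Dim]

namespace PULL

/-- The derivative of a map that is homogeneous of degree zero. -/
theorem fd0 {F : V → V} (h : H0 F) {a : V} (ha : a ≠ 0) {r : ℝ} (hr : r ≠ 0) (e : V) :
    r • fderiv ℝ F (r • a) e = fderiv ℝ F a e := by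
  have h1 : HasFDerivAt (fun x => F (r • x))
      ((fderiv ℝ F (r • a)).comp (r • ContinuousLinearMap.id ℝ V)) a :=
    (dat h.c1 (smul_ne_zero hr ha)).comp a ((hasFDerivAt_id a).const_smul r)
  have h2 : HasFDerivAt (fun x => F (r • x)) (fderiv ℝ F a) a := by
    refine (dat h.c1 ha).congr_of_eventuallyEq ?_
    filter_upwards [DNC.op0.mem_nhds ha] with x hx using h.hom r x hr hx
  have h4 := congrArg (fun L : V →L[ℝ] V => L e) (h1.unique h2)
  simpa only [ContinuousLinearMap.comp_apply, smul_apply, ContinuousLinearMap.id_apply,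
    map_smul] using h4

end PULL

theorem sPULL : SPULL := by
  intro t ξ F h hF hdet
  have hn : finrank ℝ V = dm := by simp
  have hd : 3 ≤ finrank ℝ V := by rw [hn]; exact Nat.le_add_left _ _
  have hm : Hm ξ := by
    refine ⟨h.hx.c1, h.hx.hom, fun a ha e => ?_, hdet⟩
    have := h.nm a ha
    rw [e, norm_zero] at this
    nlinarith [norm_pos_iff.2 ha, sq_nonneg (t a)]
  obtain ⟨X, cX, hX, nX, lX, rX, dX, -⟩ := hm.inv hd
  set τ : V → ℝ := fun u => t (X u) with hτ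
  have cτ : ContDiffOn ℝ 1 τ {a | a ≠ 0} := h.ht.c1.comp cX nX
  have oτ : ∀ (r : ℝ) a, r ≠ 0 → a ≠ 0 → τ (r • a) = r • τ a := fun r a hr ha => by
    simp only [hτ]
    rw [hX r a hr ha, h.ht.hom r _ hr (nX a ha)]
  have ch : ∀ a e, a ≠ 0 → fderiv ℝ τ (ξ a) (fderiv ℝ ξ a e) = fderiv ℝ t a e := fun a e ha => by
    have h0 := hm.ne a ha
    have h1 : HasFDerivAt τ _ (ξ a) := (dat h.ht.c1 (nX _ h0)).comp (ξ a) (dat cX h0)
    rw [h1.fderiv, ContinuousLinearMap.comp_apply, dX a e ha, lX a ha]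
  set G : V → V := fun u => F (X u) with hG
  have H : H0 G := ⟨hF.c1.comp cX nX, fun r a hr ha => by
    simp only [hG]
    rw [hX r a hr ha, hF.hom r _ hr (nX a ha)]⟩
  have cg : ∀ a e, a ≠ 0 → fderiv ℝ G (ξ a) (fderiv ℝ ξ a e) = fderiv ℝ F a e := fun a e ha => by
    have h0 := hm.ne a ha
    have h1 : HasFDerivAt G _ (ξ a) := (dat hF.c1 (nX _ h0)).comp (ξ a) (dat cX h0)
    rw [h1.fderiv, ContinuousLinearMap.comp_apply, dX a e ha, lX a ha]
  refine ⟨τ, G, ⟨cτ, oτ⟩, H, fun f => ?_, fun u hu => ⟨?_, ?_⟩, fun v hv => ?_⟩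
  · have := hm.cov_int volume hd f
    rw [hn] at this
    exact this
  · have e : fderiv ℝ τ u u = τ u := DNA.radial (dat cτ (ne0 hu)) (g := fun r => r • τ u)
      (by simpa using (hasDerivAt_id (1 : ℝ)).smul_const (τ u))
      fun r hr => oτ r u hr.ne' (ne0 hu)
    have := (fderiv ℝ τ u).le_opNorm u
    rwa [e, hu, mul_one, Real.norm_eq_abs] at this
  · have h0 := nX u (ne0 hu)
    have hp := norm_pos_iff.2 h0
    have h1 : ‖X u‖⁻¹ ≠ 0 := inv_ne_zero hp.ne'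
    refine ⟨‖X u‖⁻¹ • X u, DNC.Rad.unit h0, ?_⟩
    rw [hm.hom _ _ h1 h0, rX u (ne0 hu), norm_smul, hu, mul_one, norm_inv, norm_norm, inv_inv,
      smul_smul, mul_inv_cancel₀ hp.ne', one_smul]
  · have ha := ne0 hv
    have h0 := hm.ne v ha
    have hp := norm_pos_iff.2 h0
    have h1 : ‖ξ v‖⁻¹ ≠ 0 := inv_ne_zero hp.ne'
    have h3 := h.nm v ha
    rw [hv] at h3
    have h2 : 1 - τ (‖ξ v‖⁻¹ • ξ v) ^ 2 = ‖ξ v‖⁻¹ ^ 2 := by
      rw [oτ _ _ h1 h0]
      simp only [hτ, lX v ha, smul_eq_mul]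
      field_simp
      linarith
    refine ⟨by nlinarith [sq_nonneg (t v)], ?_, ?_, fun e => ⟨?_, ?_⟩⟩
    · rw [H.hom _ _ h1 h0]
      simp only [hG, lX v ha]
    · rw [h2, Real.sqrt_sq (inv_nonneg.2 hp.le)]
    · rw [fd_hom cτ oτ h0 h1, ch v e ha]
    · rw [← cg v e ha, ← PULL.fd0 H h0 h1, smul_smul, mul_inv_cancel₀ hp.ne', one_smul]

end Pool.Agent.MP_3ee8cb_gt.DF
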