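import Pool.Agent.MP_3ee8cb_gt.DF.Spec
import Pool.Agent.MP_3ee8cb_gt.DNOD.Ric

/-! The Riccati inequality with the Hilbert-Schmidt norm. -/

namespace Pool.Agent.MP_3ee8cb_gt.DF

open DN DN.Dia

variable [Dim]

theorem sRIC : SRIC := by
  intro m m' φ a hi h hj h' hj' hc ha hu hu' hd hs' z hz
  have P := pt m m' φ a hi h hj h' hj' hc ha hu hu' hd hs' z hz
  obtain ⟨f, b, e, -⟩ := P.eig
  obtain ⟨d, d1, d2⟩ := ric m m' φ a hi h hj h' hj' hc ha hu hu' hd hs' z hz f b e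
  refine ⟨d, d1, d2.trans (le_of_eq ?_)⟩
  rw [← hs_eq P.sym e (EuclideanSpace.basisFun (Fin dm) ℝ), Finset.mul_sum, hs]
  congr 1
  refine Finset.sum_congr rfl fun i _ => ?_
  rw [smul_apply, norm_smul, mul_pow, Real.norm_eq_abs, sq_abs,
    EuclideanSpace.basisFun_apply]
  rfl

theorem sRIC_of (_ : KH) : SRIC := sRIC

end Pool.Agent.MP_3ee8cb_gt.DF
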