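import Pool.Agent.MP_3ee8cb_gt.DF.Spec
import Pool.Agent.MP_3ee8cb_gt.DFT.Tr
import Pool.Agent.MP_3ee8cb_gt.DNGA.Pol

/-! The transplanted front with constants that do not depend on the dimension. -/

namespace Pool.Agent.MP_3ee8cb_gt.DF

open DN

theorem strp : ∃ c K : ℝ, 0 < c ∧ 1 ≤ K ∧ ∀ [Dim], STRP c K := by
  obtain ⟨G, hG⟩ : ∃ G, G = Real.exp 2 := ⟨_, rfl⟩
  have G1 : 1 ≤ G := hG ▸ Real.one_le_exp zero_le_two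
  refine ⟨4 * G * (G * (1 + 3 * G)), G * (1 + 3 * G), by positivity, by nlinarith, ?_⟩
  intro _ δ δ0 δ1 m lg σ a h hj hl hf a0 u0 ua dn o ho
  obtain ⟨t, ξ, ds, k⟩ := DFT.tr45 sPOL hG δ δ0 δ1 m lg σ a h hj hl hf a0 u0 ua dn o ho
  refine ⟨t, ξ, ds, fun v hv => ⟨(k v hv).1, fun e β β0 β1 hβ => ?_⟩⟩
  obtain ⟨k1, k2, k3⟩ := (k v hv).2 e β β0 β1 hβ
  exact ⟨k1, k3, k2⟩

end Pool.Agent.MP_3ee8cb_gt.DF
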