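import Pool.Agent.MP_3ee8cb_gt.DF.Spec
import Pool.Agent.MP_3ee8cb_gt.DN.Fin

/-! Rigidity in every dimension from the fibre inequality with the Hilbert-Schmidt norm. -/

namespace Pool.Agent.MP_3ee8cb_gt.DF

open DN Set MeasureTheory
open CR (Met UT)
open scoped RealInnerProductSpace

variable [Dim]

namespace TOP

theorem hs_conj (kh : KH) (O : V ≃ₗᵢ[ℝ] V) {M M' : V →L[ℝ] V} (h : ∀ v, M' (O v) = O (M v)) :
    hs M' = hs M := by
  rw [kh.basis M (EuclideanSpace.basisFun (Fin dm) ℝ),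
    kh.basis M' ((EuclideanSpace.basisFun (Fin dm) ℝ).map O)]
  refine Finset.sum_congr rfl fun i _ => ?_
  rw [OrthonormalBasis.map_apply, h, O.norm_map]

theorem hs_inv (kh : KH) {m m' : MF} {φ : V × V → V × V} {Γ Λ : Type} [Group Γ] [Group Λ]
    [MulAction Γ V] [MulAction Λ V] {ρ : Γ ≃* Λ} {O : Γ → V → V ≃ₗᵢ[ℝ] V}
    {O' : Λ → V → V ≃ₗᵢ[ℝ] V} (hc : CF m m' φ) (ha : Act m' Λ O') (he : Eqv ρ O O' φ) (γ : Γ)
    {z : V × V} (h0 : z.2 ≠ 0) (hd : (m'.A' (fr φ z.1) z.2).det ≠ 0) (a : ℝ) :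
    hs (a • m'.B (fr φ (γ • z.1)) (O γ z.1 z.2)) = hs (a • m'.B (fr φ z.1) z.2) := by
  have e0 : fr φ (γ • z.1) (O γ z.1 z.2) = (ρ γ • (φ z).1, O' (ρ γ) (φ z).1 (φ z).2) := he γ z h0
  have eA : ∀ v, m'.A (fr φ (γ • z.1)) (O γ z.1 z.2) (O γ z.1 v) =
      O' (ρ γ) (φ z).1 (m'.A (fr φ z.1) z.2 v) := fun v => by
    rw [MF.A, ContinuousLinearMap.comp_apply, SC.der_eqv hc.c1 ha he γ h0, e0]
    exact ha.hor _ _ _
  have eA' : ∀ v, m'.A' (fr φ (γ • z.1)) (O γ z.1 z.2) (O γ z.1 v) =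
      O' (ρ γ) (φ z).1 (m'.A' (fr φ z.1) z.2 v) := fun v => by
    rw [MF.A', ContinuousLinearMap.comp_apply, SC.der_eqv hc.c1 ha he γ h0, e0]
    exact ha.ver _ _ _
  have hd' : (m'.A' (fr φ (γ • z.1)) (O γ z.1 z.2)).det ≠ 0 :=
    abs_ne_zero.1 ((sc_inv hc ha he γ h0 hd).1 ▸ abs_ne_zero.2 hd)
  rw [kh.smul, kh.smul]
  refine congrArg _ (hs_conj kh (O' (ρ γ) (φ z).1) fun u => ?_)
  rw [← inv_r hd u, ← eA', B_app hd', B_app hd, eA]

theorem num {y d q : ℝ} (hy : 0 < y) (h : d ≤ 2 * Real.log y - q) :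
    d ≤ 2 * (y * Real.exp (-(q / 4)) - 1) - q / 2 := by
  have e1 := Real.log_le_sub_one_of_pos (mul_pos hy (Real.exp_pos (-(q / 4))))
  rw [Real.log_mul hy.ne' (Real.exp_pos _).ne', Real.log_exp] at e1
  linarith

theorem hs_zero {B : V →L[ℝ] V} (h : hs B = 0) : B = 0 := by
  have h1 := (Finset.sum_eq_zero_iff_of_nonneg fun i _ => sq_nonneg _).1 h
  refine ContinuousLinearMap.coe_injective ((EuclideanSpace.basisFun (Fin dm) ℝ).toBasis.ext
    fun i => ?_)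
  have := h1 i (Finset.mem_univ i)
  simpa using this

theorem main (kh0 : KH) (rc : SRIC) (jac : SJAC) (frm : SFRM) (had : SHAD) (act : SACT)
    (flp : SFLP) (sc1 : SC1) (scf : SCF) (ssy : SSY) (sod : SOD2) (wid : SWID) (shn : SHN)
    (sd0 : SD0) (int : SINT) (fin : SEND) (δ : ℝ) (sfi : SFI δ) : MainN δ := by
  intro g h _ C' Γ Λ _ _ _ _ Φ Ψ ρ F qg qh _ ch dΓ dΛ cj a hi ha hhi ⟨C, cg, kg⟩ kh f1 f2
  have kh' : TB.CurvLe h a := ⟨C', ch, fun x u v => (kh x u v).2⟩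
  obtain ⟨m, o, l⟩ := frm g C Γ Φ qg cg
  obtain ⟨m', o', l'⟩ := frm h C' Λ Ψ qh ch
  have j := jac m o
  have j' := jac m' o'
  obtain ⟨O, aO⟩ := act g C Γ Φ qg cg m o l dΓ
  obtain ⟨O', aO'⟩ := act h C' Λ Ψ qh ch m' o' l' dΛ
  obtain ⟨lg, hl, hd⟩ := had h C' Λ Ψ qh ch m' a o' j' l' ha kh'
  have hin := shn h C' Λ Ψ qh ch m' lg a o' l' ha kh' hd
  obtain ⟨mn, s, F', e, cj', fl⟩ := flp g h C C' Γ Λ Φ Ψ ρ F qg qh cg ch dΓ dΛ cj a ha kh'
  obtain ⟨g1, g2⟩ := sc1 g h C C' Γ Λ Φ Ψ ρ F qg qh cg ch dΓ dΛ cj s F' e f1 f2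
  obtain ⟨φ, cf, eq⟩ := scf g h C C' Γ Λ Φ Ψ ρ F' qg qh cg ch dΓ dΛ cj' m m' O O' o j o' j' l l'
    aO aO' mn fl g1 g2
  have cs : ∀ u v : V, 0 ≤ ‖u‖ ^ 2 * ‖v‖ ^ 2 - ⟪u, v⟫ ^ 2 := fun u v => by
    have := real_inner_mul_inner_self_le u v
    rw [real_inner_self_eq_norm_sq, real_inner_self_eq_norm_sq] at this
    nlinarith
  have u0 : m.Up 0 := fun y u v => by
    have := kg y (m.R y u) (m.R y v)
    rw [(l.sec o y u v).1]
    linarith
  have u1 : m'.Up (a ^ 2) := fun y u v => by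
    have := (kh y (m'.R y u) (m'.R y v)).2
    rw [(l'.sec o' y u v).1, ← (l'.sec o' y u v).2]
    linarith
  have d1 : m'.Dn hi := fun y u v => by
    have := (kh y (m'.R y u) (m'.R y v)).1
    rw [(l'.sec o' y u v).1, ← (l'.sec o' y u v).2]
    linarith
  have d2 : m'.Dn ((1 + δ) * a ^ 2) := fun y u v =>
    (d1 y u v).trans (mul_le_mul_of_nonneg_right hhi (cs u v))
  have u2 : m'.Up 0 := fun y u v =>
    le_trans (mul_le_mul_of_nonneg_right (sq_nonneg a) (cs u v)) (u1 y u v)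
  obtain ⟨sy, ft⟩ := ssy m m' φ a hi o j o' j' cf ha u0 u1 d1
  obtain ⟨⟨T₀, gd⟩, ric⟩ := sod m m' φ a hi o j o' j' cf ha u0 u1 d1 sy
  have sub : {z : V × V | ‖z.2‖ = 1} ⊆ {z | z.2 ≠ 0} := fun z hz e => by simp [e] at hz
  have cA := (SC.c_A o' cf.c1).mono sub
  have cA' := (SC.c_A' o' cf.c1).mono sub
  have cB : ContinuousOn (fun z : V × V => m'.B (fr φ z.1) z.2) {z | ‖z.2‖ = 1} :=
    cA.clm_comp (c_inv cA' fun z hz => (ric z hz).ne)
  have ric2 := rc m m' φ a hi o j o' j' cf ha u0 u1 d1 sy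
  have cb : ContinuousOn (fun z : V × V => hs (a • m'.B (fr φ z.1) z.2)) {z | ‖z.2‖ = 1} :=
    kh0.cont.comp_continuousOn (cB.const_smul a)
  have cG := (ContinuousLinearMap.continuous_det.comp_continuousOn cA').abs.mul
    (Real.continuous_exp.comp_continuousOn (cb.div_const 4).neg)
  have key := int m Γ O (fun z => m'.tr (fr φ z.1) z.2)
    (fun z => 2 * (|(m'.A' (fr φ z.1) z.2).det| *
      Real.exp (-(hs (a • m'.B (fr φ z.1) z.2) / 4)) - 1))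
    (fun z => hs (a • m'.B (fr φ z.1) z.2) / 2) o j aO (CR.fd dm g Γ qg.rp.deck)
    (c_tr.comp_continuousOn cB) (continuousOn_const.mul (cG.sub continuousOn_const))
    (cb.div_const 2)
    (fun γ z hz => by
      obtain ⟨h1, h2, -⟩ := sc_inv cf aO' eq γ (sub hz) (ric z hz).ne
      have h3 := hs_inv kh0 cf aO' eq γ (sub hz) (ric z hz).ne a
      simp only [h1, h2, h3, and_self])
    (fun z hz => ⟨div_nonneg (kh0.nonneg _) zero_le_two, (ric2 z hz).imp fun d hd =>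
      ⟨hd.1, num (abs_pos.2 (ric z hz).ne) hd.2⟩⟩)
    fun x => by
      have G : m'.Good (fr φ x) (max T₀ 1) := ⟨(gd x).inj, (gd x).sym, fun a e t h1 h2 h3 h4 =>
        (gd x).pos a e t h1 h2 h3 ((le_max_left _ _).trans h4)⟩
      have T : (0 : ℝ) < max T₀ 1 := lt_max_of_lt_right one_pos
      have W := wid m' lg _ _ o' j' u2 hl (ft x) G T
      have i : ContinuousOn (fun a : V => (x, a)) {a | ‖a‖ = 1} := by fun_prop
      have k := sfi m' lg (fr φ x) a o' j' hl (ft x) ha u2 u1 d2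
        (sd0 m' lg _ _ o' j' u2 hl (ft x) G T W a ha hin)
        fun v hv => ⟨(ric (x, v) hv).ne, (ric (x, v) hv).bd⟩
      have := integral_sub (sph_int (cG.comp i fun _ h => h))
        (sph_int (f := fun _ => 1) continuousOn_const)
      unfold sph at k ⊢
      rw [integral_const_mul]
      exact mul_nonpos_of_nonneg_of_nonpos zero_le_two (this.trans_le (sub_nonpos.2 k))
  refine fin g h C C' Γ Λ Φ Ψ ρ F' qg qh cg ch dΓ dΛ cj' m m' O O' φ lg o j o' j' l l' aO aO' hl cf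
    eq fun x b hb => ContinuousLinearMap.ext fun v => ?_
  have k : hs (a • m'.B (fr φ x) b) / 2 = 0 := key (x, b) hb
  have k2 : m'.B (fr φ x) b = 0 :=
    (smul_eq_zero.1 (hs_zero (by linarith))).resolve_left ha.ne'
  rw [← B_app (ric (x, b) hb).ne, k2]
  rfl

end TOP

theorem top_of (kh : KH) (ric : SRIC) : STOP := fun δ fi =>
  TOP.main kh ric sJAC sFRM DNFL.had sACT DNFL.flp (sC1_of sFRM) sCF LN.ssy sOD2 DNWI.swid sHN sD0
    sINT sEND δ fi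

end Pool.Agent.MP_3ee8cb_gt.DF
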