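import Pool.Agent.MP_3ee8cb_gt.DF.Inst
import Pool.Agent.MP_3ee8cb_gt.DF.RPULL
import Pool.Agent.MP_3ee8cb_gt.DF.RGIB
import Pool.Agent.MP_3ee8cb_gt.DF.RCEN
import Pool.Agent.MP_3ee8cb_gt.DF.RDER
import Pool.Agent.MP_3ee8cb_gt.DF.RGEO
import Pool.Agent.MP_3ee8cb_gt.DF.RSTR
import Pool.Agent.MP_3ee8cb_gt.DF.RRIC
import Pool.Agent.MP_3ee8cb_gt.DF.RTOP
import Pool.Agent.MP_3ee8cb_gt.DN.All

/-! One pinching constant for all dimensions, conjugacies of class `C¹`. -/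

namespace Pool.Agent.MP_3ee8cb_gt.DF

open DN

theorem mainN : ∃ δ, 0 < δ ∧ ∀ [Dim], MainN δ :=
  main_of DN.mainN (top_of kH sRIC) (fi_high strp sKSO (gib_of kH sALG sHOL sPULL sG)
    (geo_of kH sCEN sDER))

end Pool.Agent.MP_3ee8cb_gt.DF
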