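import Pool.Agent.MP_3ee8cb_gt.DF.Spec
import Pool.Agent.MP_3ee8cb_gt.DNG.G2

/-! Change of variables for the Gaussian measure, and quadratic forms. -/

namespace Pool.Agent.MP_3ee8cb_gt.DF

open DN Set MeasureTheory ProbabilityTheory
open scoped RealInnerProductSpace

variable [Dim]

theorem CV.trc_smul (c : ℝ) (B : V →L[ℝ] V) : trc (c • B) = c * trc B := by
  simp [trc]

theorem CV.trc_cont : Continuous (trc : (V →L[ℝ] V) → ℝ) :=
  ((LinearMap.trace ℝ V).comp (ContinuousLinearMap.coeLM ℝ)).continuous_of_finiteDimensional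

theorem cv_of (kh : KH) (_ke : KE) : SCV := by
  intro Z hZ
  have cZ := hZ.c1.continuous
  have cD := hZ.c1.continuous_fderiv one_ne_zero
  have dZ := hZ.c1.differentiable one_ne_zero
  have c1 := kh.cont
  have c2 := CV.trc_cont
  have cf : Continuous fun x => -trc (fderiv ℝ Z x) - 5 * hs (fderiv ℝ Z x) +
      (⟪x, Z x⟫ - ‖Z x‖ ^ 2 / 2) := by fun_prop
  refine ⟨cf.measurable.aemeasurable, ?_⟩
  obtain ⟨c, hc, e⟩ := DNG.rG0 V
  obtain ⟨ρ, hρ⟩ : ∃ ρ : V → ENNReal,
      ρ = fun x => ENNReal.ofReal (c * Real.exp (-(‖x‖ ^ 2 / 2))) := ⟨_, rfl⟩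
  rw [← hρ] at e
  have mρ : Measurable ρ :=
    hρ ▸ ENNReal.measurable_ofReal.comp (Continuous.measurable (by fun_prop))
  have one : ∫⁻ x, ρ x = 1 := by
    have : stdGaussian V univ = 1 := measure_univ
    rwa [e, withDensity_apply _ MeasurableSet.univ, Measure.restrict_univ] at this
  have inj : InjOn (fun x => x - Z x) univ := fun x _ y _ h => by
    have h1 := convex_univ.norm_image_sub_le_of_norm_fderiv_le (f := Z) (C := 1 / 2)
      (fun x _ => dZ x) (fun x _ => hZ.bd x) (mem_univ y) (mem_univ x)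
    have h2 : Z x - Z y = x - y := by
      have h : x - Z x = y - Z y := h
      rw [sub_eq_sub_iff_sub_eq_sub] at h
      exact h.symm
    rw [h2] at h1
    exact sub_eq_zero.1 (norm_eq_zero.1 (by linarith [norm_nonneg (x - y)]))
  have cv := lintegral_image_eq_lintegral_abs_det_fderiv_mul (volume : Measure V)
    MeasurableSet.univ (f := fun x => x - Z x)
    (f' := fun x => ContinuousLinearMap.id ℝ V - fderiv ℝ Z x)
    (fun x _ => ((hasFDerivAt_id x).sub (dZ x).hasFDerivAt).hasFDerivWithinAt) inj ρ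
  rw [Measure.restrict_univ] at cv
  rw [ga, e, Real.exp_zero, ENNReal.ofReal_one, ← one]
  refine (lintegral_withDensity_eq_lintegral_mul _ mρ
    (ENNReal.measurable_ofReal.comp (Real.continuous_exp.comp cf).measurable)).trans_le ?_
  refine le_trans (lintegral_mono fun x => ?_) (cv.symm.trans_le (setLIntegral_le_lintegral _ _))
  simp only [hρ, Pi.mul_apply, Function.comp_apply]
  rw [← ENNReal.ofReal_mul (by positivity), ← ENNReal.ofReal_mul (abs_nonneg _)]
  refine ENNReal.ofReal_le_ofReal (le_trans (le_of_eq ?_)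
    (mul_le_mul_of_nonneg_right (kh.det _ (hZ.bd x)) (by positivity)))
  rw [mul_left_comm, mul_assoc, ← Real.exp_add, ← Real.exp_add, norm_sub_sq_real]
  congr 2
  ring

theorem qf_of (kh : KH) (ke : KE) (cv : SCV) : SQF := by
  intro T l hl h
  obtain ⟨S, hS⟩ : ∃ S : V →L[ℝ] V, S = (ContinuousLinearMap.adjoint T).comp T := ⟨_, rfl⟩
  have nA : ‖ContinuousLinearMap.adjoint T‖ = ‖T‖ := LinearIsometryEquiv.norm_map _ _
  have nS : ‖S‖ = ‖T‖ * ‖T‖ := hS ▸ ContinuousLinearMap.norm_adjoint_comp_self T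
  have nZ : ‖(2 * l) • S‖ ≤ 1 / 2 := by
    rw [norm_smul, nS, Real.norm_of_nonneg (by positivity)]
    nlinarith
  have h1 := cv ((2 * l) • S : V →L[ℝ] V)
    ⟨ContinuousLinearMap.contDiff _, fun x => by rwa [ContinuousLinearMap.fderiv]⟩
  simp only [ContinuousLinearMap.fderiv] at h1
  have t1 : trc ((2 * l) • S) = 2 * l * hs T := by rw [CV.trc_smul, hS, kh.self]
  have t2 : hs ((2 * l) • S) ≤ l * hs T := by
    have a := kh.left (ContinuousLinearMap.adjoint T) T
    rw [nA, ← hS] at a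
    have b := kh.nonneg T
    rw [kh.smul]
    calc (2 * l) ^ 2 * hs S ≤ (2 * l) ^ 2 * (‖T‖ ^ 2 * hs T) := by gcongr
      _ = l * hs T * (4 * l * ‖T‖ ^ 2) := by ring
      _ ≤ l * hs T := mul_le_of_le_one_right (by positivity) h
  refine ke.mono (ke.shift (trc ((2 * l) • S) + 5 * hs ((2 * l) • S)) h1)
    (Continuous.aemeasurable (by fun_prop)) (fun y => ?_) ?_
  · have a : ⟪y, S y⟫ = ‖T y‖ ^ 2 := by
      rw [hS, ContinuousLinearMap.comp_apply, ContinuousLinearMap.adjoint_inner_right,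
        real_inner_self_eq_norm_sq]
    have b : ‖S y‖ ≤ ‖T‖ * ‖T y‖ := by
      rw [hS]
      exact nA ▸ (ContinuousLinearMap.adjoint T).le_opNorm (T y)
    have d : ‖((2 * l) • S) y‖ ^ 2 ≤ l * ‖T y‖ ^ 2 := by
      rw [ContinuousLinearMap.smul_apply, norm_smul, Real.norm_of_nonneg (by positivity)]
      calc (2 * l * ‖S y‖) ^ 2 ≤ (2 * l * (‖T‖ * ‖T y‖)) ^ 2 := by gcongr
        _ = l * ‖T y‖ ^ 2 * (4 * l * ‖T‖ ^ 2) := by ring
        _ ≤ _ := mul_le_of_le_one_right (by positivity) h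
    have f : ⟪y, ((2 * l) • S) y⟫ = 2 * l * ‖T y‖ ^ 2 := by
      rw [ContinuousLinearMap.smul_apply, real_inner_smul_right, a]
    have : 0 ≤ l * ‖T y‖ ^ 2 := by positivity
    linarith
  · have := mul_nonneg hl (kh.nonneg T)
    linarith

end Pool.Agent.MP_3ee8cb_gt.DF
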