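import Pool.Agent.MP_3ee8cb_gt.DF.RKH
import Pool.Agent.MP_3ee8cb_gt.DF.RKE
import Pool.Agent.MP_3ee8cb_gt.DF.RCV
import Pool.Agent.MP_3ee8cb_gt.DF.RPIS
import Pool.Agent.MP_3ee8cb_gt.DF.RP12
import Pool.Agent.MP_3ee8cb_gt.DF.RST
import Pool.Agent.MP_3ee8cb_gt.DF.RLM
import Pool.Agent.MP_3ee8cb_gt.DF.RSTEP
import Pool.Agent.MP_3ee8cb_gt.DF.RSEM2
import Pool.Agent.MP_3ee8cb_gt.DF.RHEAT
import Pool.Agent.MP_3ee8cb_gt.DF.RKEY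
import Pool.Agent.MP_3ee8cb_gt.DF.RPOLAR
import Pool.Agent.MP_3ee8cb_gt.DF.REXT
import Pool.Agent.MP_3ee8cb_gt.DF.RKSO
import Pool.Agent.MP_3ee8cb_gt.DF.B73ALG
import Pool.Agent.MP_3ee8cb_gt.DF.RHOL
import Pool.Agent.MP_3ee8cb_gt.DF.Fin
import Pool.Agent.MP_3ee8cb_gt.CYG.Gib

/-! The closed forms of the analytic blocks. -/

namespace Pool.Agent.MP_3ee8cb_gt.DF

open DN

section

variable [Dim]

theorem sCV : SCV := cv_of kH kE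
theorem sQF : SQF := qf_of kH kE sCV
theorem sP1 : SP1 := p1_of kE sPIS
theorem sP2 : SP2 := p2_of kH kE sQF sPIS
theorem sLM : SLM := lm_of kH kE sCV sQF sP1 sP2 (st_of kH kE sCV)
theorem sKEY : SKEY := key_of kH kE sLM (step_of kH kE sP1 sP2) (heat_of kE sSEM2)
theorem sKSO : SKSO := kso_of kH kE sKEY (sPOLAR_of kE) (ext_of kH)
theorem sALG : SALG := alg_of' kH
theorem sNU : CYG.SNU := CYG.sNU_of kH sALG
theorem sGIBZ : CYG.SGIBZ := CYG.sGIBZ_of kH sALG sHOL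

end

/-- The inequality on the sphere with a constant that does not depend on the dimension. -/
theorem ks_high (L : ℝ) {c : ℝ} (hc : 0 < c) :
    ∃ (μ : ℝ) (n₀ : ℕ), 0 < μ ∧ ∀ [Dim], n₀ ≤ dm → SKS L c μ := by
  obtain ⟨s, s0, s1, s2⟩ : ∃ s : ℝ, 0 < s ∧ 1400 * s * (L + 6) ^ 2 ≤ 1 ∧ s ≤ 2 * c := by
    have p : 0 < 1400 * ((L + 6) ^ 2 + 1) := by positivity
    refine ⟨min (1 / (1400 * ((L + 6) ^ 2 + 1))) (2 * c), by positivity, ?_, min_le_right _ _⟩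
    have h := (le_div_iff₀ p).1 (min_le_left (1 / (1400 * ((L + 6) ^ 2 + 1))) (2 * c))
    have h0 : 0 < min (1 / (1400 * ((L + 6) ^ 2 + 1))) (2 * c) := by positivity
    linarith
  obtain ⟨n₀, hn⟩ := exists_nat_ge ((s / 1280 + 4 * c) / (s / 1280 / 2))
  refine ⟨s / 1280 / 2, n₀, by positivity, fun h => sKSO L c s (s / 1280) (by positivity)
    (by linarith) s1 s2 ?_⟩
  have h1 : (n₀ : ℝ) ≤ dm := by exact_mod_cast h
  have := (div_le_iff₀ (by positivity)).1 (hn.trans h1)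
  linarith

/-- All constants of the fibre inequality. -/
theorem cz (L : ℝ) {c K : ℝ} (hc : 0 < c) (hK : 1 ≤ K) : ∃ (δ μ : ℝ) (n₀ : ℕ), 0 < δ ∧ δ ≤ 1 ∧
    c * δ ≤ 1 / 12 ∧ 0 < μ ∧ ∀ [Dim], n₀ ≤ dm → SKS L (1 / (32 * K ^ 2)) μ ∧
      (1 + 4 * K ^ 2) * (32 * dm * (c * δ) ^ 2 + 16 * K ^ 4) ≤ μ * dm := by
  have K0 : 0 < K := by linarith
  obtain ⟨μ, n₁, μ0, ks⟩ := ks_high L (c := 1 / (32 * K ^ 2)) (by positivity)
  obtain ⟨k, k0, k1, k2⟩ : ∃ k : ℝ, 0 < k ∧ k ≤ 1 / 12 ∧ (1 + 4 * K ^ 2) * 32 * k ≤ μ / 2 := by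
    have p : 0 < (1 + 4 * K ^ 2) * 32 := by positivity
    refine ⟨min (1 / 12) (μ / 2 / ((1 + 4 * K ^ 2) * 32)), by positivity, min_le_left _ _, ?_⟩
    have := (le_div_iff₀ p).1 (min_le_right (1 / 12) (μ / 2 / ((1 + 4 * K ^ 2) * 32)))
    linarith
  obtain ⟨δ, d0, d1, d2⟩ : ∃ δ : ℝ, 0 < δ ∧ δ ≤ 1 ∧ c * δ ≤ k := by
    refine ⟨min 1 (k / c), by positivity, min_le_left _ _, ?_⟩
    have := (le_div_iff₀ hc).1 (min_le_right 1 (k / c))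
    linarith
  obtain ⟨n₂, hn⟩ := exists_nat_ge ((1 + 4 * K ^ 2) * (16 * K ^ 4) / (μ / 2))
  refine ⟨δ, μ, max n₁ n₂, d0, d1, d2.trans k1, μ0, fun h =>
    ⟨ks ((le_max_left _ _).trans h), ?_⟩⟩
  have h1 : (n₂ : ℝ) ≤ dm := by exact_mod_cast (le_max_right _ _).trans h
  have e2 := (div_le_iff₀ (by positivity)).1 (hn.trans h1)
  have c0 : 0 < c * δ := by positivity
  have e3 : (c * δ) ^ 2 ≤ k := by nlinarith
  have e4 := mul_le_mul_of_nonneg_left e3 (by positivity : 0 ≤ (1 + 4 * K ^ 2) * 32)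
  have e5 := mul_le_mul_of_nonneg_left (e4.trans k2) (Nat.cast_nonneg (α := ℝ) dm)
  linarith

end Pool.Agent.MP_3ee8cb_gt.DF
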