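import Pool.Agent.MP_3ee8cb_gt.DF.Spec
import Pool.Agent.MP_3ee8cb_gt.DN.One
import Pool.Agent.MP_3ee8cb_gt.DNA.Alg

/-! Linear algebra at one point (second proof). -/

namespace Pool.Agent.MP_3ee8cb_gt.DF

open DN ContinuousLinearMap
open scoped RealInnerProductSpace

namespace ALG2

variable [Dim]

theorem sq_bd {W : Type} [NormedAddCommGroup W] [NormedSpace ℝ W] (T : V →L[ℝ] W) {c : ℝ}
    (c0 : 0 ≤ c) (h : ∀ w, ‖T w‖ ^ 2 ≤ c * ‖w‖ ^ 2) : ‖T‖ ^ 2 ≤ c := by
  have : ‖T‖ ≤ √c := opNorm_le_bound _ (Real.sqrt_nonneg _) fun w =>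
    abs_le_of_sq_le_sq' (by rw [mul_pow, Real.sq_sqrt c0]; exact h w) (by positivity) |>.2
  exact (pow_le_pow_left₀ (norm_nonneg _) this 2).trans_eq (Real.sq_sqrt c0)

theorem one (kh : KH) (B : V →L[ℝ] V) (hB : ‖B‖ ≤ 1) :
    Real.exp (-(hs B / 8)) ≤
      |(ContinuousLinearMap.id ℝ V - (1 / 32 : ℝ) • (adjoint B).comp B).det| := by
  have nA : ‖adjoint B‖ ≤ 1 := by rwa [LinearIsometryEquiv.norm_map]
  refine le_trans (Real.exp_le_exp.2 ?_) (kh.det _ ?_)
  · have t : trc ((1 / 32 : ℝ) • (adjoint B).comp B) = 1 / 32 * hs B := by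
      rw [← kh.self B, trc, trc, ContinuousLinearMap.toLinearMap_smul, map_smul, smul_eq_mul]
    have := (kh.left (adjoint B) B).trans (mul_le_mul_of_nonneg_right
      (pow_le_pow_left₀ (norm_nonneg _) nA 2) (kh.nonneg B))
    rw [t, kh.smul]
    linarith [kh.nonneg B]
  · rw [norm_smul, Real.norm_of_nonneg (by norm_num)]
    have := (opNorm_comp_le (adjoint B) B).trans (mul_le_mul nA hB (norm_nonneg _) zero_le_one)
    linarith

theorem two (B : V →L[ℝ] V) (hB : ‖B‖ ≤ 1) (u : V) :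
    ‖u - (1 / 32 : ℝ) • adjoint B (B u)‖ ^ 2 ≤ ‖u‖ ^ 2 - 63 / 1024 * ‖B u‖ ^ 2 := by
  have nA : ‖adjoint B‖ ≤ 1 := by rwa [LinearIsometryEquiv.norm_map]
  have := pow_le_pow_left₀ (norm_nonneg _) (le_of_opNorm_le _ nA (B u)) 2
  rw [norm_sub_sq_real, inner_smul_right, adjoint_inner_right, real_inner_self_eq_norm_sq,
    norm_smul, Real.norm_of_nonneg (by norm_num), mul_pow]
  linarith

theorem three {y : ℝ} (y0 : 0 ≤ y) (y1 : y ≤ 1 / 2) : Real.exp (-y) ≤ √(1 - y) := by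
  refine Real.le_sqrt_of_sq_le ?_
  have h := Real.add_one_le_exp (2 * y)
  rw [← Real.exp_nat_mul, show ((2 : ℕ) : ℝ) * -y = -(2 * y) by push_cast; ring, Real.exp_neg,
    inv_le_comm₀ (Real.exp_pos _) (by linarith)]
  refine le_trans ?_ h
  rw [inv_le_iff_one_le_mul₀ (by linarith)]
  nlinarith

theorem alg_of (kh : KH) : SALG := by
  intro A M B p K k r K1 k0 k1 hB hA h
  have b : ∀ u, ‖B u‖ ≤ ‖u‖ := fun u => by simpa using le_of_opNorm_le _ hB u
  have lo : ∀ e, 7 / 8 * ‖A e‖ ^ 2 ≤ ‖M e‖ ^ 2 - p (M e) ^ 2 := fun e => by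
    have := mul_le_mul (mul_le_mul_of_nonneg_right k1 (norm_nonneg (A e))) (b (A e))
      (norm_nonneg _) (by positivity)
    nlinarith [(h e).2.2]
  have hM : M.det ≠ 0 := DNA.det_ne_zero M fun e he => DNA.inj_of_det A hA e (by
    have := lo e
    rw [he, map_zero, norm_zero] at this
    exact norm_eq_zero.1 (pow_eq_zero_iff two_ne_zero |>.1
      (le_antisymm (by linarith) (by positivity))))
  obtain ⟨S, hS⟩ : ∃ S : V →L[ℝ] V, ∀ w, M (S w) = w :=
    ⟨(M.toContinuousLinearEquivOfDetNeZero hM).symm, fun w =>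
      (M.toContinuousLinearEquivOfDetNeZero hM).apply_symm_apply w⟩
  have hT : ∀ w, ‖A (S w)‖ ^ 2 ≤ 2 * ‖w‖ ^ 2 := fun w => by
    have := lo (S w)
    rw [hS] at this
    nlinarith [sq_nonneg (p w), sq_nonneg ‖w‖]
  have K0 : 0 < K ^ 2 := by positivity
  refine ⟨?_, ?_, ?_, fun D hD => ?_⟩
  · have y1 : 32 * k ^ 2 ≤ 1 / 2 := by nlinarith
    have d := DNA.det_le_sqrt ((√(1 - 32 * k ^ 2) • (ContinuousLinearMap.id ℝ V -
      (1 / 32 : ℝ) • (adjoint B).comp B)).comp A) M ((InnerProductSpace.toDual ℝ V).symm p)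
      fun e => by
        rw [InnerProductSpace.toDual_symm_apply]
        refine le_trans ?_ (h e).2.2
        have t := mul_le_mul_of_nonneg_left (two B hB (A e))
          (show 0 ≤ 1 - 32 * k ^ 2 by linarith)
        simp only [comp_apply, smul_apply, sub_apply, id_apply]
        rw [norm_smul, mul_pow, Real.norm_eq_abs, sq_abs, Real.sq_sqrt (by linarith)]
        nlinarith [sq_nonneg (k * ‖A e‖ - ‖B (A e)‖ / 64),
          mul_le_mul_of_nonneg_right y1 (sq_nonneg ‖B (A e)‖), sq_nonneg ‖B (A e)‖]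
    rw [LinearIsometryEquiv.norm_map, ContinuousLinearMap.det, toLinearMap_comp,
      LinearMap.det_comp, abs_mul] at d
    have e1 : Real.exp (-(32 * dm * k ^ 2)) * Real.exp (-(hs B / 8)) ≤
        |(√(1 - 32 * k ^ 2) • (ContinuousLinearMap.id ℝ V -
          (1 / 32 : ℝ) • (adjoint B).comp B)).det| := by
      rw [det_smul, abs_mul, abs_of_nonneg (by positivity)]
      refine mul_le_mul ?_ (one kh B hB) (by positivity) (by positivity)
      rw [show -(32 * (dm : ℝ) * k ^ 2) = dm * -(32 * k ^ 2) by ring, Real.exp_nat_mul]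
      exact pow_le_pow_left₀ (by positivity) (three (by positivity) y1) _
    have e2 := mul_le_mul_of_nonneg_right ((mul_le_mul_of_nonneg_right e1
      (abs_nonneg A.det)).trans d) (Real.exp_pos (32 * dm * k ^ 2 - hs B / 8)).le
    refine le_trans (le_of_eq ?_) e2
    rw [mul_right_comm, ← Real.exp_add, ← Real.exp_add, mul_comm]
    congr 2
    ring
  · have c : 1 / (2 * K ^ 2) ≤ 1 / 2 := one_div_le_one_div_of_le two_pos (by nlinarith)
    refine sq_bd p (by linarith) fun w => ?_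
    have h1 := lo (S w)
    have h2 := pow_le_pow_left₀ (norm_nonneg _) (h (S w)).1 2
    rw [hS] at h1 h2
    have h3 : 1 / (2 * K ^ 2) * ‖w‖ ^ 2 ≤ 1 / 2 * ‖A (S w)‖ ^ 2 := by
      rw [one_div_mul_eq_div, div_le_iff₀ (by positivity)]
      nlinarith
    rw [Real.norm_eq_abs, sq_abs]
    nlinarith [sq_nonneg ‖A (S w)‖]
  · refine sq_bd p (by positivity) fun w => ?_
    have h2 := pow_le_pow_left₀ (abs_nonneg _) (h (S w)).2.1 2
    rw [hS] at h2
    rw [Real.norm_eq_abs]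
    nlinarith [mul_le_mul_of_nonneg_left (hT w) (sq_nonneg (K * r))]
  · have h1 : ∀ w, ‖D w‖ ≤ K * ‖B (A (S w))‖ := fun w => by simpa only [hS] using hD (S w)
    have nT := sq_bd (A.comp S) zero_le_two hT
    refine ⟨abs_le_of_sq_le_sq' (sq_bd D (by positivity) fun w => ?_) (by linarith) |>.2, ?_⟩
    · have := pow_le_pow_left₀ (norm_nonneg _) ((h1 w).trans
        (mul_le_mul_of_nonneg_left (b _) (by linarith))) 2
      nlinarith [mul_le_mul_of_nonneg_left (hT w) K0.le, mul_nonneg K0.le (sq_nonneg ‖w‖)]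
    · refine (kh.mono D (K • B.comp (A.comp S)) fun w => ?_).trans ?_
      · rw [smul_apply, norm_smul, Real.norm_of_nonneg (by linarith)]
        exact h1 w
      · have := (kh.right B (A.comp S)).trans (mul_le_mul_of_nonneg_right nT (kh.nonneg B))
        rw [kh.smul]
        nlinarith [mul_le_mul_of_nonneg_left this K0.le, mul_nonneg K0.le (kh.nonneg B)]

end ALG2

end Pool.Agent.MP_3ee8cb_gt.DF
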