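import Pool.Agent.MP_3ee8cb_gt.DF.Spec
import Pool.Agent.MP_3ee8cb_gt.DNOD.Ric

/-! Facts on the Hilbert-Schmidt norm. -/

namespace Pool.Agent.MP_3ee8cb_gt.DF

open DN ContinuousLinearMap
open scoped RealInnerProductSpace

noncomputable section

variable [Dim]

namespace KH

/-- The standard basis. -/
def bs : OrthonormalBasis (Fin dm) ℝ V := EuclideanSpace.basisFun (Fin dm) ℝ

theorem hs_bs (B : V →L[ℝ] V) : hs B = ∑ i, ‖B (bs i)‖ ^ 2 := by
  simp [hs, bs]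

theorem swap (B : V →L[ℝ] V) (f g : OrthonormalBasis (Fin dm) ℝ V) :
    ∑ i, ‖B (f i)‖ ^ 2 = ∑ j, ‖adjoint B (g j)‖ ^ 2 := by
  have h1 : ∀ i, ‖B (f i)‖ ^ 2 = ∑ j, ⟪g j, B (f i)⟫ ^ 2 := fun i =>
    (g.sum_sq_inner_right _).symm
  have h2 : ∀ j, ‖adjoint B (g j)‖ ^ 2 = ∑ i, ⟪g j, B (f i)⟫ ^ 2 := fun j => by
    rw [← f.sum_sq_inner_left]
    exact Finset.sum_congr rfl fun i _ => by rw [adjoint_inner_left]
  simp only [h1, h2]
  exact Finset.sum_comm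

theorem adj' (B : V →L[ℝ] V) : hs (adjoint B) = hs B := by
  rw [hs_bs, hs_bs, swap B bs bs]

theorem basis' (B : V →L[ℝ] V) (f : OrthonormalBasis (Fin dm) ℝ V) :
    hs B = ∑ i, ‖B (f i)‖ ^ 2 := by
  rw [swap B f bs, ← hs_bs, adj']

theorem left' (T B : V →L[ℝ] V) : hs (T.comp B) ≤ ‖T‖ ^ 2 * hs B := by
  rw [hs_bs, hs_bs, Finset.mul_sum]
  refine Finset.sum_le_sum fun i _ => ?_
  rw [← mul_pow]
  exact pow_le_pow_left₀ (norm_nonneg _) (T.le_opNorm _) 2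

theorem right' (B T : V →L[ℝ] V) : hs (B.comp T) ≤ ‖T‖ ^ 2 * hs B := by
  rw [← adj', adjoint_comp, ← adj' B, ← (adjoint (𝕜 := ℝ) (E := V) (F := V)).norm_map T]
  exact left' _ _

theorem trc_eq (B : V →L[ℝ] V) : trc B = ∑ i, ⟪bs i, B (bs i)⟫ :=
  LinearMap.trace_eq_sum_inner _ bs

theorem trc_adj (B C : V →L[ℝ] V) :
    trc ((adjoint B).comp C) = ∑ i, ⟪B (bs i), C (bs i)⟫ := by
  rw [trc_eq]
  exact Finset.sum_congr rfl fun i _ => by rw [comp_apply, adjoint_inner_right]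

theorem cs' (B C : V →L[ℝ] V) : trc ((adjoint B).comp C) ^ 2 ≤ hs B * hs C := by
  rw [trc_adj, hs_bs, hs_bs]
  refine le_trans ?_ (Finset.sum_mul_sq_le_sq_mul_sq _ (fun i => ‖B (bs i)‖) fun i => ‖C (bs i)‖)
  rw [← sq_abs]
  refine pow_le_pow_left₀ (abs_nonneg _) ((Finset.abs_sum_le_sum_abs _ _).trans ?_) 2
  exact Finset.sum_le_sum fun i _ => abs_real_inner_le_norm _ _

theorem one' (l : V →L[ℝ] ℝ) (w : V) : hs (l.smulRight w) = ‖l‖ ^ 2 * ‖w‖ ^ 2 := by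
  obtain ⟨u, rfl⟩ := (InnerProductSpace.toDual ℝ V).surjective l
  rw [hs_bs, LinearIsometryEquiv.norm_map, ← bs.sum_sq_inner_left u, Finset.sum_mul]
  refine Finset.sum_congr rfl fun i _ => ?_
  rw [smulRight_apply, norm_smul, mul_pow, Real.norm_eq_abs, sq_abs,
    InnerProductSpace.toDual_apply_apply]

theorem det' (Z : V →L[ℝ] V) (hZ : ‖Z‖ ≤ 1 / 2) :
    Real.exp (-trc Z - 5 * hs Z) ≤ |(ContinuousLinearMap.id ℝ V - Z).det| := by
  have hz : ∀ x, ‖Z x‖ ≤ 1 / 2 * ‖x‖ := fun x =>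
    (Z.le_opNorm x).trans (mul_le_mul_of_nonneg_right hZ (norm_nonneg _))
  set L : V →L[ℝ] V := ContinuousLinearMap.id ℝ V - Z with hL
  have hl : ∀ x, L x = x - Z x := fun x => rfl
  have hi : Function.Injective (L : V →ₗ[ℝ] V) := by
    refine (injective_iff_map_eq_zero _).2 fun x hx => ?_
    have h1 : x = Z x := sub_eq_zero.1 ((hl x).symm.trans hx)
    have h2 := hz x
    rw [← h1] at h2
    exact norm_le_zero_iff.1 (by linarith)
  choose e he using fun i => LinearMap.injective_iff_surjective.1 hi (bs i)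
  obtain ⟨h0, h1⟩ := Dia.had_log bs e L he
  have key : ∀ i, ‖e i‖ ^ 2 - 1 ≤
      2 * ⟪bs i, Z (bs i)⟫ + (‖adjoint Z (bs i)‖ ^ 2 + 8 * ‖Z (bs i)‖ ^ 2) := fun i => by
    have e1 : e i = bs i + Z (e i) := eq_add_of_sub_eq ((hl _).symm.trans (he i))
    have e2 : Z (e i) = Z (bs i) + Z (Z (e i)) := by rw [← map_add, ← e1]
    have e3 : ‖Z (e i)‖ ≤ 2 * ‖Z (bs i)‖ := by
      have a1 := norm_add_le (Z (bs i)) (Z (Z (e i)))
      rw [← e2] at a1
      linarith [hz (Z (e i))]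
    have e4 := norm_add_sq_real (bs i) (Z (e i))
    rw [← e1, bs.orthonormal.1 i] at e4
    have e5 : ⟪bs i, Z (e i)⟫ = ⟪bs i, Z (bs i)⟫ + ⟪adjoint Z (bs i), Z (e i)⟫ := by
      rw [adjoint_inner_left, ← inner_add_right, ← e2]
    have e6 := real_inner_le_norm (adjoint Z (bs i)) (Z (e i))
    have e7 := pow_le_pow_left₀ (norm_nonneg _) e3 2
    nlinarith [sq_nonneg (‖adjoint Z (bs i)‖ - ‖Z (e i)‖)]
  have h2 := Finset.sum_le_sum fun i (_ : i ∈ Finset.univ) => key i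
  rw [Finset.sum_add_distrib, Finset.sum_add_distrib, ← Finset.mul_sum, ← Finset.mul_sum,
    ← trc_eq, ← hs_bs, ← hs_bs, adj'] at h2
  have h3 : ∑ i, (1 - ‖e i‖ ^ 2) = -∑ i, (‖e i‖ ^ 2 - 1) := by
    rw [← Finset.sum_neg_distrib]
    exact Finset.sum_congr rfl fun i _ => by ring
  have h4 : 0 ≤ hs Z := Finset.sum_nonneg fun i _ => sq_nonneg _
  rw [← Real.exp_log (abs_pos.2 h0)]
  exact Real.exp_le_exp.2 (by linarith)

end KH

theorem kH : KH where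
  nonneg _ := Finset.sum_nonneg fun _ _ => sq_nonneg _
  cont := by unfold hs; fun_prop
  basis := KH.basis'
  adj := KH.adj'
  left := KH.left'
  right := KH.right'
  le B := by
    rw [KH.hs_bs]
    refine (Finset.sum_le_card_nsmul _ _ (‖B‖ ^ 2) fun i _ => ?_).trans (by simp)
    refine pow_le_pow_left₀ (norm_nonneg _) ((B.le_opNorm _).trans ?_) 2
    rw [KH.bs.orthonormal.1 i, mul_one]
  smul c B := by
    rw [KH.hs_bs, KH.hs_bs, Finset.mul_sum]
    refine Finset.sum_congr rfl fun i _ => ?_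
    rw [smul_apply, norm_smul, mul_pow, Real.norm_eq_abs, sq_abs]
  add B C := by
    rw [KH.hs_bs, KH.hs_bs, KH.hs_bs, Finset.mul_sum, Finset.mul_sum, ← Finset.sum_add_distrib]
    refine Finset.sum_le_sum fun i _ => ?_
    have h := pow_le_pow_left₀ (norm_nonneg _) (norm_add_le (B (KH.bs i)) (C (KH.bs i))) 2
    rw [add_apply]
    nlinarith [sq_nonneg (‖B (KH.bs i)‖ - ‖C (KH.bs i)‖)]
  one := KH.one'
  mono B C h := Finset.sum_le_sum fun _ _ => pow_le_pow_left₀ (norm_nonneg _) (h _) 2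
  self B := by
    rw [KH.trc_adj, KH.hs_bs]
    exact Finset.sum_congr rfl fun i _ => real_inner_self_eq_norm_sq _
  cs := KH.cs'
  det := KH.det'

end

end Pool.Agent.MP_3ee8cb_gt.DF
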